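import Pool.Agent.NTC.Q2

/-!
# [RGS-Q] if `D(A)` is projective then `A` is selfinjective
-/

set_option autoImplicit false

open CategoryTheory NTC

namespace RGS

section
variable {K A B : Type} [Field K] [Ring A] [Algebra K A] [Ring B] [Algebra K B]

/-- the linear functionals on the dual are evaluations -/
theorem eval_surj (hfd : FiniteDimensional K A) (Φ : DD K A →ₗ[K] K) :
    ∃ c : A, ∀ ζ : DD K A, Φ ζ = ζ.toFun c := by
  let E : DD K A ≃ₗ[K] (A →ₗ[K] K) := DD.eq.linearEquiv K
  have hfd' : Module.Finite K A := hfd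
  let Ψ : Module.Dual K (Module.Dual K A) := Φ ∘ₗ E.symm.toLinearMap
  refine ⟨(Module.evalEquiv K A).symm Ψ, fun ζ => ?_⟩
  have h1 : Module.evalEquiv K A ((Module.evalEquiv K A).symm Ψ) = Ψ :=
    (Module.evalEquiv K A).apply_symm_apply Ψ
  have h2 := LinearMap.congr_fun h1 (E ζ)
  have h3 : Ψ (E ζ) = Φ ζ := by
    show Φ (E.symm (E ζ)) = Φ ζ
    rw [E.symm_apply_apply]
  rw [← h3, ← h2]
  rfl

theorem eval_inj (hfd : FiniteDimensional K A) {c c' : A}
    (h : ∀ ζ : DD K A, ζ.toFun c = ζ.toFun c') : c = c' := by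
  have hfd' : Module.Finite K A := hfd
  apply (Module.evalEquiv K A).injective
  refine LinearMap.ext fun φ => ?_
  exact h ⟨φ⟩

/-- duality for an anti-isomorphism -/
theorem dual_inAdd (hfd : FiniteDimensional K A) (θ : A ≃ₗ[K] B)
    (hθ : ∀ a b, θ (a * b) = θ b * θ a) (h : InAdd A (DD K A) A) : InAdd B B (DD K B) := by
  obtain ⟨n, i, r, hir⟩ := h
  have hs : ∀ x y, θ.symm (x * y) = θ.symm y * θ.symm x := by
    intro x y
    apply θ.injective
    rw [hθ, θ.apply_symm_apply, θ.apply_symm_apply, θ.apply_symm_apply]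
  let F : Fin n → (B →ₗ[B] DD K B) := fun k =>
    { toFun := fun b => ⟨(r k 1).toFun ∘ₗ LinearMap.mulLeft K (θ.symm b) ∘ₗ θ.symm.toLinearMap⟩
      map_add' := fun b c => by
        refine DD.ext' fun x => ?_
        show (r k 1).toFun (θ.symm (b + c) * θ.symm x) =
          (r k 1).toFun (θ.symm b * θ.symm x) + (r k 1).toFun (θ.symm c * θ.symm x)
        rw [map_add, add_mul, map_add]
      map_smul' := fun c b => by
        refine DD.ext' fun x => ?_
        show (r k 1).toFun (θ.symm (c * b) * θ.symm x) =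
          (r k 1).toFun (θ.symm b * θ.symm (x * c))
        rw [hs, hs, mul_assoc] }
  have hG : ∀ (k : Fin n) (η : DD K B), ∃ c : A, ∀ ζ : DD K A,
      η.toFun (θ (i k ζ)) = ζ.toFun c := by
    intro k η
    exact eval_surj hfd
      { toFun := fun ζ => η.toFun (θ (i k ζ))
        map_add' := fun ζ ζ' => by rw [map_add, map_add, map_add]
        map_smul' := fun a ζ => by
          rw [LinearMap.map_smul_of_tower, map_smul, map_smul]
          rfl }
  choose g hg using hG
  let G : Fin n → (DD K B →ₗ[B] B) := fun k =>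
    { toFun := fun η => θ (g k η)
      map_add' := fun η η' => by
        rw [← map_add]
        congr 1
        refine eval_inj hfd fun ζ => ?_
        rw [← hg, map_add, ← hg, ← hg]
        rfl
      map_smul' := fun b η => by
        show θ (g k (b • η)) = b * θ (g k η)
        have h1 : g k (b • η) = g k η * θ.symm b := by
          refine eval_inj hfd fun ζ => ?_
          rw [← hg]
          have h2 : ζ.toFun (g k η * θ.symm b) = (θ.symm b • ζ).toFun (g k η) := rfl
          rw [h2, ← hg, map_smul]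
          show η.toFun (θ (i k ζ) * b) = η.toFun (θ (θ.symm b * i k ζ))
          rw [hθ, θ.apply_symm_apply]
        rw [h1, hθ, θ.apply_symm_apply] }
  refine ⟨n, F, G, ?_⟩
  refine LinearMap.ext fun b => ?_
  rw [LinearMap.sum_apply]
  show ∑ k, θ (g k (F k b)) = b
  rw [← map_sum]
  have h3 : ∑ k, g k (F k b) = θ.symm b := by
    refine eval_inj hfd fun ζ => ?_
    rw [map_sum]
    have h4 : ∀ k, ζ.toFun (g k (F k b)) = (r k (i k ζ)).toFun (θ.symm b) := by
      intro k
      rw [← hg]
      show (r k 1).toFun (θ.symm b * θ.symm (θ (i k ζ))) = _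
      rw [θ.symm_apply_apply]
      have h5 : r k (i k ζ) = i k ζ • r k 1 := by
        rw [← map_smul, smul_eq_mul, mul_one]
      rw [h5]
      rfl
    rw [Finset.sum_congr rfl fun k _ => h4 k]
    have h6 := LinearMap.congr_fun hir ζ
    rw [LinearMap.sum_apply] at h6
    have h7 : (∑ k, (r k ∘ₗ i k) ζ).toFun (θ.symm b) = ∑ k, (r k (i k ζ)).toFun (θ.symm b) := by
      have h8 : ∀ s : Finset (Fin n), (∑ k ∈ s, (r k ∘ₗ i k) ζ).toFun (θ.symm b) =
          ∑ k ∈ s, (r k (i k ζ)).toFun (θ.symm b) := by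
        intro s
        induction s using Finset.induction_on with
        | empty => rfl
        | insert a s ha ih =>
          rw [Finset.sum_insert ha, Finset.sum_insert ha, DD.add_toFun, LinearMap.add_apply, ih]
          rfl
      exact h8 Finset.univ
    rw [← h7, h6]
    rfl
  rw [h3, θ.apply_symm_apply]

end

/-- if `D(A)` is projective then `A` is selfinjective -/
theorem injective_of_dd {K A : Type} [Field K] [Ring A] [Algebra K A]
    (hfd : FiniteDimensional K A) (h : Module.Projective A (DD K A)) : Module.Injective A A := by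
  have h1 : InAdd A (DD K A) A := inAdd_of_projective h (dd_finite hfd)
  have hfd2 : FiniteDimensional K Aᵐᵒᵖ := inferInstance
  have h2 : InAdd Aᵐᵒᵖ Aᵐᵒᵖ (DD K Aᵐᵒᵖ) :=
    dual_inAdd hfd (MulOpposite.opLinearEquiv K) (fun a b => rfl) h1
  have h3 : Module.Injective Aᵐᵒᵖ Aᵐᵒᵖ := h2.injective dd_injective
  have h4 : InAdd Aᵐᵒᵖ (DD K Aᵐᵒᵖ) Aᵐᵒᵖ := qf hfd2 h3
  have h5 : InAdd A A (DD K A) :=
    dual_inAdd hfd2 (MulOpposite.opLinearEquiv K).symm (fun a b => rfl) h4
  exact h5.injective dd_injective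

end RGS
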