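import Pool.Agent.RGS.G5
import Pool.Agent.RGS.Q

/-!
# [RGS-C1] first consequences
-/

set_option autoImplicit false

open CategoryTheory NTC

namespace RGS

section
variable {A : Type} [Ring A] [HasExt.{1} (ModuleCat.{0} A)]
variable {Z : ℕ → Type} [∀ n, AddCommGroup (Z n)] [∀ n, Module A (Z n)]

theorem fin_of_syz {M L : Type} [AddCommGroup M] [Module A M] [AddCommGroup L]
    [Module A L] (h : Syz A M L) : Module.Finite A M := by
  obtain ⟨P, i, p, hP, hPf, hi, hp, hip⟩ := h
  exact Module.Finite.of_surjective p hp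

/-- if a syzygy is projective then so is the module -/
theorem proj_down {M L : Type} [AddCommGroup M] [Module A M] [AddCommGroup L] [Module A L]
    (h : Syz A M L) (hL : Module.Projective A L) (hLf : Module.Finite A L) (hM : EV A M A) :
    Module.Projective A M := by
  obtain ⟨P, i, p, hP, hPf, hi, hp, hip⟩ := h
  have h1 : EV A M L := hM.add_right (inAdd_of_projective hL hLf)
  obtain ⟨g, hg⟩ := ses_lift i p hi hp hip (h1 1 le_rfl) LinearMap.id
  exact proj_of_retract hP g p hg.symm

theorem proj_of_proj (hZ : ∀ n, Syz A (Z n) (Z (n + 1))) (h1 : EV A (Z 0) (Z 0))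
    (h2 : EV A (Z 0) A) (n : ℕ) (hn : Module.Projective A (Z n)) : Module.Projective A (Z 0) := by
  induction n with
  | zero => exact hn
  | succ n ih =>
    exact ih (proj_down (hZ n) hn (fin_of_syz (hZ (n + 1))) (syz_ev_all hZ h1 h2 n).2)

theorem good_of_pres {V M : Type} [AddCommGroup V] [Module A V] [AddCommGroup M] [Module A M]
    (hM : ¬ Module.Projective A M) (h : Pres A V M) : GoodSummand A V M := by
  obtain ⟨V₁, V₀, a, b, h1, h0, ha, hb, hab⟩ := h
  let e : (⊤ : Submodule A M) ≃ₗ[A] M := Submodule.topEquiv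
  refine ⟨⊤, ⊥, isCompl_top_bot, fun hP => hM (Module.Projective.of_equiv e), V₁, V₀, a,
    e.symm.toLinearMap ∘ₗ b, h1, h0, ha, e.symm.surjective.comp hb, ?_⟩
  rw [hab, LinearEquiv.ker_comp]

/-- a module `Z 0` with `Ext^i(Z 0, Z 0) = 0 = Ext^i(Z 0, A)` for `i ≥ 1` is projective if
infinitely many syzygies are projective or have a non-projective direct summand with a
presentation in `add V` -/
theorem proj_of_inf (K : Type) [Field K] [Algebra K A] [FiniteDimensional K A]
    (hZ : ∀ n, Syz A (Z n) (Z (n + 1))) (h1 : EV A (Z 0) (Z 0)) (h2 : EV A (Z 0) A)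
    (V : Type) [AddCommGroup V] [Module A V] (hV : Module.Finite A V)
    (h : {n | Module.Projective A (Z n) ∨ GoodSummand A V (Z n)}.Infinite) :
    Module.Projective A (Z 0) := by
  by_contra hcon
  apply h
  refine (finite_good K hZ h1 h2 V hV).subset ?_
  rintro n (hn | hn)
  · exact absurd (proj_of_proj hZ h1 h2 n hn) hcon
  · exact hn

theorem proj_of_inf_pres (K : Type) [Field K] [Algebra K A] [FiniteDimensional K A]
    (hZ : ∀ n, Syz A (Z n) (Z (n + 1))) (h1 : EV A (Z 0) (Z 0)) (h2 : EV A (Z 0) A)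
    (V : Type) [AddCommGroup V] [Module A V] (hV : Module.Finite A V)
    (h : {n | Pres A V (Z n)}.Infinite) : Module.Projective A (Z 0) := by
  refine proj_of_inf K hZ h1 h2 V hV (h.mono ?_)
  intro n hn
  by_cases hP : Module.Projective A (Z n)
  · exact Or.inl hP
  · exact Or.inr (good_of_pres hP hn)

end

/-- every finitely generated module over a Noetherian ring has a resolution -/
theorem exists_res {A : Type} [Ring A] [IsNoetherianRing A]
    (R : ∀ (M L : ModuleCat.{0} A), Prop)
    (hR : ∀ M : ModuleCat.{0} A, Module.Finite A M → ∃ L : ModuleCat.{0} A, R M L ∧ Syz A M L)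
    (X : ModuleCat.{0} A) (hX : Module.Finite A X) :
    ∃ Z : ℕ → ModuleCat.{0} A, Z 0 = X ∧ ∀ n, R (Z n) (Z (n + 1)) ∧ Syz A (Z n) (Z (n + 1)) := by
  have hfin : ∀ M L : ModuleCat.{0} A, Syz A M L → Module.Finite A L := by
    rintro M L ⟨P, i, p, hP, hPf, hi, hp, hip⟩
    exact Module.Finite.of_injective i hi
  choose L hL using hR
  let S : Type 1 := {M : ModuleCat.{0} A // Module.Finite A M}
  let next : S → S := fun M => ⟨L M.1 M.2, hfin _ _ (hL M.1 M.2).2⟩
  let Zs : ℕ → S := fun n => next^[n] ⟨X, hX⟩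
  refine ⟨fun n => (Zs n).1, rfl, fun n => ?_⟩
  have h1 : Zs (n + 1) = next (Zs n) := Function.iterate_succ_apply' next n _
  show R (Zs n).1 (Zs (n + 1)).1 ∧ Syz A (Zs n).1 (Zs (n + 1)).1
  rw [h1]
  exact hL (Zs n).1 (Zs n).2

end RGS
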