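import Pool.Agent.RGS.C1

/-!
# [RGS-C2] extensions of modules of finite type
-/

set_option autoImplicit false

open CategoryTheory NTC

namespace RGS

section
variable {A : Type} [Ring A]

/-- `L` is an extension of a module in `add V` by a module in `add V` -/
def ExtType (A : Type) [Ring A] (V L : Type) [AddCommGroup V] [Module A V] [AddCommGroup L]
    [Module A L] : Prop :=
  ∃ S : Submodule A L, InAdd A S V ∧ InAdd A (L ⧸ S) V

theorem InAdd.prod {M M' N : Type} [AddCommGroup M] [Module A M] [AddCommGroup M'] [Module A M']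
    [AddCommGroup N] [Module A N] (h : InAdd A M N) (h' : InAdd A M' N) :
    InAdd A (M × M') N := by
  obtain ⟨n, i, r, hir⟩ := h
  obtain ⟨m, j, s, hjs⟩ := h'
  refine InAdd.of_fintype (J := Fin n ⊕ Fin m)
    (Sum.elim (fun k => i k ∘ₗ LinearMap.fst A M M') (fun k => j k ∘ₗ LinearMap.snd A M M'))
    (Sum.elim (fun k => LinearMap.inl A M M' ∘ₗ r k) (fun k => LinearMap.inr A M M' ∘ₗ s k)) ?_
  rw [Fintype.sum_sum_type]
  simp only [Sum.elim_inl, Sum.elim_inr]
  refine LinearMap.ext fun x => ?_
  rw [LinearMap.add_apply, LinearMap.sum_apply, LinearMap.sum_apply]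
  have h1 := LinearMap.congr_fun hir x.1
  have h2 := LinearMap.congr_fun hjs x.2
  rw [LinearMap.sum_apply] at h1 h2
  refine Prod.ext ?_ ?_
  · rw [Prod.fst_add, Prod.fst_sum, Prod.fst_sum]
    show ∑ k, r k (i k x.1) + ∑ k : Fin m, (0 : M) = x.1
    rw [Finset.sum_const_zero, add_zero]
    exact h1
  · rw [Prod.snd_add, Prod.snd_sum, Prod.snd_sum]
    show ∑ k : Fin n, (0 : M') + ∑ k, s k (j k x.2) = x.2
    rw [Finset.sum_const_zero, zero_add]
    exact h2

theorem InAdd.fst_right {M N N' : Type} [AddCommGroup M] [Module A M] [AddCommGroup N]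
    [Module A N] [AddCommGroup N'] [Module A N'] (h : InAdd A M N) : InAdd A M (N × N') :=
  h.trans (InAdd.of_retract (LinearMap.inl A N N') (LinearMap.fst A N N') rfl)

theorem InAdd.snd_right {M N N' : Type} [AddCommGroup M] [Module A M] [AddCommGroup N]
    [Module A N] [AddCommGroup N'] [Module A N'] (h : InAdd A M N') : InAdd A M (N × N') :=
  h.trans (InAdd.of_retract (LinearMap.inr A N N') (LinearMap.snd A N N') rfl)

/-- presentations of the modules in `add V` -/
theorem pres_of_inAdd {V K Q U : Type} [AddCommGroup V] [Module A V] [AddCommGroup K]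
    [Module A K] [AddCommGroup Q] [Module A Q] [AddCommGroup U] [Module A U]
    (hQ : Module.Projective A Q) (i : K →ₗ[A] Q) (p : Q →ₗ[A] V) (hi : Function.Injective i)
    (hp : Function.Surjective p) (hip : LinearMap.range i = LinearMap.ker p)
    (hU : InAdd A U V) : ∃ (n : ℕ) (π : (Fin n → Q) →ₗ[A] U), Function.Surjective π ∧
      InAdd A (LinearMap.ker π) (K × Q) := by
  obtain ⟨n, ii, rr, hir⟩ := hU
  have hir' : ∀ x, ∑ k, rr k (ii k x) = x := fun x => by
    have := LinearMap.congr_fun hir x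
    rwa [LinearMap.sum_apply] at this
  -- the maps `P = Q^n → V^n → U`
  let r : (Fin n → V) →ₗ[A] U := ∑ k, rr k ∘ₗ LinearMap.proj k
  let ι : U →ₗ[A] (Fin n → V) := LinearMap.pi ii
  have hr : ∀ v, r v = ∑ k, rr k (v k) := fun v => by
    show (∑ k, rr k ∘ₗ LinearMap.proj k) v = _
    rw [LinearMap.sum_apply]
    rfl
  have hrι : ∀ x, r (ι x) = x := fun x => by
    rw [hr]
    exact hir' x
  let pn : (Fin n → Q) →ₗ[A] (Fin n → V) := LinearMap.pi fun k => p ∘ₗ LinearMap.proj k
  have hpn : ∀ q k, pn q k = p (q k) := fun q k => rfl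
  have hpns : Function.Surjective pn := fun v =>
    ⟨fun k => (hp (v k)).choose, funext fun k => (hp (v k)).choose_spec⟩
  let π : (Fin n → Q) →ₗ[A] U := r ∘ₗ pn
  have hπ : Function.Surjective π := fun x => by
    obtain ⟨q, hq⟩ := hpns (ι x)
    exact ⟨q, by show r (pn q) = x; rw [hq, hrι]⟩
  refine ⟨n, π, hπ, ?_⟩
  have hQn : Module.Projective A (Fin n → Q) := (InAdd.pi n).projective hQ
  obtain ⟨et, het⟩ := Module.projective_lifting_property pn ((ι ∘ₗ r) ∘ₗ pn) hpns
  have het' : ∀ y, pn (et y) = ι (r (pn y)) := fun y => LinearMap.congr_fun het y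
  let in' : (Fin n → K) →ₗ[A] (Fin n → Q) := LinearMap.pi fun k => i ∘ₗ LinearMap.proj k
  have hin : Function.Injective in' := fun a b hab => funext fun k => hi (congrFun hab k)
  have hmem : ∀ y : LinearMap.ker π, et y ∈ LinearMap.range in' := by
    intro y
    have h1 : pn (et y) = 0 := by
      rw [het']
      have : r (pn y) = 0 := LinearMap.mem_ker.1 y.2
      rw [this, map_zero]
    have h2 : ∀ k, et y k ∈ LinearMap.range i := fun k => by
      rw [hip, LinearMap.mem_ker, ← hpn, h1]
      rfl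
    choose z hz using h2
    exact ⟨z, funext hz⟩
  let e₁ := LinearEquiv.ofInjective in' hin
  let e : LinearMap.ker π →ₗ[A] (Fin n → K) := e₁.symm.toLinearMap ∘ₗ
    (et ∘ₗ (LinearMap.ker π).subtype).codRestrict (LinearMap.range in') hmem
  have he : ∀ y : LinearMap.ker π, in' (e y) = et y := fun y =>
    congrArg Subtype.val (e₁.apply_symm_apply ⟨et y, hmem y⟩)
  let j : (Fin n → K) →ₗ[A] LinearMap.ker π := in'.codRestrict (LinearMap.ker π) fun z => by
    show r (pn (in' z)) = 0
    have h3 : pn (in' z) = 0 := funext fun k => by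
      show p (i (z k)) = 0
      have h4 : i (z k) ∈ LinearMap.ker p := hip ▸ LinearMap.mem_range_self _ _
      exact LinearMap.mem_ker.1 h4
    rw [h3, map_zero]
  let z' : (Fin n → Q) →ₗ[A] LinearMap.ker π := (LinearMap.id - et).codRestrict
    (LinearMap.ker π) fun y => by
      show r (pn (y - et y)) = 0
      rw [map_sub, het', map_sub, hrι, sub_self]
  have h5 : InAdd A (LinearMap.ker π) ((Fin n → K) × (Fin n → Q)) := by
    refine InAdd.of_retract (e.prod (LinearMap.ker π).subtype)
      (j ∘ₗ LinearMap.fst A _ _ + z' ∘ₗ LinearMap.snd A _ _) ?_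
    refine LinearMap.ext fun y => Subtype.ext ?_
    show in' (e y) + ((y : Fin n → Q) - et y) = y
    rw [he]
    abel
  refine h5.trans (InAdd.prod ?_ ?_)
  · exact InAdd.fst_right (InAdd.pi n)
  · exact InAdd.snd_right (InAdd.pi n)

/-- extensions of modules in `add V` have presentations in `add (V × (K × Q))` -/
theorem pres_of_ext {V K Q L : Type} [AddCommGroup V] [Module A V] [AddCommGroup K]
    [Module A K] [AddCommGroup Q] [Module A Q] [AddCommGroup L] [Module A L]
    (hQ : Module.Projective A Q) (i : K →ₗ[A] Q) (p : Q →ₗ[A] V) (hi : Function.Injective i)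
    (hp : Function.Surjective p) (hip : LinearMap.range i = LinearMap.ker p)
    (hL : ExtType A V L) : Pres A (V × (K × Q)) L := by
  obtain ⟨S, hS, hU⟩ := hL
  obtain ⟨n, π, hπ, hker⟩ := pres_of_inAdd hQ i p hi hp hip hU
  have hQn : Module.Projective A (Fin n → Q) := (InAdd.pi n).projective hQ
  obtain ⟨lam, hlam⟩ := Module.projective_lifting_property S.mkQ π (Submodule.mkQ_surjective S)
  have hlam' : ∀ q, S.mkQ (lam q) = π q := fun q => LinearMap.congr_fun hlam q
  have hmem : ∀ y : LinearMap.ker π, lam y ∈ S := by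
    intro y
    have h1 : S.mkQ (lam y) = 0 := by
      rw [hlam']
      exact LinearMap.mem_ker.1 y.2
    rwa [Submodule.mkQ_apply, Submodule.Quotient.mk_eq_zero] at h1
  let a : LinearMap.ker π →ₗ[A] (S × (Fin n → Q)) :=
    (-((lam ∘ₗ (LinearMap.ker π).subtype).codRestrict S hmem)).prod (LinearMap.ker π).subtype
  let b : (S × (Fin n → Q)) →ₗ[A] L := S.subtype.coprod lam
  refine ⟨ModuleCat.of A (LinearMap.ker π), ModuleCat.of A (S × (Fin n → Q)), a, b,
    InAdd.snd_right hker, InAdd.prod (InAdd.fst_right hS) (InAdd.snd_right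
      (InAdd.snd_right (InAdd.pi n))), ?_, ?_, ?_⟩
  · intro y y' hyy
    exact Subtype.ext (congrArg Prod.snd hyy)
  · intro x
    obtain ⟨q, hq⟩ := hπ (S.mkQ x)
    have h2 : x - lam q ∈ S := by
      have h3 : S.mkQ (x - lam q) = 0 := by rw [map_sub, hlam', hq, sub_self]
      rwa [Submodule.mkQ_apply, Submodule.Quotient.mk_eq_zero] at h3
    refine ⟨(⟨x - lam q, h2⟩, q), ?_⟩
    show (x - lam q) + lam q = x
    rw [sub_add_cancel]
  · apply le_antisymm
    · rintro _ ⟨y, rfl⟩
      show -(lam y) + lam y = 0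
      rw [neg_add_cancel]
    · rintro ⟨s, q⟩ hsq
      have h4 : (s : L) + lam q = 0 := hsq
      have h5 : π q = 0 := by
        rw [← hlam']
        have h6 : lam q = -(s : L) := by rw [← add_eq_zero_iff_neg_eq.1 h4]
        rw [h6, map_neg, Submodule.mkQ_apply, (Submodule.Quotient.mk_eq_zero S).2 s.2, neg_zero]
      refine ⟨⟨q, h5⟩, ?_⟩
      refine Prod.ext (Subtype.ext ?_) rfl
      show -(lam q) = s
      rw [neg_eq_iff_add_eq_zero, add_comm]
      exact h4

end

end RGS
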