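import Pool.Agent.RGS.K1

/-!
# [RGS-C3] small kernels
-/

set_option autoImplicit false

open CategoryTheory NTC

namespace RGS

variable {A : Type} [Ring A]

/-- a module killed by the radical of an artinian ring is semisimple -/
theorem semisimple_of_killed [IsArtinianRing A] (M : Type) [AddCommGroup M] [Module A M]
    (h : ∀ a ∈ Ring.jacobson A, ∀ x : M, a • x = 0) : IsSemisimpleModule A M := by
  have h1 : Module.IsTorsionBySet A M (Ring.jacobson A : Set A) := by
    intro x a
    exact h a.1 a.2 x
  let _ := h1.module
  exact (h1.semilinearMap.isSemisimpleModule_iff_of_bijective Function.bijective_id).2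
    inferInstance

/-- a maximal submodule avoiding an element outside of the radical -/
theorem exists_coatom [IsArtinianRing A] {P : Type} [AddCommGroup P] [Module A P] (x : P)
    (hx : x ∉ Ring.jacobson A • (⊤ : Submodule A P)) :
    ∃ N : Submodule A P, IsCoatom N ∧ x ∉ N := by
  let N₀ : Submodule A P := Ring.jacobson A • (⊤ : Submodule A P)
  have hss : IsSemisimpleModule A (P ⧸ N₀) := by
    refine semisimple_of_killed _ ?_
    intro a ha y
    obtain ⟨y, rfl⟩ := Submodule.mkQ_surjective N₀ y
    rw [← map_smul, Submodule.mkQ_apply, Submodule.Quotient.mk_eq_zero]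
    exact Submodule.smul_mem_smul ha trivial
  have h1 := IsSemisimpleModule.jacobson_eq_bot A (P ⧸ N₀)
  have h2 : N₀.mkQ x ∉ Module.jacobson A (P ⧸ N₀) := by
    rw [h1, Submodule.mem_bot, Submodule.mkQ_apply, Submodule.Quotient.mk_eq_zero]
    exact hx
  rw [Module.jacobson, Submodule.mem_sInf] at h2
  push Not at h2
  obtain ⟨m, hm, hxm⟩ := h2
  refine ⟨m.comap N₀.mkQ, ?_, hxm⟩
  exact Submodule.isCoatom_comap_iff (Submodule.mkQ_surjective N₀) |>.2 hm

/-- projective covers: a surjection from a finitely generated projective module with kernel in the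
radical -/
theorem exists_cover [IsArtinianRing A] (n : ℕ) : ∀ (P M : Type) [AddCommGroup P] [Module A P]
    [AddCommGroup M] [Module A M] (_ : Module.Projective A P) (_ : Module.Finite A P)
    (π : P →ₗ[A] M) (_ : Function.Surjective π) (_ : Module.length A P ≤ n),
    ∃ (P' : Type) (_ : AddCommGroup P') (_ : Module A P') (π' : P' →ₗ[A] M),
      Module.Projective A P' ∧ Module.Finite A P' ∧ Function.Surjective π' ∧
      LinearMap.ker π' ≤ Ring.jacobson A • (⊤ : Submodule A P') := by
  induction n with
  | zero =>
    intro P M _ _ _ _ hP hPf π hπ hl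
    refine ⟨P, _, _, π, hP, hPf, hπ, ?_⟩
    have hs : Subsingleton P := by
      rw [← Module.length_eq_zero_iff (R := A)]
      simpa using hl
    intro x _
    rw [Subsingleton.elim x 0]
    exact zero_mem _
  | succ n ih =>
    intro P M _ _ _ _ hP hPf π hπ hl
    by_cases hk : LinearMap.ker π ≤ Ring.jacobson A • (⊤ : Submodule A P)
    · exact ⟨P, _, _, π, hP, hPf, hπ, hk⟩
    · obtain ⟨x, hx, hxJ⟩ := Set.not_subset.1 hk
      obtain ⟨N, hN, hxN⟩ := exists_coatom x hxJ
      have hsup : N ⊔ LinearMap.ker π = ⊤ := by
        rcases hN.le_iff.1 (le_sup_left : N ≤ N ⊔ LinearMap.ker π) with h | h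
        · exact h
        · exfalso
          apply hxN
          rw [← h]
          exact Submodule.mem_sup_right hx
      have hNs : Function.Surjective (π ∘ₗ N.subtype) := by
        intro y
        obtain ⟨z, rfl⟩ := hπ y
        have hz : z ∈ N ⊔ LinearMap.ker π := by rw [hsup]; trivial
        obtain ⟨u, hu, v, hv, rfl⟩ := Submodule.mem_sup.1 hz
        refine ⟨⟨u, hu⟩, ?_⟩
        show π u = π (u + v)
        rw [map_add, LinearMap.mem_ker.1 hv, add_zero]
      obtain ⟨g, hg⟩ := Module.projective_lifting_property (π ∘ₗ N.subtype) π hNs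
      have hg' : ∀ y, π ((g y : N) : P) = π y := fun y => LinearMap.congr_fun hg y
      let φ : P →ₗ[A] P := N.subtype ∘ₗ g
      have hφ : ∀ y, π (φ y) = π y := hg'
      obtain ⟨m, hm⟩ := (LinearMap.eventually_isCompl_ker_pow_range_pow φ).exists_forall_of_atTop
      have hc := hm (m + 1) (by omega)
      have hφm : ∀ (k : ℕ) y, π ((φ ^ k : Module.End A P) y) = π y := by
        intro k
        induction k with
        | zero => intro y; rfl
        | succ k ihk =>
          intro y
          rw [pow_succ', Module.End.mul_apply, hφ, ihk]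
      let P' : Submodule A P := LinearMap.range (φ ^ (m + 1) : Module.End A P)
      have hP'N : P' ≤ N := by
        rintro _ ⟨y, rfl⟩
        rw [pow_succ', Module.End.mul_apply]
        exact (g _).2
      have hP'top : P' ≠ ⊤ := fun h => hN.1 (top_le_iff.1 (h ▸ hP'N))
      have hP'p : Module.Projective A P' := by
        refine (InAdd.of_retract P'.subtype (Submodule.projectionOnto P' _ hc.symm) ?_).projective hP
        exact Submodule.projectionOnto_comp_subtype hc.symm
      have hlen : Module.length A P' ≤ n := by
        have h6 : Module.length A P' < Module.length A P := Submodule.length_lt hP'top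
        have h8 : Module.length A P' < (n : ℕ∞) + 1 := lt_of_lt_of_le h6 (by simpa using hl)
        exact Order.le_of_lt_add_one h8
      refine ih P' M hP'p inferInstance (π ∘ₗ P'.subtype) ?_ hlen
      intro y
      obtain ⟨z, rfl⟩ := hπ y
      exact ⟨⟨(φ ^ (m + 1) : Module.End A P) z, z, rfl⟩, hφm (m + 1) z⟩

end RGS
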