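import Pool.Agent.RGS.C2
import Pool.Agent.RGS.C3

/-!
# [RGS-C4] classes of algebras
-/

set_option autoImplicit false

open CategoryTheory NTC

namespace RGS

/-- the Auslander-Reiten conjecture for `A` -/
def ARC (A : Type) [Ring A] [HasExt.{1} (ModuleCat.{0} A)] : Prop :=
  ∀ X : ModuleCat.{0} A, Module.Finite A X →
    (∀ i : ℕ, 1 ≤ i → Subsingleton (Abelian.Ext.{1} X X i)) →
    (∀ i : ℕ, 1 ≤ i → Subsingleton (Abelian.Ext.{1} X (ModuleCat.of A A) i)) →
    Module.Projective A X

/-- Igusa-Todorov algebras: for some `n` and some finitely generated module `V`, every `n`-th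
syzygy `L` of a module has a presentation `0 → V₁ → V₀ → L → 0` with `V₁`, `V₀` in `add V` -/
def IsIT (A : Type) [Ring A] : Prop :=
  ∃ (V : ModuleCat.{0} A) (n : ℕ), Module.Finite A V ∧ ∀ Z : ℕ → ModuleCat.{0} A,
    (∀ k, Syz A (Z k) (Z (k + 1))) → Pres A V (Z n)

/-- the modules annihilated by `I` are of finite representation type: for some finitely generated
module `V` every finitely generated module annihilated by `I` is in `add V` -/
def RepFin (A : Type) [Ring A] (I : Ideal A) : Prop :=
  ∃ V : ModuleCat.{0} A, Module.Finite A V ∧ ∀ X : ModuleCat.{0} A, Module.Finite A X →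
    (∀ a ∈ I, ∀ x : X, a • x = 0) → InAdd A X V

section
variable (K : Type) {A : Type} [Field K] [Ring A] [Algebra K A] [FiniteDimensional K A]
  [HasExt.{1} (ModuleCat.{0} A)]

include K

/-- the Auslander-Reiten conjecture for `A` implies the first Tachikawa conjecture for `A` -/
theorem tc1_of_dd (h : TVan A → Module.Projective A (DD K A)) : TC1 A := by
  intro hT
  exact injective_of_dd (K := K) inferInstance (h hT)

theorem tc1_of_arc (h : ARC A) : TC1 A := by
  refine tc1_of_dd K fun hT => ?_
  have hinj : Module.Injective A (DD K A) := dd_injective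
  have hfin : Module.Finite A (DD K A) := dd_finite inferInstance
  exact h (ModuleCat.of A (DD K A)) hfin (fun i hi => ev_of_injective hinj i hi)
    (fun i hi => hT (ModuleCat.of A (DD K A)) hinj hfin i hi)

theorem exists_syz [IsNoetherianRing A] (M : ModuleCat.{0} A) (hM : Module.Finite A M) :
    ∃ L : ModuleCat.{0} A, True ∧ Syz A M L := by
  obtain ⟨n, f, hf⟩ := Module.Finite.exists_fin' A M
  exact ⟨ModuleCat.of A (LinearMap.ker f), trivial, ModuleCat.of A (Fin n → A),
    (LinearMap.ker f).subtype, f, inferInstanceAs (Module.Projective A (Fin n → A)),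
    inferInstanceAs (Module.Finite A (Fin n → A)),
    Submodule.injective_subtype _, hf, Submodule.range_subtype _⟩

theorem arc_of_it (h : IsIT A) : ARC A := by
  have hArt : IsArtinianRing A := IsArtinianRing.of_finite K A
  obtain ⟨V, n, hV, hIT⟩ := h
  intro X hX h1 h2
  obtain ⟨Z, rfl, hZ⟩ := exists_res (A := A) (fun _ _ => True)
    (fun M hM => exists_syz K M hM) X hX
  refine proj_of_inf_pres K (Z := fun n => Z n) (fun n => (hZ n).2) h1 h2 V hV ?_
  have h3 : Set.Ici n ⊆ {n | Pres A V (Z n)} := by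
    intro m hm
    obtain ⟨k, rfl⟩ : ∃ k, m = k + n := ⟨m - n, by have : n ≤ m := hm; omega⟩
    exact hIT (fun j => Z (k + j)) fun j => (hZ (k + j)).2
  exact (Set.Ici_infinite n).mono h3

theorem arc_of_ideals (I₁ I₂ : Ideal A)
    (h : ∀ a ∈ I₁, ∀ b ∈ I₂, ∀ c ∈ Ring.jacobson A, a * b * c = 0) (h1 : RepFin A I₁)
    (h2 : RepFin A I₂) : ARC A := by
  have hArt : IsArtinianRing A := IsArtinianRing.of_finite K A
  obtain ⟨V₁, hV₁, hr₁⟩ := h1
  obtain ⟨V₂, hV₂, hr₂⟩ := h2
  intro X hX hXX hXA
  have hV : Module.Finite A (V₁ × V₂) := inferInstance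
  obtain ⟨Z, rfl, hZ⟩ := exists_res (A := A) (fun _ L => ExtType A (V₁ × V₂) L) (by
    intro M hM
    obtain ⟨n, f, hf⟩ := Module.Finite.exists_fin' A M
    obtain ⟨l, hl⟩ := ENat.ne_top_iff_exists.1 (Module.length_ne_top (R := A) (M := Fin n → A))
    obtain ⟨P, _, _, π, hP, hPf, hπ, hker⟩ := exists_cover (A := A) l (Fin n → A) M
      inferInstance inferInstance f hf hl.ge
    have hkill : ∀ a ∈ I₁, ∀ b ∈ I₂, ∀ x : LinearMap.ker π, a • b • x = 0 := by
      intro a ha b hb x
      apply Subtype.ext
      show a • b • (x : P) = 0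
      rw [smul_smul]
      have hx := hker x.2
      refine Submodule.smul_induction_on hx ?_ ?_
      · intro c hc p _
        rw [smul_smul, h a ha b hb c hc, zero_smul]
      · intro y z hy hz
        rw [smul_add, hy, hz, add_zero]
    refine ⟨ModuleCat.of A (LinearMap.ker π), ⟨I₂ • (⊤ : Submodule A (LinearMap.ker π)), ?_, ?_⟩,
      ModuleCat.of A P, (LinearMap.ker π).subtype, π, hP, hPf, Submodule.injective_subtype _, hπ,
      Submodule.range_subtype _⟩
    · refine InAdd.fst_right ?_
      refine hr₁ (ModuleCat.of A (I₂ • (⊤ : Submodule A (LinearMap.ker π)) : Submodule A _))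
        inferInstance ?_
      intro a ha x
      apply Subtype.ext
      show a • (x : LinearMap.ker π) = 0
      refine Submodule.smul_induction_on x.2 ?_ ?_
      · intro b hb y _
        exact hkill a ha b hb y
      · intro y z hy hz
        rw [smul_add, hy, hz, add_zero]
    · refine InAdd.snd_right ?_
      refine hr₂ (ModuleCat.of A (LinearMap.ker π ⧸ (I₂ • (⊤ : Submodule A (LinearMap.ker π)))))
        inferInstance ?_
      intro b hb x
      obtain ⟨y, rfl⟩ := Submodule.mkQ_surjective _ x
      rw [← map_smul, Submodule.mkQ_apply, Submodule.Quotient.mk_eq_zero]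
      exact Submodule.smul_mem_smul hb trivial) X hX
  obtain ⟨m, f, hf⟩ := Module.Finite.exists_fin' A (V₁ × V₂)
  have hfin : Module.Finite A ((V₁ × V₂) × (LinearMap.ker f × (Fin m → A))) := inferInstance
  refine proj_of_inf_pres K (Z := fun n => Z n) (fun n => (hZ n).2) hXX hXA
    ((V₁ × V₂) × (LinearMap.ker f × (Fin m → A))) hfin ?_
  have h3 : Set.Ici 1 ⊆ {n | Pres A ((V₁ × V₂) × (LinearMap.ker f × (Fin m → A))) (Z n)} := by
    intro k hk
    obtain ⟨j, rfl⟩ : ∃ j, k = j + 1 := ⟨k - 1, by have : 1 ≤ k := hk; omega⟩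
    exact pres_of_ext (inferInstanceAs (Module.Projective A (Fin m → A)))
      (LinearMap.ker f).subtype f (Submodule.injective_subtype _) hf (Submodule.range_subtype _)
      (hZ j).1
  exact (Set.Ici_infinite 1).mono h3

theorem repFin_jacobson : RepFin A (Ring.jacobson A) := by
  have hArt : IsArtinianRing A := IsArtinianRing.of_finite K A
  refine ⟨ModuleCat.of A (A ⧸ Ring.jacobson A), inferInstanceAs (Module.Finite A (A ⧸ _)), ?_⟩
  intro X hX hk
  obtain ⟨n, f, hf⟩ := Module.Finite.exists_fin' A X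
  let q : (Fin n → A) →ₗ[A] (Fin n → (A ⧸ Ring.jacobson A)) :=
    LinearMap.pi fun k => (Submodule.mkQ (Ring.jacobson A)) ∘ₗ LinearMap.proj k
  have hq : ∀ v k, q v k = Submodule.mkQ (Ring.jacobson A) (v k) := fun v k => rfl
  have hqs : Function.Surjective q := fun v =>
    ⟨fun k => (Submodule.mkQ_surjective (Ring.jacobson A) (v k)).choose,
      funext fun k => (Submodule.mkQ_surjective (Ring.jacobson A) (v k)).choose_spec⟩
  have hle : LinearMap.ker q ≤ LinearMap.ker f := by
    intro v hv
    have hv' : ∀ k, v k ∈ Ring.jacobson A := fun k => by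
      have h1 : q v k = 0 := by rw [LinearMap.mem_ker.1 hv]; rfl
      rwa [hq, Submodule.mkQ_apply, Submodule.Quotient.mk_eq_zero] at h1
    rw [LinearMap.mem_ker]
    have h2 : v = ∑ k, v k • (Pi.single k (1 : A) : Fin n → A) := by
      refine funext fun j => ?_
      rw [Finset.sum_apply]
      rw [Finset.sum_eq_single j]
      · rw [Pi.smul_apply, Pi.single_eq_same, smul_eq_mul, mul_one]
      · intro b _ hb
        rw [Pi.smul_apply, Pi.single_eq_of_ne (Ne.symm hb), smul_zero]
      · intro hj
        exact absurd (Finset.mem_univ _) hj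
    rw [h2, map_sum]
    refine Finset.sum_eq_zero fun k _ => ?_
    rw [map_smul]
    exact hk _ (hv' k) _
  obtain ⟨g, hg⟩ : ∃ g : (Fin n → (A ⧸ Ring.jacobson A)) →ₗ[A] X, f = g ∘ₗ q := by
    refine ⟨(LinearMap.ker q).liftQ f hle ∘ₗ (q.quotKerEquivOfSurjective hqs).symm.toLinearMap, ?_⟩
    refine LinearMap.ext fun x => ?_
    have h1 : (q.quotKerEquivOfSurjective hqs).symm (q x) = Submodule.Quotient.mk x := by
      rw [LinearEquiv.symm_apply_eq]
      rfl
    show f x = (LinearMap.ker q).liftQ f hle ((q.quotKerEquivOfSurjective hqs).symm (q x))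
    rw [h1]
    exact (Submodule.liftQ_apply _ _ _).symm
  have hgs : Function.Surjective g := by
    intro x
    obtain ⟨v, rfl⟩ := hf x
    exact ⟨q v, by rw [hg]; rfl⟩
  have hss : IsSemisimpleModule A (Fin n → (A ⧸ Ring.jacobson A)) := by
    refine semisimple_of_killed _ ?_
    intro a ha v
    refine funext fun k => ?_
    obtain ⟨y, hy⟩ := Submodule.mkQ_surjective (Ring.jacobson A) (v k)
    show a • v k = 0
    rw [← hy, ← map_smul, Submodule.mkQ_apply, Submodule.Quotient.mk_eq_zero, smul_eq_mul]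
    exact Ideal.mul_mem_right _ _ ha
  obtain ⟨s, hs⟩ := IsSemisimpleModule.lifting_property g hgs LinearMap.id
  exact (InAdd.of_retract s g hs).trans (InAdd.pi n)

theorem arc_of_cube (h : ∀ a ∈ Ring.jacobson A, ∀ b ∈ Ring.jacobson A, ∀ c ∈ Ring.jacobson A,
    a * b * c = 0) : ARC A :=
  arc_of_ideals K (Ring.jacobson A) (Ring.jacobson A) h (repFin_jacobson K) (repFin_jacobson K)

end

end RGS
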