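import Pool.Agent.RGS.G6
import Pool.Agent.RGS.C4

/-!
# [RGS-C5] torsionfree modules
-/

set_option autoImplicit false

open CategoryTheory NTC

namespace RGS

/-- `D` is `k`-torsionfree: there are exact sequences `0 → D_j → Q_j → D_{j+1} → 0`, `j < k`, with
`D_0 = D`, `Q_j` finitely generated projective and `Ext^1(D_{j+1}, A) = 0` -/
def TF (A : Type) [Ring A] [HasExt.{1} (ModuleCat.{0} A)] : ℕ → ModuleCat.{0} A → Prop
  | 0, _ => True
  | k + 1, D => ∃ (Q N : ModuleCat.{0} A) (i : D →ₗ[A] Q) (p : Q →ₗ[A] N),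
      Module.Projective A Q ∧ Module.Finite A Q ∧ Function.Injective i ∧ Function.Surjective p ∧
      LinearMap.range i = LinearMap.ker p ∧
      Subsingleton (Abelian.Ext.{1} N (ModuleCat.of A A) 1) ∧ TF A k N

section
variable {A : Type} [Ring A]

theorem factor' {V₀ W Y : Type} [AddCommGroup V₀] [Module A V₀] [AddCommGroup W] [Module A W]
    [AddCommGroup Y] [Module A Y] (b : V₀ →ₗ[A] W) (hb : Function.Surjective b) (f : V₀ →ₗ[A] Y)
    (hf : LinearMap.ker b ≤ LinearMap.ker f) : ∃ g : W →ₗ[A] Y, f = g ∘ₗ b := by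
  refine ⟨(LinearMap.ker b).liftQ f hf ∘ₗ (b.quotKerEquivOfSurjective hb).symm.toLinearMap, ?_⟩
  refine LinearMap.ext fun x => ?_
  have h1 : (b.quotKerEquivOfSurjective hb).symm (b x) = Submodule.Quotient.mk x := by
    rw [LinearEquiv.symm_apply_eq]
    rfl
  show f x = (LinearMap.ker b).liftQ f hf ((b.quotKerEquivOfSurjective hb).symm (b x))
  rw [h1]
  exact (Submodule.liftQ_apply _ _ _).symm

variable [HasExt.{1} (ModuleCat.{0} A)]

theorem ev_add_right {M N N' : Type} [AddCommGroup M] [Module A M] [AddCommGroup N] [Module A N]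
    [AddCommGroup N'] [Module A N'] {d : ℕ} (h : Ev A M N d) (hN : InAdd A N' N) :
    Ev A M N' d := by
  obtain ⟨n, i, r, hir⟩ := hN
  refine subsingleton_of_forall_eq 0 (fun α => ?_)
  rw [← Abelian.Ext.comp_mk₀_id α, ← e4_id (fun _ : Fin n => N) i r hir, Abelian.Ext.mk₀_sum,
    Abelian.Ext.comp_sum]
  refine Finset.sum_eq_zero (fun j _ => ?_)
  rw [← Abelian.Ext.mk₀_comp_mk₀, ← Abelian.Ext.comp_assoc_of_third_deg_zero]
  have h' : Subsingleton (Abelian.Ext.{1} (ModuleCat.of A M) (ModuleCat.of A N) d) := h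
  rw [Subsingleton.elim (α.comp (Abelian.Ext.mk₀ (ModuleCat.ofHom (i j))) (add_zero d)) 0,
    Abelian.Ext.zero_comp]

theorem TF.mono {k : ℕ} {D : ModuleCat.{0} A} (h : TF A (k + 1) D) : TF A k D := by
  induction k generalizing D with
  | zero => trivial
  | succ k ih =>
    obtain ⟨Q, N, i, p, h1, h2, h3, h4, h5, h6, h7⟩ := h
    exact ⟨Q, N, i, p, h1, h2, h3, h4, h5, h6, ih h7⟩

theorem TF.le {k l : ℕ} (hkl : k ≤ l) {D : ModuleCat.{0} A} (h : TF A l D) : TF A k D := by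
  induction l, hkl using Nat.le_induction with
  | base => exact h
  | succ l _ ih => exact ih h.mono

/-- torsionfree modules have no stable homomorphisms to the syzygies of an injective module -/
theorem stz_of_tf {Z : ℕ → Type} [∀ n, AddCommGroup (Z n)] [∀ n, Module A (Z n)]
    (hZ : ∀ n, Syz A (Z n) (Z (n + 1))) (h0 : Module.Injective A (Z 0)) (k : ℕ) :
    ∀ D : ModuleCat.{0} A, TF A (k + 1) D → StZ A D (Z k) := by
  induction k with
  | zero =>
    rintro D ⟨Q, N, i, p, hQ, hQf, hi, hp, hip, hN, -⟩ f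
    obtain ⟨g, hg⟩ := h0.out (X := D) (Y := Q) i hi f
    exact ⟨Q, i, g, hQ, LinearMap.ext hg⟩
  | succ k ih =>
    rintro D ⟨Q, N, i, p, hQ, hQf, hi, hp, hip, hN, hTF⟩ f
    obtain ⟨P, j, q, hP, hPf, hj, hq, hjq⟩ := hZ k
    have hNA : Ev A N A 1 := hN
    have hNP : Ev A N P 1 := by
      exact ev_add_right hNA (inAdd_of_projective hP hPf)
    obtain ⟨g, hg⟩ := ses_ext i p hi hp hip hNP (j ∘ₗ f)
    have hg' : ∀ x, j (f x) = g (i x) := fun x => LinearMap.congr_fun hg x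
    obtain ⟨g', hg1⟩ := factor' p hp (q ∘ₗ g) (by
      rw [← hip]
      rintro _ ⟨x, rfl⟩
      rw [LinearMap.mem_ker]
      show q (g (i x)) = 0
      rw [← hg']
      have h2 : j (f x) ∈ LinearMap.ker q := hjq ▸ LinearMap.mem_range_self _ _
      exact LinearMap.mem_ker.1 h2)
    obtain ⟨g'', hg2⟩ := (ih N hTF).factor q hq g'
    have h3 : ∀ y, (g - g'' ∘ₗ p) y ∈ LinearMap.range j := by
      intro y
      rw [hjq, LinearMap.mem_ker]
      show q (g y - g'' (p y)) = 0
      have h4 : q (g y) = g' (p y) := LinearMap.congr_fun hg1 y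
      have h5 : q (g'' (p y)) = g' (p y) := LinearMap.congr_fun hg2 (p y)
      rw [map_sub, h4, h5, sub_self]
    let e := LinearEquiv.ofInjective j hj
    refine ⟨Q, i, e.symm.toLinearMap ∘ₗ (g - g'' ∘ₗ p).codRestrict (LinearMap.range j) h3, hQ, ?_⟩
    refine LinearMap.ext fun x => hj ?_
    show j (e.symm ⟨(g - g'' ∘ₗ p) (i x), h3 (i x)⟩) = j (f x)
    have h6 : j (e.symm ⟨(g - g'' ∘ₗ p) (i x), h3 (i x)⟩) = (g - g'' ∘ₗ p) (i x) :=
      congrArg Subtype.val (e.apply_symm_apply ⟨(g - g'' ∘ₗ p) (i x), h3 (i x)⟩)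
    rw [h6]
    show g (i x) - g'' (p (i x)) = j (f x)
    have h7 : i x ∈ LinearMap.ker p := hip ▸ LinearMap.mem_range_self _ _
    rw [LinearMap.mem_ker.1 h7, map_zero, sub_zero, hg']

end

end RGS
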