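import Pool.Agent.RGS.C5

/-!
# [RGS-C6] the first Tachikawa conjecture for classes of algebras
-/

set_option autoImplicit false

open CategoryTheory NTC

namespace RGS

section
variable {A : Type} [Ring A]

theorem PresR.mono {V W : Type} [AddCommGroup V] [Module A V] [AddCommGroup W]
    [Module A W] {R₁ R₀ R₁' R₀' : ModuleCat.{0} A → Prop} (h1 : ∀ D, R₁ D → R₁' D)
    (h0 : ∀ D, R₀ D → R₀' D) (h : PresR A V W R₁ R₀) : PresR A V W R₁' R₀' := by
  obtain ⟨V₁, V₀, D₁, D₀, a, b, k1, k2, k3, k4, k5, k6, k7, k8, k9⟩ := h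
  exact ⟨V₁, V₀, D₁, D₀, a, b, k1, k2, k3, k4, h1 _ k5, h0 _ k6, k7, k8, k9⟩

theorem PresR.congr {V W W' : Type} [AddCommGroup V] [Module A V] [AddCommGroup W]
    [Module A W] [AddCommGroup W'] [Module A W'] {R₁ R₀ : ModuleCat.{0} A → Prop}
    (e : W ≃ₗ[A] W') (h : PresR A V W R₁ R₀) : PresR A V W' R₁ R₀ := by
  obtain ⟨V₁, V₀, D₁, D₀, a, b, k1, k2, k3, k4, k5, k6, k7, k8, k9⟩ := h
  refine ⟨V₁, V₀, D₁, D₀, a, e.toLinearMap ∘ₗ b, k1, k2, k3, k4, k5, k6, k7,
    e.surjective.comp k8, ?_⟩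
  rw [k9, LinearEquiv.ker_comp]

theorem stz_punit {X : Type} [AddCommGroup X] [Module A X] : StZ A PUnit X := by
  intro f
  refine ⟨ModuleCat.of A PUnit, LinearMap.id, f, ?_, rfl⟩
  exact inferInstanceAs (Module.Projective A PUnit)

/-- presentations with trivial second components -/
theorem presR_of_pres {V W : Type} [AddCommGroup V] [Module A V] [AddCommGroup W]
    [Module A W] {R₁ R₀ : ModuleCat.{0} A → Prop} (h1 : R₁ (ModuleCat.of A PUnit))
    (h0 : R₀ (ModuleCat.of A PUnit)) (h : Pres A V W) : PresR A V W R₁ R₀ := by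
  obtain ⟨V₁, V₀, a, b, k1, k2, k3, k4, k5⟩ := h
  refine ⟨V₁, V₀, ModuleCat.of A PUnit, ModuleCat.of A PUnit,
    LinearMap.inl A V₀ PUnit ∘ₗ a ∘ₗ LinearMap.fst A V₁ PUnit, b ∘ₗ LinearMap.fst A V₀ PUnit,
    k1, k2, inferInstanceAs (Module.Finite A PUnit), inferInstanceAs (Module.Finite A PUnit),
    h1, h0, ?_, ?_, ?_⟩
  · rintro ⟨x, u⟩ ⟨y, v⟩ hxy
    have h2 : a x = a y := congrArg Prod.fst hxy
    exact Prod.ext (k3 h2) (Subsingleton.elim _ _)
  · intro w
    obtain ⟨x, hx⟩ := k4 w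
    exact ⟨(x, 0), hx⟩
  · apply le_antisymm
    · rintro _ ⟨⟨x, u⟩, rfl⟩
      have h2 : a x ∈ LinearMap.ker b := k5 ▸ LinearMap.mem_range_self _ _
      exact LinearMap.mem_ker.1 h2
    · rintro ⟨y, u⟩ hy
      have h2 : y ∈ LinearMap.range a := by
        rw [k5]
        exact hy
      obtain ⟨x, hx⟩ := h2
      refine ⟨(x, 0), Prod.ext hx (Subsingleton.elim _ _)⟩

variable [HasExt.{1} (ModuleCat.{0} A)]

theorem proj_of_infD (K : Type) [Field K] [Algebra K A] [FiniteDimensional K A] {Z : ℕ → Type}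
    [∀ n, AddCommGroup (Z n)] [∀ n, Module A (Z n)]
    (hZ : ∀ n, Syz A (Z n) (Z (n + 1))) (h1 : EV A (Z 0) (Z 0)) (h2 : EV A (Z 0) A)
    (V : Type) [AddCommGroup V] [Module A V] (hV : Module.Finite A V)
    (h : {n | Module.Projective A (Z n) ∨ ∃ W W' : Submodule A (Z n), IsCompl W W' ∧
      ¬ Module.Projective A W ∧ PresR A V W (fun D => ∀ k, k ≤ n + 1 → StZ A D (Z k))
      (fun D => ∀ k, k ≤ n → StZ A D (Z k))}.Infinite) :
    Module.Projective A (Z 0) := by
  by_contra hcon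
  apply h
  refine (finite_goodD K hZ h1 h2 V hV).subset ?_
  rintro n (hn | hn)
  · exact absurd (proj_of_proj hZ h1 h2 n hn) hcon
  · exact hn

/-- the version for injective modules and torsionfree modules -/
theorem finite_tf (K : Type) [Field K] [Algebra K A] [FiniteDimensional K A] {Z : ℕ → Type}
    [∀ n, AddCommGroup (Z n)] [∀ n, Module A (Z n)]
    (hZ : ∀ n, Syz A (Z n) (Z (n + 1))) (h0 : Module.Injective A (Z 0)) (h2 : EV A (Z 0) A)
    (V : Type) [AddCommGroup V] [Module A V] (hV : Module.Finite A V) :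
    {n | ∃ W W' : Submodule A (Z n), IsCompl W W' ∧
      ¬ Module.Projective A W ∧ PresR A V W (TF A (n + 2)) (TF A (n + 1))}.Finite := by
  refine (finite_goodD K hZ (ev_of_injective h0) h2 V hV).subset ?_
  rintro n ⟨W, W', h3, h4, h5⟩
  refine ⟨W, W', h3, h4, h5.mono ?_ ?_⟩
  · intro D hD k hk
    exact stz_of_tf hZ h0 k D (hD.le (by omega))
  · intro D hD k hk
    exact stz_of_tf hZ h0 k D (hD.le (by omega))

theorem tf_punit (k : ℕ) : TF A k (ModuleCat.of A PUnit) := by
  induction k with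
  | zero => trivial
  | succ k ih =>
    refine ⟨ModuleCat.of A PUnit, ModuleCat.of A PUnit, LinearMap.id, LinearMap.id,
      inferInstanceAs (Module.Projective A PUnit), inferInstanceAs (Module.Finite A PUnit),
      Function.injective_id, Function.surjective_id, ?_, ?_, ih⟩
    · apply le_antisymm
      · intro x _
        exact Subsingleton.elim _ _
      · intro x _
        exact ⟨x, rfl⟩
    · exact ev_proj (A := A) (P := PUnit) (N := A) inferInstance 0

/-- `A` is a Lat-Igusa-Todorov algebra with respect to the torsionfree modules -/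
def IsLIT (A : Type) [Ring A] [HasExt.{1} (ModuleCat.{0} A)] : Prop :=
  ∃ (V : ModuleCat.{0} A) (n : ℕ), Module.Finite A V ∧ ∀ Z : ℕ → ModuleCat.{0} A,
    Module.Finite A (Z 0) → (∀ k, Syz A (Z k) (Z (k + 1))) →
    PresR A V (Z n) (fun D => ∀ k, TF A k D) (fun D => ∀ k, TF A k D)

theorem tc1_of_lit (K : Type) [Field K] [Algebra K A] [FiniteDimensional K A] (h : IsLIT A) :
    TC1 A := by
  have hArt : IsArtinianRing A := IsArtinianRing.of_finite K A
  refine tc1_of_dd K fun hT => ?_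
  obtain ⟨V, n, hV, hIT⟩ := h
  have hinj : Module.Injective A (DD K A) := dd_injective
  have hfin : Module.Finite A (DD K A) := dd_finite inferInstance
  obtain ⟨Z, hZ0, hZ⟩ := exists_res (A := A) (fun _ _ => True)
    (fun M hM => exists_syz K M hM) (ModuleCat.of A (DD K A)) hfin
  have hinj' : Module.Injective A (Z 0) := hZ0 ▸ hinj
  have hfin' : Module.Finite A (Z 0) := hZ0 ▸ hfin
  have hEA : EV A (Z 0) A := fun i hi => hT (Z 0) hinj' hfin' i hi
  have hfinZ : ∀ k, Module.Finite A (Z k) := by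
    intro k
    obtain ⟨P, i, p, hP, hPf, hi, hp, hip⟩ := (hZ k).2
    exact Module.Finite.of_surjective p hp
  have hprojZ : Module.Projective A (Z 0) := by
    refine proj_of_infD K (Z := fun n => Z n) (fun n => (hZ n).2) (ev_of_injective hinj') hEA V hV
      ((Set.Ici_infinite n).mono ?_)
    intro m hm
    obtain ⟨k, rfl⟩ : ∃ k, m = k + n := ⟨m - n, by have : n ≤ m := hm; omega⟩
    by_cases hp : Module.Projective A (Z (k + n))
    · exact Or.inl hp
    · refine Or.inr ⟨⊤, ⊥, isCompl_top_bot, fun hP => hp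
        (Module.Projective.of_equiv (Submodule.topEquiv (R := A) (M := Z (k + n)))), ?_⟩
      have h3 := hIT (fun j => Z (k + j)) (hfinZ k) fun j => (hZ (k + j)).2
      refine (PresR.congr (Submodule.topEquiv (R := A) (M := Z (k + n))).symm h3).mono ?_ ?_
      · intro D hD l _
        exact stz_of_tf (Z := fun n => Z n) (fun n => (hZ n).2) hinj' l D (hD (l + 1))
      · intro D hD l _
        exact stz_of_tf (Z := fun n => Z n) (fun n => (hZ n).2) hinj' l D (hD (l + 1))
  rw [hZ0] at hprojZ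
  exact hprojZ

end

end RGS
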