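import Pool.Agent.RGS.C6

/-!
# [RGS-C7] the first Tachikawa conjecture from a resolution of the dual
-/

set_option autoImplicit false

open CategoryTheory NTC

namespace RGS

section
variable {A : Type} [Ring A] [HasExt.{1} (ModuleCat.{0} A)]

/-- if infinitely many syzygies of `D(A)` are projective or have a non-projective summand which is
of finite type up to torsionfree modules, then the first Tachikawa conjecture holds for `A` -/
theorem tc1_of_inf (K : Type) [Field K] [Algebra K A] [FiniteDimensional K A] {Z : ℕ → Type}
    [∀ n, AddCommGroup (Z n)] [∀ n, Module A (Z n)]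
    (hZ : ∀ n, Syz A (Z n) (Z (n + 1))) (e : Z 0 ≃ₗ[A] DD K A) (hT : TVan A)
    (V : Type) [AddCommGroup V] [Module A V] (hV : Module.Finite A V)
    (h : {n | Module.Projective A (Z n) ∨ ∃ W W' : Submodule A (Z n), IsCompl W W' ∧
      ¬ Module.Projective A W ∧ PresR A V W (TF A (n + 2)) (TF A (n + 1))}.Infinite) :
    Module.Injective A A := by
  have hinj : Module.Injective A (DD K A) := dd_injective
  have hfin : Module.Finite A (DD K A) := dd_finite inferInstance
  have hinj' : Module.Injective A (Z 0) :=
    (InAdd.of_retract e.toLinearMap e.symm.toLinearMap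
      (LinearMap.ext fun x => e.symm_apply_apply x)).injective hinj
  have hfin' : Module.Finite A (Z 0) := Module.Finite.equiv e.symm
  have hEA : EV A (Z 0) A := fun i hi => hT (ModuleCat.of A (Z 0)) hinj' hfin' i hi
  have hP : Module.Projective A (Z 0) := by
    refine proj_of_infD K hZ (ev_of_injective hinj') hEA V hV (h.mono ?_)
    rintro n (hn | ⟨W, W', h3, h4, h5⟩)
    · exact Or.inl hn
    · refine Or.inr ⟨W, W', h3, h4, h5.mono ?_ ?_⟩
      · intro D hD k hk
        exact stz_of_tf hZ hinj' k D (hD.le (by omega))
      · intro D hD k hk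
        exact stz_of_tf hZ hinj' k D (hD.le (by omega))
  exact injective_of_dd (K := K) inferInstance (Module.Projective.of_equiv e)

end

end RGS
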