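import Pool.Agent.NTC.E4
import Pool.Agent.NTC.R2

/-!
# [RGS-D0] syzygies, cosyzygies, small summands: definitions (complete, no row)
-/

set_option autoImplicit false

open CategoryTheory

namespace RGS

/-- `L` is a syzygy of `M`: there is an exact sequence `0 → L → P → M → 0` with `P` finitely
generated projective -/
def Syz (A : Type) [Ring A] (M L : Type) [AddCommGroup M] [Module A M] [AddCommGroup L]
    [Module A L] : Prop :=
  ∃ (P : ModuleCat.{0} A) (i : L →ₗ[A] P) (p : P →ₗ[A] M), Module.Projective A P ∧
    Module.Finite A P ∧ Function.Injective i ∧ Function.Surjective p ∧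
    LinearMap.range i = LinearMap.ker p

/-- `N` is a cosyzygy of `M`: there is an exact sequence `0 → M → I → N → 0` with `I` finitely
generated injective -/
def Cosyz (A : Type) [Ring A] (M N : Type) [AddCommGroup M] [Module A M] [AddCommGroup N]
    [Module A N] : Prop :=
  ∃ (I : ModuleCat.{0} A) (i : M →ₗ[A] I) (p : I →ₗ[A] N), Module.Injective A I ∧
    Module.Finite A I ∧ Function.Injective i ∧ Function.Surjective p ∧
    LinearMap.range i = LinearMap.ker p

/-- `M` has a direct summand which is generated by at most `d` elements and is not projective -/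
def SmallNP (A : Type) [Ring A] (d : ℕ) (M : Type) [AddCommGroup M] [Module A M] : Prop :=
  ∃ W W' : Submodule A M, IsCompl W W' ∧ ¬ Module.Projective A W ∧
    ∃ f : (Fin d → A) →ₗ[A] W, Function.Surjective f

/-- `M` has a direct summand which is generated by at most `d` elements and is not injective -/
def SmallNI (A : Type) [Ring A] (d : ℕ) (M : Type) [AddCommGroup M] [Module A M] : Prop :=
  ∃ W W' : Submodule A M, IsCompl W W' ∧ ¬ Module.Injective A W ∧
    ∃ f : (Fin d → A) →ₗ[A] W, Function.Surjective f

end RGS
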