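import Mathlib

/-!
# [RGS-F1] polynomial functions on tuples of matrices
-/

set_option autoImplicit false

namespace RGS

/-- tuples of `d × d` matrices indexed by `ι` -/
abbrev Pt (K ι : Type) (d : ℕ) : Type := ι → Matrix (Fin d) (Fin d) K

variable {K ι : Type} [Field K] [Fintype ι] {d : ℕ}

variable (K ι d) in
/-- the polynomial functions on the space of tuples -/
def PF : Subalgebra K (Pt K ι d → K) :=
  Algebra.adjoin K (Set.range fun (p : ι × Fin d × Fin d) => fun y : Pt K ι d => y p.1 p.2.1 p.2.2)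

theorem pf_noeth : IsNoetherianRing (PF K ι d) := by
  have h1 : (PF K ι d).FG := by
    refine Subalgebra.fg_def.2 ⟨_, Set.finite_range _, rfl⟩
  have : Algebra.FiniteType K (PF K ι d) := (Subalgebra.fg_iff_finiteType _).1 h1
  exact Algebra.FiniteType.isNoetherianRing K (PF K ι d)

theorem pf_coord (k : ι) (i j : Fin d) : (fun y : Pt K ι d => y k i j) ∈ PF K ι d :=
  Algebra.subset_adjoin ⟨(k, i, j), rfl⟩

theorem pf_const (c : K) : (fun _ : Pt K ι d => c) ∈ PF K ι d :=
  (PF K ι d).algebraMap_mem c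

theorem pf_add {f g : Pt K ι d → K} (hf : f ∈ PF K ι d) (hg : g ∈ PF K ι d) :
    (fun y => f y + g y) ∈ PF K ι d := (PF K ι d).add_mem hf hg

theorem pf_sub {f g : Pt K ι d → K} (hf : f ∈ PF K ι d) (hg : g ∈ PF K ι d) :
    (fun y => f y - g y) ∈ PF K ι d := (PF K ι d).sub_mem hf hg

theorem pf_mul {f g : Pt K ι d → K} (hf : f ∈ PF K ι d) (hg : g ∈ PF K ι d) :
    (fun y => f y * g y) ∈ PF K ι d := (PF K ι d).mul_mem hf hg

theorem pf_sum {J : Type} (s : Finset J) (f : J → Pt K ι d → K) (hf : ∀ j ∈ s, f j ∈ PF K ι d) :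
    (fun y => ∑ j ∈ s, f j y) ∈ PF K ι d := by
  have : (fun y => ∑ j ∈ s, f j y) = ∑ j ∈ s, f j := by
    funext y
    rw [Finset.sum_apply]
  rw [this]
  exact (PF K ι d).sum_mem hf

theorem pf_det {n : Type} [Fintype n] [DecidableEq n] (M : Pt K ι d → Matrix n n K)
    (h : ∀ i j, (fun y => M y i j) ∈ PF K ι d) : (fun y => (M y).det) ∈ PF K ι d := by
  have : (fun y => (M y).det) = ∑ σ : Equiv.Perm n, (Equiv.Perm.sign σ) •
      ∏ i, (fun y => M y (σ i) i) := by
    funext y
    rw [Matrix.det_apply, Finset.sum_apply]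
    refine Finset.sum_congr rfl fun σ _ => ?_
    rw [Pi.smul_apply, Finset.prod_apply]
  rw [this]
  refine (PF K ι d).sum_mem fun σ _ => ?_
  have h2 : (∏ i, (fun y => M y (σ i) i)) ∈ PF K ι d := (PF K ι d).prod_mem fun i _ => h _ _
  rw [Units.smul_def]
  exact (PF K ι d).zsmul_mem h2 _

theorem pf_adj {n : Type} [Fintype n] [DecidableEq n] (M : Pt K ι d → Matrix n n K)
    (h : ∀ i j, (fun y => M y i j) ∈ PF K ι d) (i j : n) :
    (fun y => (M y).adjugate i j) ∈ PF K ι d := by
  have : (fun y => (M y).adjugate i j) = fun y => ((M y).updateRow j (Pi.single i 1)).det := by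
    funext y
    rw [Matrix.adjugate_apply]
  rw [this]
  refine pf_det _ fun a b => ?_
  by_cases hab : a = j
  · have h2 : (fun y => (M y).updateRow j (Pi.single i 1) a b) =
        fun _ => (Pi.single i 1 : n → K) b := by
      funext y
      rw [hab, Matrix.updateRow_self]
    rw [h2]
    exact pf_const _
  · have h2 : (fun y => (M y).updateRow j (Pi.single i 1) a b) = fun y => M y a b := by
      funext y
      rw [Matrix.updateRow_ne hab]
    rw [h2]
    exact h a b

end RGS
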