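import Mathlib

/-!
# [RGS-F2] linear algebra
-/

set_option autoImplicit false

namespace RGS

variable {K : Type} [Field K] {C0 C1 C2 : Type} [AddCommGroup C0] [Module K C0]
  [AddCommGroup C1] [Module K C1] [AddCommGroup C2] [Module K C2]

/-- a complex which is exact in the middle has a homotopy there -/
theorem la1 (L : C0 →ₗ[K] C1) (D : C1 →ₗ[K] C2) (h : LinearMap.ker D ≤ LinearMap.range L) :
    ∃ (s : C1 →ₗ[K] C0) (t : C2 →ₗ[K] C1), L ∘ₗ s + t ∘ₗ D = LinearMap.id := by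
  obtain ⟨W, hW⟩ := Submodule.exists_isCompl (LinearMap.ker D)
  have h1 : LinearMap.ker (D ∘ₗ W.subtype) = ⊥ := by
    rw [LinearMap.ker_eq_bot']
    intro w hw
    have h2 : (w : C1) ∈ LinearMap.ker D ⊓ W := ⟨hw, w.2⟩
    rw [hW.inf_eq_bot] at h2
    exact Subtype.ext ((Submodule.mem_bot K).1 h2)
  obtain ⟨g, hg⟩ := LinearMap.exists_leftInverse_of_injective (D ∘ₗ W.subtype) h1
  let t : C2 →ₗ[K] C1 := W.subtype ∘ₗ g
  have ht : ∀ c, D (c - t (D c)) = 0 := by
    intro c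
    obtain ⟨k, hk, w, hw, rfl⟩ : ∃ k ∈ LinearMap.ker D, ∃ w ∈ W, k + w = c := by
      have : c ∈ LinearMap.ker D ⊔ W := by rw [hW.sup_eq_top]; trivial
      exact Submodule.mem_sup.1 this
    have h3 : D (k + w) = (D ∘ₗ W.subtype) ⟨w, hw⟩ := by
      rw [map_add, LinearMap.mem_ker.1 hk, zero_add]
      rfl
    have h4 : g (D (k + w)) = ⟨w, hw⟩ := by
      rw [h3]
      exact LinearMap.congr_fun hg ⟨w, hw⟩
    have h5 : t (D (k + w)) = w := by
      show ((g (D (k + w)) : W) : C1) = w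
      rw [h4]
    rw [h5, add_sub_cancel_right]
    exact hk
  let q : C1 →ₗ[K] LinearMap.range L :=
    (LinearMap.id - t ∘ₗ D).codRestrict (LinearMap.range L) fun c => h (LinearMap.mem_ker.2 (ht c))
  obtain ⟨τ, hτ⟩ := L.rangeRestrict.exists_rightInverse_of_surjective (LinearMap.range_rangeRestrict L)
  refine ⟨τ ∘ₗ q, t, LinearMap.ext fun c => ?_⟩
  have h6 : L (τ (q c)) = (q c : C1) := congrArg Subtype.val (LinearMap.congr_fun hτ (q c))
  show L (τ (q c)) + t (D c) = c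
  rw [h6]
  show (c - t (D c)) + t (D c) = c
  rw [sub_add_cancel]

/-- perturbation of the homotopy -/
theorem la2 [FiniteDimensional K C1] (L : C0 →ₗ[K] C1) (D : C1 →ₗ[K] C2) (s : C1 →ₗ[K] C0)
    (t : C2 →ₗ[K] C1) (hDL : ∀ x, D (L x) = 0) (g : C1 →ₗ[K] C1)
    (hg : g ∘ₗ (L ∘ₗ s + t ∘ₗ D) = LinearMap.id) (x : C0) : L (x - s (g (L x))) = 0 := by
  have e1 : ∀ c, g (L (s c) + t (D c)) = c := fun c => LinearMap.congr_fun hg c
  have hinj : Function.Injective (L ∘ₗ s + t ∘ₗ D) :=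
    Function.LeftInverse.injective (g := g) e1
  have e2 : ∀ y, (L ∘ₗ s + t ∘ₗ D) (L y) = L (s (L y)) := by
    intro y
    show L (s (L y)) + t (D (L y)) = L (s (L y))
    rw [hDL, map_zero, add_zero]
  have hmap : ∀ c ∈ LinearMap.range L, (L ∘ₗ s + t ∘ₗ D) c ∈ LinearMap.range L := by
    rintro _ ⟨y, rfl⟩
    rw [e2]
    exact ⟨_, rfl⟩
  let hh : LinearMap.range L →ₗ[K] LinearMap.range L := (L ∘ₗ s + t ∘ₗ D).restrict hmap
  have hhinj : Function.Injective hh := by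
    intro a b hab
    exact Subtype.ext (hinj (congrArg Subtype.val hab))
  have hsurj : Function.Surjective hh := LinearMap.injective_iff_surjective.1 hhinj
  obtain ⟨⟨u, w, rfl⟩, hu⟩ := hsurj ⟨L x, x, rfl⟩
  have hu' : (L ∘ₗ s + t ∘ₗ D) (L w) = L x := congrArg Subtype.val hu
  have h1 : g (L x) = L w := by
    rw [← hu']
    exact e1 (L w)
  rw [map_sub, h1, ← e2, hu', sub_self]

end RGS
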