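import Pool.Agent.RGS.F1
import Pool.Agent.RGS.F2

/-!
# [RGS-F3] a rigid point has an open orbit
-/

set_option autoImplicit false

namespace RGS

variable {K ι : Type} [Field K] [Fintype ι] [DecidableEq ι] {d : ℕ}

/-- `y` is a representation of the algebra with structure constants `m` -/
def IsMod (m : ι → ι → ι → K) (y : Pt K ι d) : Prop :=
  ∀ k l, y k * y l = ∑ n, m k l n • y n

/-- all derivations are inner -/
def Rig (m : ι → ι → ι → K) (x : Pt K ι d) : Prop :=
  ∀ c : Pt K ι d, (∀ k l, x k * c l - ∑ n, m k l n • c n + c k * x l = 0) →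
    ∃ T : Matrix (Fin d) (Fin d) K, ∀ k, x k * T - T * x k = c k

/-- isomorphic representations -/
def IsoPt (x y : Pt K ι d) : Prop :=
  ∃ T : Matrix (Fin d) (Fin d) K, IsUnit T.det ∧ ∀ k, y k * T = T * x k

/-- the first map of the complex -/
def Lm (y x : Pt K ι d) : Matrix (Fin d) (Fin d) K →ₗ[K] (ι → Matrix (Fin d) (Fin d) K) where
  toFun T k := y k * T - T * x k
  map_add' T T' := by
    funext k
    simp only [Pi.add_apply, mul_add, add_mul]
    abel
  map_smul' c T := by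
    funext k
    simp only [Pi.smul_apply, RingHom.id_apply, Matrix.mul_smul, Matrix.smul_mul, smul_sub]

/-- the second map of the complex -/
def Dm (m : ι → ι → ι → K) (y x : Pt K ι d) :
    (ι → Matrix (Fin d) (Fin d) K) →ₗ[K] (ι → ι → Matrix (Fin d) (Fin d) K) where
  toFun c k l := y k * c l - ∑ n, m k l n • c n + c k * x l
  map_add' c c' := by
    funext k l
    simp only [Pi.add_apply, mul_add, add_mul, smul_add, Finset.sum_add_distrib]
    abel
  map_smul' a c := by
    funext k l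
    simp only [Pi.smul_apply, RingHom.id_apply, Matrix.mul_smul, Matrix.smul_mul, smul_sub,
      smul_add, Finset.smul_sum]
    congr 2
    refine Finset.sum_congr rfl fun n _ => ?_
    rw [smul_comm]

theorem Dm_Lm (m : ι → ι → ι → K) {y x : Pt K ι d} (hy : IsMod m y) (hx : IsMod m x)
    (T : Matrix (Fin d) (Fin d) K) : Dm m y x (Lm y x T) = 0 := by
  funext k l
  show y k * (y l * T - T * x l) - ∑ n, m k l n • (y n * T - T * x n) +
    (y k * T - T * x k) * x l = 0
  have h1 : ∑ n, m k l n • (y n * T - T * x n) = (y k * y l) * T - T * (x k * x l) := by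
    rw [hy k l, hx k l, Finset.sum_mul, Finset.mul_sum, ← Finset.sum_sub_distrib]
    refine Finset.sum_congr rfl fun n _ => ?_
    rw [smul_sub, Matrix.smul_mul, Matrix.mul_smul]
  rw [h1, mul_sub, sub_mul]
  simp only [mul_assoc]
  abel

/-- coordinates on `ι → Mat` -/
def e1 : (ι → Matrix (Fin d) (Fin d) K) ≃ₗ[K] (ι × Fin d × Fin d → K) where
  toFun c p := c p.1 p.2.1 p.2.2
  invFun w k := Matrix.of fun i j => w (k, i, j)
  left_inv c := rfl
  right_inv w := rfl
  map_add' c c' := rfl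
  map_smul' a c := rfl

/-- coordinates on `ι → ι → Mat` -/
def e2 : (ι → ι → Matrix (Fin d) (Fin d) K) ≃ₗ[K] (ι × ι × Fin d × Fin d → K) where
  toFun c p := c p.1 p.2.1 p.2.2.1 p.2.2.2
  invFun w k l := Matrix.of fun i j => w (k, l, i, j)
  left_inv c := rfl
  right_inv w := rfl
  map_add' c c' := rfl
  map_smul' a c := rfl

theorem pf_lin {τ C : Type} [Fintype τ] [DecidableEq τ] [AddCommGroup C] [Module K C]
    (e : C ≃ₗ[K] (τ → K)) (φ : C →ₗ[K] K) (v : Pt K ι d → C)
    (h : ∀ p, (fun y => e (v y) p) ∈ PF K ι d) : (fun y => φ (v y)) ∈ PF K ι d := by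
  have h1 : (fun y => φ (v y)) = fun y => ∑ i, e (v y) i *
      (φ ∘ₗ e.symm.toLinearMap) (fun j => if i = j then 1 else 0) := by
    funext y
    have h2 := LinearMap.pi_apply_eq_sum_univ (φ ∘ₗ e.symm.toLinearMap) (e (v y))
    have h3 : (φ ∘ₗ e.symm.toLinearMap) (e (v y)) = φ (v y) := by
      show φ (e.symm (e (v y))) = φ (v y)
      rw [e.symm_apply_apply]
    rw [← h3, h2]
    rfl
  rw [h1]
  exact pf_sum _ _ fun i _ => pf_mul (h i) (pf_const _)

theorem pf_mulT (T : Matrix (Fin d) (Fin d) K) (k : ι) (i j : Fin d) :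
    (fun y : Pt K ι d => (y k * T) i j) ∈ PF K ι d := by
  have h : (fun y : Pt K ι d => (y k * T) i j) = fun y => ∑ a, y k i a * T a j := by
    funext y
    rw [Matrix.mul_apply]
  rw [h]
  exact pf_sum _ _ fun a _ => pf_mul (pf_coord k i a) (pf_const _)

theorem pf_Lm (x : Pt K ι d) (T : Matrix (Fin d) (Fin d) K) (p : ι × Fin d × Fin d) :
    (fun y : Pt K ι d => e1 (Lm y x T) p) ∈ PF K ι d := by
  have h : (fun y : Pt K ι d => e1 (Lm y x T) p) =
      fun y => (y p.1 * T) p.2.1 p.2.2 - (T * x p.1) p.2.1 p.2.2 := rfl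
  rw [h]
  exact pf_sub (pf_mulT T _ _ _) (pf_const _)

theorem pf_Dm (m : ι → ι → ι → K) (x : Pt K ι d) (c : ι → Matrix (Fin d) (Fin d) K)
    (p : ι × ι × Fin d × Fin d) :
    (fun y : Pt K ι d => e2 (Dm m y x c) p) ∈ PF K ι d := by
  have h : (fun y : Pt K ι d => e2 (Dm m y x c) p) =
      fun y => ((y p.1 * c p.2.1) p.2.2.1 p.2.2.2 -
        (∑ n, m p.1 p.2.1 n • c n) p.2.2.1 p.2.2.2) + (c p.1 * x p.2.1) p.2.2.1 p.2.2.2 := rfl
  rw [h]
  exact pf_add (pf_sub (pf_mulT _ _ _ _) (pf_const _)) (pf_const _)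

section
variable (m : ι → ι → ι → K) (x : Pt K ι d)
  (s : (ι → Matrix (Fin d) (Fin d) K) →ₗ[K] Matrix (Fin d) (Fin d) K)
  (t : (ι → ι → Matrix (Fin d) (Fin d) K) →ₗ[K] (ι → Matrix (Fin d) (Fin d) K))

/-- the perturbed homotopy -/
def hm (y : Pt K ι d) : (ι → Matrix (Fin d) (Fin d) K) →ₗ[K] (ι → Matrix (Fin d) (Fin d) K) :=
  Lm y x ∘ₗ s + t ∘ₗ Dm m y x

/-- its matrix -/
def Hm (y : Pt K ι d) : Matrix (ι × Fin d × Fin d) (ι × Fin d × Fin d) K :=
  LinearMap.toMatrix' (e1.toLinearMap ∘ₗ hm m x s t y ∘ₗ (e1 (K := K) (ι := ι) (d := d)).symm.toLinearMap)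

theorem pf_Hm (p q : ι × Fin d × Fin d) : (fun y => Hm m x s t y p q) ∈ PF K ι d := by
  let c : ι → Matrix (Fin d) (Fin d) K := e1.symm (Pi.single q 1)
  have h : (fun y => Hm m x s t y p q) =
      fun y => e1 (Lm y x (s c)) p + e1 (t (Dm m y x c)) p := by
    funext y
    show LinearMap.toMatrix' _ p q = _
    rw [LinearMap.toMatrix'_apply]
    have h2 : (fun j' : ι × Fin d × Fin d => if j' = q then (1 : K) else 0) = Pi.single q 1 := by
      funext j'
      rw [Pi.single_apply]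
    first
      | rfl
      | (rw [h2]; rfl)
  rw [h]
  refine pf_add (pf_Lm x _ p) ?_
  let φ : (ι → ι → Matrix (Fin d) (Fin d) K) →ₗ[K] K :=
    (LinearMap.proj p) ∘ₗ e1.toLinearMap ∘ₗ t
  exact pf_lin e2 φ (fun y => Dm m y x c) fun r => pf_Dm m x c r

/-- the adjugate as a linear map -/
def gm (y : Pt K ι d) : (ι → Matrix (Fin d) (Fin d) K) →ₗ[K] (ι → Matrix (Fin d) (Fin d) K) :=
  e1.symm.toLinearMap ∘ₗ Matrix.toLin' (Hm m x s t y).adjugate ∘ₗ e1.toLinearMap

theorem gm_hm (y : Pt K ι d) (c : ι → Matrix (Fin d) (Fin d) K) :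
    gm m x s t y (hm m x s t y c) = (Hm m x s t y).det • c := by
  have h1 : e1 (hm m x s t y c) = Matrix.toLin' (Hm m x s t y) (e1 c) := by
    rw [Hm, Matrix.toLin'_toMatrix']
    show _ = e1 (hm m x s t y (e1.symm (e1 c)))
    rw [LinearEquiv.symm_apply_apply]
  show e1.symm (Matrix.toLin' (Hm m x s t y).adjugate (e1 (hm m x s t y c))) = _
  rw [h1, ← LinearMap.comp_apply, ← Matrix.toLin'_mul, Matrix.adjugate_mul]
  rw [map_smul, LinearMap.smul_apply, Matrix.toLin'_one, LinearMap.id_apply, map_smul,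
    LinearEquiv.symm_apply_apply]

/-- the family of homomorphisms -/
def Tm (y : Pt K ι d) : Matrix (Fin d) (Fin d) K :=
  (Hm m x s t y).det • (1 : Matrix (Fin d) (Fin d) K) - s (gm m x s t y (Lm y x 1))

theorem pf_Tm (i j : Fin d) : (fun y => Tm m x s t y i j) ∈ PF K ι d := by
  have h : (fun y => Tm m x s t y i j) = fun y =>
      (Hm m x s t y).det * (1 : Matrix (Fin d) (Fin d) K) i j -
        s (gm m x s t y (Lm y x 1)) i j := rfl
  rw [h]
  refine pf_sub (pf_mul (pf_det _ (pf_Hm m x s t)) (pf_const _)) ?_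
  let φ : (ι → Matrix (Fin d) (Fin d) K) →ₗ[K] K :=
    { toFun := fun c => s c i j
      map_add' := fun c c' => by rw [map_add]; rfl
      map_smul' := fun a c => by rw [map_smul]; rfl }
  refine pf_lin e1 φ (fun y => gm m x s t y (Lm y x 1)) fun p => ?_
  have h2 : (fun y => e1 (gm m x s t y (Lm y x 1)) p) = fun y =>
      ∑ q, (Hm m x s t y).adjugate p q * e1 (Lm y x 1) q := by
    funext y
    show e1 (e1.symm (Matrix.toLin' (Hm m x s t y).adjugate (e1 (Lm y x 1)))) p = _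
    rw [LinearEquiv.apply_symm_apply]
    rfl
  show (fun y => e1 (gm m x s t y (Lm y x 1)) p) ∈ PF K ι d
  rw [h2]
  exact pf_sum _ _ fun q _ => pf_mul (pf_adj _ (pf_Hm m x s t) _ _) (pf_Lm x 1 q)

theorem Tm_hom (hx : IsMod m x) {y : Pt K ι d} (hy : IsMod m y) (h : (Hm m x s t y).det ≠ 0)
    (k : ι) : y k * Tm m x s t y = Tm m x s t y * x k := by
  have h1 := la2 (Lm y x) (Dm m y x) s t (Dm_Lm m hy hx) ((Hm m x s t y).det⁻¹ • gm m x s t y)
    (by
      refine LinearMap.ext fun c => ?_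
      show (Hm m x s t y).det⁻¹ • gm m x s t y (hm m x s t y c) = c
      rw [gm_hm, smul_smul, inv_mul_cancel₀ h, one_smul]) 1
  have h2 : Lm y x (Tm m x s t y) = 0 := by
    have h3 : Tm m x s t y = (Hm m x s t y).det •
        ((1 : Matrix (Fin d) (Fin d) K) - s (((Hm m x s t y).det⁻¹ • gm m x s t y) (Lm y x 1))) := by
      rw [smul_sub, LinearMap.smul_apply, map_smul, smul_smul, mul_inv_cancel₀ h, one_smul]
      rfl
    rw [h3, map_smul, h1, smul_zero]
  have h4 := congrFun h2 k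
  exact sub_eq_zero.1 h4

theorem Hm_self (h : ∀ c, Lm x x (s c) + t (Dm m x x c) = c) : Hm m x s t x = 1 := by
  have h1 : hm m x s t x = LinearMap.id := LinearMap.ext h
  rw [Hm, h1]
  have h2 : (e1.toLinearMap ∘ₗ LinearMap.id ∘ₗ (e1 (K := K) (ι := ι) (d := d)).symm.toLinearMap) =
      LinearMap.id := by
    refine LinearMap.ext fun c => ?_
    rfl
  rw [h2, LinearMap.toMatrix'_id]

theorem Tm_self (h : ∀ c, Lm x x (s c) + t (Dm m x x c) = c) : Tm m x s t x = 1 := by
  have h1 : Lm x x (1 : Matrix (Fin d) (Fin d) K) = 0 := by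
    funext k
    show x k * 1 - 1 * x k = 0
    rw [mul_one, one_mul, sub_self]
  rw [Tm, Hm_self m x s t h, h1, map_zero, map_zero, Matrix.det_one, one_smul, sub_zero]

end

/-- a rigid point has an open orbit, given by a polynomial inequality -/
theorem exists_F (m : ι → ι → ι → K) {x : Pt K ι d} (hx : IsMod m x) (hr : Rig m x) :
    ∃ F ∈ PF K ι d, F x ≠ 0 ∧ ∀ y, IsMod m y → F y ≠ 0 → IsoPt x y := by
  obtain ⟨s, t, hst⟩ := la1 (Lm x x) (Dm m x x) (by
    intro c hc
    obtain ⟨T, hT⟩ := hr c fun k l => congrFun (congrFun (LinearMap.mem_ker.1 hc) k) l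
    exact ⟨T, funext hT⟩)
  have hst' : ∀ c, Lm x x (s c) + t (Dm m x x c) = c := fun c => LinearMap.congr_fun hst c
  refine ⟨fun y => (Hm m x s t y).det * (Tm m x s t y).det,
    pf_mul (pf_det _ (pf_Hm m x s t)) (pf_det _ (pf_Tm m x s t)), ?_, ?_⟩
  · show (Hm m x s t x).det * (Tm m x s t x).det ≠ 0
    rw [Hm_self m x s t hst', Tm_self m x s t hst', Matrix.det_one, Matrix.det_one, one_mul]
    exact one_ne_zero
  · intro y hy hF
    have h1 : (Hm m x s t y).det ≠ 0 := fun h => hF (by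
      show (Hm m x s t y).det * (Tm m x s t y).det = 0
      rw [h, zero_mul])
    have h2 : (Tm m x s t y).det ≠ 0 := fun h => hF (by
      show (Hm m x s t y).det * (Tm m x s t y).det = 0
      rw [h, mul_zero])
    exact ⟨Tm m x s t y, isUnit_iff_ne_zero.2 h2, Tm_hom m x s t hx hy h1⟩

/-- finitely many rigid points up to isomorphism -/
theorem fin_pts (m : ι → ι → ι → K) : ∃ S : Set (Pt K ι d), S.Finite ∧
    (∀ z ∈ S, IsMod m z) ∧ ∀ x, IsMod m x → Rig m x → ∃ z ∈ S, IsoPt z x := by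
  classical
  let X : Set (Pt K ι d) := {x | IsMod m x ∧ Rig m x}
  choose! F hF1 hF2 hF3 using fun (x : Pt K ι d) (hx : x ∈ X) => exists_F m hx.1 hx.2
  have hN : IsNoetherianRing (PF K ι d) := pf_noeth
  let G : Set (PF K ι d) := {g | ∃ x, ∃ hx : x ∈ X, g = ⟨F x, hF1 x hx⟩}
  have hfg : (Submodule.span (PF K ι d) G).FG := IsNoetherian.noetherian _
  obtain ⟨s', hs', hspan⟩ := (Submodule.fg_span_iff_fg_span_finset_subset G).1 hfg
  have hch : ∀ g : s', ∃ x, ∃ hx : x ∈ X, (g : PF K ι d) = ⟨F x, hF1 x hx⟩ := fun g => hs' g.2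
  choose ξ hξX hξ using hch
  refine ⟨Set.range ξ, Set.finite_range ξ, ?_, ?_⟩
  · rintro _ ⟨g, rfl⟩
    exact (hξX g).1
  · intro x hx hr
    have hxX : x ∈ X := ⟨hx, hr⟩
    by_contra hcon
    push Not at hcon
    have hvan : ∀ g : PF K ι d, g ∈ Submodule.span (PF K ι d) (s' : Set (PF K ι d)) →
        (g : Pt K ι d → K) x = 0 := by
      intro g hg
      induction hg using Submodule.span_induction with
      | mem g hg =>
        have h1 := hξ ⟨g, hg⟩
        have h2 : (g : Pt K ι d → K) = F (ξ ⟨g, hg⟩) := congrArg Subtype.val h1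
        by_contra hne
        rw [h2] at hne
        exact hcon _ ⟨_, rfl⟩ (hF3 _ (hξX ⟨g, hg⟩) x hx hne)
      | zero => rfl
      | add a b _ _ ha hb =>
        show (a : Pt K ι d → K) x + (b : Pt K ι d → K) x = 0
        rw [ha, hb, add_zero]
      | smul a b _ hb =>
        show (a : Pt K ι d → K) x * (b : Pt K ι d → K) x = 0
        rw [hb, mul_zero]
    have hmem : (⟨F x, hF1 x hxX⟩ : PF K ι d) ∈
        Submodule.span (PF K ι d) (s' : Set (PF K ι d)) := by
      rw [← hspan]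
      exact Submodule.subset_span ⟨x, hxX, rfl⟩
    exact hF2 x hxX (hvan _ hmem)

end RGS
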