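import Pool.Agent.RGS.M2

/-!
# [RGS-M3] finitely many modules without self-extensions of bounded dimension
-/

set_option autoImplicit false

open CategoryTheory NTC

namespace RGS

variable {K A : Type} [Field K] [Ring A] [Algebra K A] [FiniteDimensional K A]

theorem isoPt_trans {ι : Type} {d : ℕ} {x y z : Pt K ι d} (h1 : IsoPt x y) (h2 : IsoPt x z) :
    IsoPt y z := by
  obtain ⟨T, hT, h⟩ := h1
  obtain ⟨S, hS, h'⟩ := h2
  refine ⟨S * T⁻¹, ?_, fun k => ?_⟩
  · rw [Matrix.det_mul]
    exact hS.mul (Matrix.isUnit_nonsing_inv_det T hT)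
  · have h3 : T⁻¹ * y k = x k * T⁻¹ := by
      have h4 : T⁻¹ * (y k * T) * T⁻¹ = T⁻¹ * (T * x k) * T⁻¹ := by rw [h k]
      rw [Matrix.nonsing_inv_mul_cancel_left _ _ hT, mul_assoc,
        Matrix.mul_nonsing_inv_cancel_right _ _ hT] at h4
      exact h4
    rw [← mul_assoc, h' k, mul_assoc, ← h3, mul_assoc]

/-- an infinite family of modules without self-extensions which are generated by at most `d`
elements contains two isomorphic members -/
theorem pigeon (K : Type) {A : Type} [Field K] [Ring A] [Algebra K A] [FiniteDimensional K A]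
    [HasExt.{1} (ModuleCat.{0} A)] (d : ℕ) {J : Set ℕ} (hJ : J.Infinite)
    (W : ℕ → Type) [∀ n, AddCommGroup (W n)] [∀ n, Module A (W n)]
    (hr : ∀ n ∈ J, Ev A (W n) (W n) 1)
    (hf : ∀ n ∈ J, ∃ f : (Fin d → A) →ₗ[A] W n, Function.Surjective f) :
    ∃ i ∈ J, ∃ j ∈ J, i < j ∧ Nonempty (W i ≃ₗ[A] W j) := by
  classical
  let _i1 : ∀ n, Module K (W n) := fun n => Module.compHom (W n) (algebraMap K A)
  have _i2 : ∀ n, IsScalarTower K A (W n) := fun n => by
    refine ⟨fun c a m => ?_⟩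
    change (c • a) • m = (algebraMap K A c) • (a • m)
    rw [Algebra.smul_def, mul_smul]
  have hfd : ∀ n ∈ J, Module.Finite K (W n) := fun n hn => by
    obtain ⟨f, hf⟩ := hf n hn
    exact Module.Finite.of_surjective (f.restrictScalars K) hf
  have hrk : ∀ n ∈ J, Module.finrank K (W n) ≤ d * Module.finrank K A := fun n hn => by
    obtain ⟨f, hf⟩ := hf n hn
    have h1 := LinearMap.finrank_le_finrank_of_surjective (f := f.restrictScalars K) hf
    rw [Module.finrank_pi_fintype, Finset.sum_const, Finset.card_univ, Fintype.card_fin,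
      smul_eq_mul] at h1
    exact h1
  choose S hSfin hSmod hS using fun d' : ℕ => fin_pts (K := K) (d := d') (sc K A)
  let N := d * Module.finrank K A
  let C : Type := (Σ d' : Fin (N + 1), S d')
  have : ∀ d' : Fin (N + 1), Finite (S d') := fun d' => (hSfin d').to_subtype
  have hfin : Finite C := inferInstance
  have hcl : ∀ n : J, ∃ c : C, ∃ h : Module.finrank K (W n) = c.1,
      ∃ e : W n ≃ₗ[K] (Fin (c.1 : ℕ) → K), IsoPt (c.2 : Pt K _ _) (pt A e) := by
    rintro ⟨n, hn⟩
    have := hfd n hn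
    let e : W n ≃ₗ[K] (Fin (Module.finrank K (W n)) → K) :=
      (Module.finBasis K (W n)).equivFun
    obtain ⟨z, hz, hiso⟩ := hS _ (pt A e) (isMod_pt e) (rig_pt (hr n hn) e)
    exact ⟨⟨⟨Module.finrank K (W n), Nat.lt_succ_of_le (hrk n hn)⟩, ⟨z, hz⟩⟩, rfl, e, hiso⟩
  choose φ hφ1 hφ2 hφ3 using hcl
  have hJi : Infinite J := hJ.to_subtype
  obtain ⟨a, b, hab, hφab⟩ := Finite.exists_ne_map_eq_of_infinite φ
  have key : ∀ a b : J, φ a = φ b → Nonempty (W a ≃ₗ[A] W b) := by
    intro a b h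
    have h2 := hφ3 a
    have h3 := hφ3 b
    generalize_proofs at h2 h3
    revert h2 h3
    generalize hφ2 a = ea
    generalize hφ2 b = eb
    revert ea eb
    rw [h]
    intro ea eb h2 h3
    exact iso_of_isoPt ea eb (isoPt_trans h2 h3)
  rcases lt_or_gt_of_ne (fun h => hab (Subtype.ext h) : (a : ℕ) ≠ b) with h | h
  · exact ⟨a, a.2, b, b.2, h, key a b hφab⟩
  · exact ⟨b, b.2, a, a.2, h, key b a hφab.symm⟩

end RGS
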