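import Pool.Agent.RGS.H1
import Pool.Agent.RGS.M3

/-!
# [RGS-Fin] small summands of syzygies
-/

set_option autoImplicit false

open CategoryTheory NTC

namespace RGS

variable {A : Type} [Ring A] [HasExt.{1} (ModuleCat.{0} A)]

/-- the syzygies of a module `M` with `Ext^i(M, M) = 0 = Ext^i(M, A)` for `i ≥ 1` have small
non-projective direct summands only finitely often -/
theorem finite_np (K : Type) [Field K] [Algebra K A] [FiniteDimensional K A]
    {Z : ℕ → Type} [∀ n, AddCommGroup (Z n)] [∀ n, Module A (Z n)]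
    (hZ : ∀ n, Syz A (Z n) (Z (n + 1))) (h1 : EV A (Z 0) (Z 0)) (h2 : EV A (Z 0) A) (d : ℕ) :
    {n | SmallNP A d (Z n)}.Finite := by
  classical
  by_contra hinf
  have hinf' : {n | SmallNP A d (Z n)}.Infinite := hinf
  choose! W W' hc hnp hg using fun (n : ℕ) (hn : n ∈ {n | SmallNP A d (Z n)}) => hn
  have hret : ∀ n ∈ {n | SmallNP A d (Z n)}, ∃ r : Z n →ₗ[A] W n,
      r ∘ₗ (W n).subtype = LinearMap.id := by
    intro n hn
    refine ⟨Submodule.projectionOnto (W n) (W' n) (hc n hn), ?_⟩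
    exact Submodule.projectionOnto_comp_subtype (hc n hn)
  have hadd : ∀ n ∈ {n | SmallNP A d (Z n)}, InAdd A (W n) (Z n) := by
    intro n hn
    obtain ⟨r, hr⟩ := hret n hn
    exact InAdd.of_retract _ r hr
  have hrig : ∀ n ∈ {n | SmallNP A d (Z n)}, Ev A (W n) (W n) 1 := by
    intro n hn
    exact (((syz_ev_all hZ h1 h2 n).1.add_left (hadd n hn)).add_right (hadd n hn)) 1 le_rfl
  obtain ⟨i, hi, j, hj, hij, ⟨e⟩⟩ := pigeon K d hinf' (fun n => W n) hrig hg
  obtain ⟨r, hr⟩ := hret j hj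
  exact hnp j hj (key hZ h1 h2 hij ((InAdd.of_equiv e.symm).trans (hadd i hi)) (W j).subtype r hr)

/-- the cosyzygies of a module `M` with `Ext^i(M, M) = 0 = Ext^i(I, M)` for `i ≥ 1`, `I` injective,
have small non-injective direct summands only finitely often -/
theorem finite_ni (K : Type) [Field K] [Algebra K A] [FiniteDimensional K A]
    {Z : ℕ → Type} [∀ n, AddCommGroup (Z n)] [∀ n, Module A (Z n)]
    (hZ : ∀ n, Cosyz A (Z n) (Z (n + 1))) (h1 : EV A (Z 0) (Z 0))
    (h2 : ∀ (I : Type) [AddCommGroup I] [Module A I], Module.Injective A I → Module.Finite A I →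
      EV A I (Z 0)) (d : ℕ) :
    {n | SmallNI A d (Z n)}.Finite := by
  classical
  by_contra hinf
  have hinf' : {n | SmallNI A d (Z n)}.Infinite := hinf
  choose! W W' hc hnp hg using fun (n : ℕ) (hn : n ∈ {n | SmallNI A d (Z n)}) => hn
  have hret : ∀ n ∈ {n | SmallNI A d (Z n)}, ∃ r : Z n →ₗ[A] W n,
      r ∘ₗ (W n).subtype = LinearMap.id := by
    intro n hn
    refine ⟨Submodule.projectionOnto (W n) (W' n) (hc n hn), ?_⟩
    exact Submodule.projectionOnto_comp_subtype (hc n hn)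
  have hadd : ∀ n ∈ {n | SmallNI A d (Z n)}, InAdd A (W n) (Z n) := by
    intro n hn
    obtain ⟨r, hr⟩ := hret n hn
    exact InAdd.of_retract _ r hr
  have hrig : ∀ n ∈ {n | SmallNI A d (Z n)}, Ev A (W n) (W n) 1 := by
    intro n hn
    exact (((cosyz_ev_all hZ h1 h2 n).1.add_left (hadd n hn)).add_right (hadd n hn)) 1 le_rfl
  obtain ⟨i, hi, j, hj, hij, ⟨e⟩⟩ := pigeon K d hinf' (fun n => W n) hrig hg
  obtain ⟨r, hr⟩ := hret j hj
  exact hnp j hj (cokey hZ h1 h2 hij ((InAdd.of_equiv e.symm).trans (hadd i hi)) (W j).subtype r hr)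

end RGS
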