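import Pool.Agent.RGS.D0

/-!
# [RGS-G1] dimensions of `Hom` spaces
-/

set_option autoImplicit false

open CategoryTheory NTC

namespace RGS

variable {K A : Type} [Field K] [Ring A] [Algebra K A]

/-- the dimension of `Hom(M, N)` -/
noncomputable def hd (K A : Type) [Field K] [Ring A] [Algebra K A] (M N : Type)
    [AddCommGroup M] [Module A M] [AddCommGroup N] [Module K N] [Module A N]
    [IsScalarTower K A N] : ℕ :=
  Module.finrank K (M →ₗ[A] N)

section
variable {M M' N N' L P Y : Type} [AddCommGroup M] [Module A M] [AddCommGroup M'] [Module A M']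
  [AddCommGroup N] [Module K N] [Module A N] [IsScalarTower K A N]
  [AddCommGroup N'] [Module K N'] [Module A N'] [IsScalarTower K A N']
  [AddCommGroup L] [Module K L] [Module A L] [IsScalarTower K A L]
  [AddCommGroup P] [Module K P] [Module A P] [IsScalarTower K A P]
  [AddCommGroup Y] [Module K Y] [Module A Y] [IsScalarTower K A Y]

theorem fin_hom (hM : Module.Finite A M) (hN : FiniteDimensional K N) :
    Module.Finite K (M →ₗ[A] N) := by
  obtain ⟨n, f, hf⟩ := Module.Finite.exists_fin' A M
  let Φ : (M →ₗ[A] N) →ₗ[K] (Fin n → N) :=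
    { toFun := fun g k => g (f (Pi.single k 1))
      map_add' := fun g h => rfl
      map_smul' := fun c g => rfl }
  have hΦ : Function.Injective Φ := by
    intro g h hgh
    refine LinearMap.ext fun x => ?_
    obtain ⟨v, rfl⟩ := hf x
    have h1 : g ∘ₗ f = h ∘ₗ f := by
      apply LinearMap.pi_ext'
      intro k
      apply LinearMap.ext_ring
      exact congrFun hgh k
    exact LinearMap.congr_fun h1 v
  exact Module.Finite.of_injective Φ hΦ

variable (K) in
/-- composition with a fixed map -/
def post (M : Type) [AddCommGroup M] [Module A M] (p : P →ₗ[A] Y) :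
    (M →ₗ[A] P) →ₗ[K] (M →ₗ[A] Y) where
  toFun h := p ∘ₗ h
  map_add' g h := LinearMap.comp_add _ _ _
  map_smul' c h := by
    refine LinearMap.ext fun x => ?_
    exact LinearMap.map_smul_of_tower p c (h x)

variable (K) in
/-- precomposition with a fixed map -/
def pre (Y : Type) [AddCommGroup Y] [Module K Y] [Module A Y] [IsScalarTower K A Y]
    (a : M →ₗ[A] M') : (M' →ₗ[A] Y) →ₗ[K] (M →ₗ[A] Y) where
  toFun h := h ∘ₗ a
  map_add' g h := rfl
  map_smul' c h := rfl

theorem hd_congr (e : M ≃ₗ[A] M') : hd K A M N = hd K A M' N := by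
  refine LinearEquiv.finrank_eq
    { toFun := fun f => f ∘ₗ e.symm.toLinearMap
      map_add' := fun _ _ => rfl
      map_smul' := fun _ _ => rfl
      invFun := fun f => f ∘ₗ e.toLinearMap
      left_inv := fun f => by
        refine LinearMap.ext fun x => ?_
        show f (e.symm (e x)) = f x
        rw [e.symm_apply_apply]
      right_inv := fun f => by
        refine LinearMap.ext fun x => ?_
        show f (e (e.symm x)) = f x
        rw [e.apply_symm_apply] }

theorem hd_pi {t : ℕ} (M : Fin t → Type) [∀ k, AddCommGroup (M k)] [∀ k, Module A (M k)]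
    (hf : ∀ k, Module.Finite A (M k)) (hN : FiniteDimensional K N) :
    hd K A (∀ k, M k) N = ∑ k, hd K A (M k) N := by
  have : ∀ k, Module.Finite K (M k →ₗ[A] N) := fun k => fin_hom (hf k) hN
  have h1 := LinearEquiv.finrank_eq (LinearMap.lsum A M K (M := N))
  unfold hd
  rw [← h1]
  exact Module.finrank_pi_fintype K

variable (K) in
/-- the dimension of the space of homomorphisms modulo those which factor through `p` -/
noncomputable def gam (M : Type) [AddCommGroup M] [Module A M] (p : P →ₗ[A] Y) : ℕ :=
  Module.finrank K ((M →ₗ[A] Y) ⧸ LinearMap.range (post K M p))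

theorem gam_eq (hM : Module.Finite A M) (hP : FiniteDimensional K P) (hY : FiniteDimensional K Y)
    (i : L →ₗ[A] P) (p : P →ₗ[A] Y) (hi : Function.Injective i)
    (h : LinearMap.range i = LinearMap.ker p) :
    gam K M p + hd K A M P = hd K A M Y + hd K A M L := by
  have f1 : Module.Finite K (M →ₗ[A] Y) := fin_hom hM hY
  have f2 : Module.Finite K (M →ₗ[A] P) := fin_hom hM hP
  have h1 := Submodule.finrank_quotient_add_finrank (LinearMap.range (post K M p))
  have h2 := LinearMap.finrank_range_add_finrank_ker (post K M p)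
  have h3 : LinearMap.ker (post K M p) = LinearMap.range (post K M i) := by
    apply le_antisymm
    · intro g hg
      have hg' : ∀ x, p (g x) = 0 := fun x => LinearMap.congr_fun (LinearMap.mem_ker.1 hg) x
      have hmem : ∀ x, g x ∈ LinearMap.range i := fun x => h ▸ LinearMap.mem_ker.2 (hg' x)
      let e := LinearEquiv.ofInjective i hi
      refine ⟨e.symm.toLinearMap ∘ₗ g.codRestrict (LinearMap.range i) hmem, ?_⟩
      refine LinearMap.ext fun x => ?_
      show i (e.symm ⟨g x, hmem x⟩) = g x
      have h4 := e.apply_symm_apply ⟨g x, hmem x⟩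
      exact congrArg Subtype.val h4
    · rintro _ ⟨g, rfl⟩
      rw [LinearMap.mem_ker]
      refine LinearMap.ext fun x => ?_
      show p (i (g x)) = 0
      have : i (g x) ∈ LinearMap.ker p := h ▸ LinearMap.mem_range_self _ _
      exact this
  have h5 : Function.Injective (post K M i) := by
    intro f g hfg
    refine LinearMap.ext fun x => hi ?_
    exact LinearMap.congr_fun hfg x
  have h6 : Module.finrank K (LinearMap.ker (post K M p)) = hd K A M L := by
    rw [h3]
    exact LinearMap.finrank_range_of_inj h5
  rw [h6] at h2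
  unfold gam
  unfold hd at *
  omega

theorem gam_congr (e : M ≃ₗ[A] M') (hM : Module.Finite A M) (hP : FiniteDimensional K P)
    (hY : FiniteDimensional K Y) (i : L →ₗ[A] P) (p : P →ₗ[A] Y) (hi : Function.Injective i)
    (h : LinearMap.range i = LinearMap.ker p) : gam K M p = gam K M' p := by
  have h1 := gam_eq hM hP hY i p hi h
  have h2 := gam_eq (M := M') (Module.Finite.equiv e) hP hY i p hi h
  rw [← hd_congr e, ← hd_congr e, ← hd_congr e] at h2
  omega

theorem gam_pi {t : ℕ} (M : Fin t → Type) [∀ k, AddCommGroup (M k)] [∀ k, Module A (M k)]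
    (hf : ∀ k, Module.Finite A (M k)) (hP : FiniteDimensional K P) (hY : FiniteDimensional K Y)
    (i : L →ₗ[A] P) (p : P →ₗ[A] Y) (hi : Function.Injective i)
    (h : LinearMap.range i = LinearMap.ker p) : gam K (∀ k, M k) p = ∑ k, gam K (M k) p := by
  have hL : FiniteDimensional K L := by
    refine Module.Finite.of_injective (i.restrictScalars K) hi
  have h1 := gam_eq (M := ∀ k, M k) (Module.Finite.pi) hP hY i p hi h
  have h2 := fun k => gam_eq (hf k) hP hY i p hi h
  have h3 := Finset.sum_congr (s₁ := Finset.univ) rfl fun k _ => h2 k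
  rw [Finset.sum_add_distrib, Finset.sum_add_distrib, ← hd_pi M hf hP, ← hd_pi M hf hY,
    ← hd_pi M hf hL] at h3
  omega

end

end RGS
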