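import Pool.Agent.RGS.D0

/-!
# [RGS-H1] syzygies and `Ext`
-/

set_option autoImplicit false

open CategoryTheory NTC

namespace RGS

section
variable {A : Type} [Ring A] [HasExt.{1} (ModuleCat.{0} A)]

/-- covariant long exact sequence -/
theorem ses_coshift' {N E C M : Type} [AddCommGroup N] [Module A N] [AddCommGroup E] [Module A E]
    [AddCommGroup C] [Module A C] [AddCommGroup M] [Module A M]
    (i : N →ₗ[A] E) (p : E →ₗ[A] C) (hi : Function.Injective i) (hp : Function.Surjective p)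
    (h : LinearMap.range i = LinearMap.ker p) {n : ℕ} (hC : Ev A M C n) (hE : Ev A M E (n + 1)) :
    Ev A M N (n + 1) := by
  have hS := e0b_short i p hi hp h
  have h1 : Subsingleton (Abelian.Ext.{1} (ModuleCat.of A M) (ModuleCat.of A C) n) := hC
  have h2 : Subsingleton (Abelian.Ext.{1} (ModuleCat.of A M) (ModuleCat.of A E) (n + 1)) := hE
  refine subsingleton_of_forall_eq 0 fun x => ?_
  obtain ⟨y, hy⟩ := Abelian.Ext.covariant_sequence_exact₁ (ModuleCat.of A M) hS x
    (Subsingleton.elim _ _) (n₀ := n) rfl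
  have h3 : y = 0 := h1.elim _ _
  rw [← hy, h3, Abelian.Ext.zero_comp]

/-- the syzygies of a module `M` with `Ext^i(M, M) = 0 = Ext^i(M, A)`, `i ≥ 1`, have the same
property -/
theorem syz_ev {M L : Type} [AddCommGroup M] [Module A M] [AddCommGroup L] [Module A L]
    (h : Syz A M L) (h1 : EV A M M) (h2 : EV A M A) : EV A L L ∧ EV A L A := by
  obtain ⟨P, i, p, hP, hPf, hi, hp, hex⟩ := h
  have hMP : EV A M P := h2.add_right (inAdd_of_projective hP hPf)
  have hML : ∀ n, Ev A M L (n + 2) := fun n =>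
    ses_coshift' i p hi hp hex (h1 (n + 1) (by omega)) (hMP (n + 2) (by omega))
  constructor
  · intro n hn
    obtain ⟨k, rfl⟩ : ∃ k, n = k + 1 := ⟨n - 1, by omega⟩
    exact ses_shift' i p hi hp hex (ev_proj hP k) (hML k)
  · intro n hn
    obtain ⟨k, rfl⟩ : ∃ k, n = k + 1 := ⟨n - 1, by omega⟩
    exact ses_shift' i p hi hp hex (ev_proj hP k) (h2 (k + 2) (by omega))

/-- the cosyzygies -/
theorem cosyz_ev {M N : Type} [AddCommGroup M] [Module A M] [AddCommGroup N] [Module A N]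
    (h : Cosyz A M N) (h1 : EV A M M)
    (h2 : ∀ (I : Type) [AddCommGroup I] [Module A I], Module.Injective A I → Module.Finite A I →
      EV A I M) : EV A N N ∧ ∀ (I : Type) [AddCommGroup I] [Module A I], Module.Injective A I →
      Module.Finite A I → EV A I N := by
  obtain ⟨I, i, p, hI, hIf, hi, hp, hex⟩ := h
  have hIM : EV A I M := h2 I hI hIf
  have hNM : ∀ n, Ev A N M (n + 2) := fun n =>
    ses_shift i p hi hp hex (hIM (n + 2) (by omega)) (h1 (n + 1) (by omega))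
  constructor
  · intro n hn
    obtain ⟨k, rfl⟩ : ∃ k, n = k + 1 := ⟨n - 1, by omega⟩
    exact ses_coshift i p hi hp hex (ev_inj hI k) (hNM k)
  · intro J _ _ hJ hJf n hn
    obtain ⟨k, rfl⟩ : ∃ k, n = k + 1 := ⟨n - 1, by omega⟩
    exact ses_coshift i p hi hp hex (ev_inj hI k) (h2 J hJ hJf (k + 2) (by omega))

variable {Z : ℕ → Type} [∀ n, AddCommGroup (Z n)] [∀ n, Module A (Z n)]

theorem syz_ev_all (hZ : ∀ n, Syz A (Z n) (Z (n + 1))) (h1 : EV A (Z 0) (Z 0))
    (h2 : EV A (Z 0) A) (n : ℕ) : EV A (Z n) (Z n) ∧ EV A (Z n) A := by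
  induction n with
  | zero => exact ⟨h1, h2⟩
  | succ n ih => exact syz_ev (hZ n) ih.1 ih.2

theorem cosyz_ev_all (hZ : ∀ n, Cosyz A (Z n) (Z (n + 1))) (h1 : EV A (Z 0) (Z 0))
    (h2 : ∀ (I : Type) [AddCommGroup I] [Module A I], Module.Injective A I → Module.Finite A I →
      EV A I (Z 0)) (n : ℕ) : EV A (Z n) (Z n) ∧ ∀ (I : Type) [AddCommGroup I] [Module A I],
      Module.Injective A I → Module.Finite A I → EV A I (Z n) := by
  induction n with
  | zero => exact ⟨h1, h2⟩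
  | succ n ih => exact cosyz_ev (hZ n) ih.1 ih.2

theorem h1_down (hZ : ∀ n, Syz A (Z n) (Z (n + 1))) {W : Type} [AddCommGroup W] [Module A W]
    (i k : ℕ) (h : EV A (Z i) W) : EV A (Z (i + k)) W := by
  induction k with
  | zero => exact h
  | succ k ih =>
    obtain ⟨P, a, p, hP, hPf, ha, hp, hex⟩ := hZ (i + k)
    intro n hn
    obtain ⟨l, rfl⟩ : ∃ l, n = l + 1 := ⟨n - 1, by omega⟩
    exact ses_shift' a p ha hp hex (ev_proj hP l) (ih (l + 2) (by omega))

theorem h1_up (hZ : ∀ n, Cosyz A (Z n) (Z (n + 1))) {W : Type} [AddCommGroup W] [Module A W]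
    (i k : ℕ) (h : EV A W (Z i)) : EV A W (Z (i + k)) := by
  induction k with
  | zero => exact h
  | succ k ih =>
    obtain ⟨I, a, p, hI, hIf, ha, hp, hex⟩ := hZ (i + k)
    intro n hn
    obtain ⟨l, rfl⟩ : ∃ l, n = l + 1 := ⟨n - 1, by omega⟩
    exact ses_coshift a p ha hp hex (ev_inj hI l) (ih (l + 2) (by omega))

/-- a common direct summand of two different syzygies is projective -/
theorem key (hZ : ∀ n, Syz A (Z n) (Z (n + 1))) (h1 : EV A (Z 0) (Z 0)) (h2 : EV A (Z 0) A)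
    {W : Type} [AddCommGroup W] [Module A W] {i j : ℕ} (hij : i < j) (hi : InAdd A W (Z i))
    (u : W →ₗ[A] Z j) (r : Z j →ₗ[A] W) (hr : r ∘ₗ u = LinearMap.id) : Module.Projective A W := by
  obtain ⟨k, rfl⟩ : ∃ k, j = i + k + 1 := ⟨j - i - 1, by omega⟩
  have h3 : EV A (Z (i + k)) W :=
    h1_down hZ i k ((syz_ev_all hZ h1 h2 i).1.add_right hi)
  obtain ⟨P, a, p, hP, hPf, ha, hp, hex⟩ := hZ (i + k)
  obtain ⟨g, hg⟩ := ses_ext a p ha hp hex (h3 1 le_rfl) r
  refine (InAdd.of_retract (A := A) (a ∘ₗ u) g ?_).projective hP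
  rw [← LinearMap.comp_assoc, ← hg, hr]

/-- a common direct summand of two different cosyzygies is injective -/
theorem cokey (hZ : ∀ n, Cosyz A (Z n) (Z (n + 1))) (h1 : EV A (Z 0) (Z 0))
    (h2 : ∀ (I : Type) [AddCommGroup I] [Module A I], Module.Injective A I → Module.Finite A I →
      EV A I (Z 0))
    {W : Type} [AddCommGroup W] [Module A W] {i j : ℕ} (hij : i < j) (hi : InAdd A W (Z i))
    (u : W →ₗ[A] Z j) (r : Z j →ₗ[A] W) (hr : r ∘ₗ u = LinearMap.id) : Module.Injective A W := by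
  obtain ⟨k, rfl⟩ : ∃ k, j = i + k + 1 := ⟨j - i - 1, by omega⟩
  have h3 : EV A W (Z (i + k)) :=
    h1_up hZ i k ((cosyz_ev_all hZ h1 h2 i).1.add_left hi)
  obtain ⟨I, a, p, hI, hIf, ha, hp, hex⟩ := hZ (i + k)
  obtain ⟨g, hg⟩ := ses_lift a p ha hp hex (h3 1 le_rfl) u
  refine (InAdd.of_retract (A := A) g (r ∘ₗ p) ?_).injective hI
  rw [LinearMap.comp_assoc, ← hg, hr]

end

end RGS
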