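import Pool.Agent.RGS.G1
import Pool.Agent.RGS.H1

/-!
# [RGS-G2] stable `Hom` and presentations
-/

set_option autoImplicit false

open CategoryTheory NTC

namespace RGS

variable {K A : Type} [Field K] [Ring A] [Algebra K A] [HasExt.{1} (ModuleCat.{0} A)]

variable {V₁ V₀ W P Y : Type} [AddCommGroup V₁] [Module A V₁] [AddCommGroup V₀] [Module A V₀]
  [AddCommGroup W] [Module A W]
  [AddCommGroup P] [Module K P] [Module A P] [IsScalarTower K A P]
  [AddCommGroup Y] [Module K Y] [Module A Y] [IsScalarTower K A Y]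

omit [HasExt.{1} (ModuleCat.{0} A)] in
theorem factor (b : V₀ →ₗ[A] W) (hb : Function.Surjective b) (f : V₀ →ₗ[A] Y)
    (hf : LinearMap.ker b ≤ LinearMap.ker f) : ∃ g : W →ₗ[A] Y, f = g ∘ₗ b := by
  refine ⟨(LinearMap.ker b).liftQ f hf ∘ₗ (b.quotKerEquivOfSurjective hb).symm.toLinearMap, ?_⟩
  refine LinearMap.ext fun x => ?_
  have h1 : (b.quotKerEquivOfSurjective hb).symm (b x) = Submodule.Quotient.mk x := by
    rw [LinearEquiv.symm_apply_eq]
    rfl
  show f x = (LinearMap.ker b).liftQ f hf ((b.quotKerEquivOfSurjective hb).symm (b x))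
  rw [h1]
  exact (Submodule.liftQ_apply _ _ _).symm

section
variable (a : V₁ →ₗ[A] V₀) (b : V₀ →ₗ[A] W) (ha : Function.Injective a)
  (hb : Function.Surjective b) (hab : LinearMap.range a = LinearMap.ker b) (p : P →ₗ[A] Y)

/-- restriction on stable `Hom` -/
noncomputable def res (K : Type) [Field K] [Algebra K A] [Module K P] [IsScalarTower K A P]
    [Module K Y] [IsScalarTower K A Y] (a : V₁ →ₗ[A] V₀) (p : P →ₗ[A] Y) :
    ((V₀ →ₗ[A] Y) ⧸ LinearMap.range (post K V₀ p)) →ₗ[K]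
      ((V₁ →ₗ[A] Y) ⧸ LinearMap.range (post K V₁ p)) :=
  Submodule.mapQ _ _ (pre K Y a) (by
    rintro _ ⟨h, rfl⟩
    exact ⟨h ∘ₗ a, rfl⟩)

include ha hb hab in
theorem res_surj (hY : Ev A W Y 1) : Function.Surjective (res K a p) := by
  intro x
  obtain ⟨f, rfl⟩ := Submodule.Quotient.mk_surjective _ x
  obtain ⟨g, hg⟩ := ses_ext a b ha hb hab hY f
  refine ⟨Submodule.Quotient.mk g, ?_⟩
  have h1 : res K a p (Submodule.Quotient.mk g) = Submodule.Quotient.mk (pre K Y a g) := rfl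
  rw [h1]
  congr 1
  exact hg.symm

include ha hb hab in
theorem res_inj (hP : Ev A W P 1) (hW : ∀ g : W →ₗ[A] Y, ∃ h : V₀ →ₗ[A] P, g ∘ₗ b = p ∘ₗ h) :
    Function.Injective (res K a p) := by
  rw [injective_iff_map_eq_zero]
  intro x hx
  obtain ⟨f, rfl⟩ := Submodule.Quotient.mk_surjective _ x
  have h1 : res K a p (Submodule.Quotient.mk f) = Submodule.Quotient.mk (pre K Y a f) := rfl
  rw [h1, Submodule.Quotient.mk_eq_zero] at hx
  obtain ⟨h, hh⟩ := hx
  obtain ⟨h0, hh0⟩ := ses_ext a b ha hb hab hP h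
  obtain ⟨g, hg⟩ := factor b hb (f - p ∘ₗ h0) (by
    rw [← hab]
    rintro _ ⟨v, rfl⟩
    rw [LinearMap.mem_ker]
    have h2 : p (h v) = f (a v) := LinearMap.congr_fun hh v
    have h3 : h v = h0 (a v) := LinearMap.congr_fun hh0 v
    show f (a v) - p (h0 (a v)) = 0
    rw [← h3, h2, sub_self])
  obtain ⟨h', hh'⟩ := hW g
  rw [Submodule.Quotient.mk_eq_zero]
  refine ⟨h0 + h', ?_⟩
  show p ∘ₗ (h0 + h') = f
  rw [LinearMap.comp_add, ← hh', ← hg]
  abel

include ha hb hab in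
/-- [a] -/
theorem gam_eq_of (hY : Ev A W Y 1) (hP : Ev A W P 1)
    (hW : ∀ g : W →ₗ[A] Y, ∃ h : V₀ →ₗ[A] P, g ∘ₗ b = p ∘ₗ h) :
    gam K V₀ p = gam K V₁ p :=
  LinearEquiv.finrank_eq (LinearEquiv.ofBijective (res K a p)
    ⟨res_inj a b ha hb hab p hP hW, res_surj a b ha hb hab p hY⟩)

include ha hb hab in
/-- [b] -/
theorem lift_of_gam (hV₀ : Module.Finite A V₀) (hYf : FiniteDimensional K Y) (hY : Ev A W Y 1)
    (h : gam K V₀ p = gam K V₁ p) (g : W →ₗ[A] Y) : ∃ h : V₀ →ₗ[A] P, g ∘ₗ b = p ∘ₗ h := by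
  have f0 : Module.Finite K (V₀ →ₗ[A] Y) := fin_hom hV₀ hYf
  have hs := res_surj (K := K) a b ha hb hab p hY
  have f1 : Module.Finite K ((V₁ →ₗ[A] Y) ⧸ LinearMap.range (post K V₁ p)) :=
    Module.Finite.of_surjective _ hs
  have hinj : Function.Injective (res K a p) :=
    (LinearMap.injective_iff_surjective_of_finrank_eq_finrank h).2 hs
  have h1 : res K a p (Submodule.Quotient.mk (g ∘ₗ b)) = 0 := by
    show Submodule.Quotient.mk (pre K Y a (g ∘ₗ b)) = _
    have h2 : pre K Y a (g ∘ₗ b) = 0 := by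
      refine LinearMap.ext fun v => ?_
      show g (b (a v)) = 0
      have h3 : a v ∈ LinearMap.ker b := hab ▸ LinearMap.mem_range_self _ _
      rw [LinearMap.mem_ker.1 h3, map_zero]
    rw [h2]
    rfl
  have h4 := hinj (h1.trans (map_zero _).symm)
  rw [Submodule.Quotient.mk_eq_zero] at h4
  obtain ⟨h5, hh5⟩ := h4
  exact ⟨h5, hh5.symm⟩

end

end RGS
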