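import Mathlib

/-!
# [RGS-G3] triangular families are linearly independent
-/

set_option autoImplicit false

namespace RGS

/-- there is no infinite family of vectors in a finite-dimensional space which is triangular with
respect to a family of functionals -/
theorem no_triangular {J : Type} [Fintype J] {S : Set ℕ} (hS : S.Infinite) (x ψ : ℕ → J → ℚ)
    (h0 : ∀ n ∈ S, ∀ m ∈ S, n < m → ∑ j, ψ n j * x m j = 0)
    (h1 : ∀ n ∈ S, ∑ j, ψ n j * x n j ≠ 0) : False := by
  classical
  have hli : LinearIndependent ℚ (fun n : S => x n) := by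
    rw [linearIndependent_iff']
    intro s g hsum
    by_contra hcon
    push Not at hcon
    obtain ⟨i₀, hi₀, hg₀⟩ := hcon
    let T := s.filter fun i => g i ≠ 0
    have hT : T.Nonempty := ⟨i₀, Finset.mem_filter.2 ⟨hi₀, hg₀⟩⟩
    obtain ⟨i, hi, hmin⟩ := T.exists_min_image (fun i => (i : ℕ)) hT
    have his : i ∈ s := (Finset.mem_filter.1 hi).1
    have hgi : g i ≠ 0 := (Finset.mem_filter.1 hi).2
    have h2 : ∑ m ∈ s, g m * ∑ j, ψ i j * x m j = 0 := by
      have h3 : ∑ m ∈ s, g m * ∑ j, ψ i j * x m j = ∑ j, ψ i j * (∑ m ∈ s, g m • x m) j := by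
        simp only [Finset.mul_sum, Finset.sum_apply, Pi.smul_apply, smul_eq_mul]
        rw [Finset.sum_comm]
        refine Finset.sum_congr rfl fun j _ => Finset.sum_congr rfl fun m _ => ?_
        ring
      rw [h3, hsum]
      simp
    rw [Finset.sum_eq_single_of_mem i his] at h2
    · rcases mul_eq_zero.1 h2 with h | h
      · exact hgi h
      · exact h1 i i.2 h
    · intro m hm hmi
      by_cases hgm : g m = 0
      · rw [hgm, zero_mul]
      · have h4 : (i : ℕ) ≤ m := hmin m (Finset.mem_filter.2 ⟨hm, hgm⟩)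
        have h5 : (i : ℕ) < m := lt_of_le_of_ne h4 fun h => hmi (Subtype.ext h.symm)
        rw [h0 i i.2 m m.2 h5, mul_zero]
  have : Infinite S := hS.to_subtype
  exact not_finite_iff_infinite.2 this hli.finite

end RGS
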