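import Pool.Agent.RGS.K2
import Pool.Agent.RGS.H1

/-!
# [RGS-G4] a small summand from a factorization
-/

set_option autoImplicit false

open CategoryTheory NTC

namespace RGS

variable {A : Type} [Ring A]

/-- a retract which is not projective and is generated by `d` elements gives a small summand -/
theorem smallNP_of_retract {Y L : Type} [AddCommGroup Y] [Module A Y] [AddCommGroup L]
    [Module A L] (u : Y →ₗ[A] L) (r : L →ₗ[A] Y) (h : r ∘ₗ u = LinearMap.id)
    (hY : ¬ Module.Projective A Y) {d : ℕ} (f : (Fin d → A) →ₗ[A] Y)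
    (hf : Function.Surjective f) : SmallNP A d L := by
  have h' : ∀ y, r (u y) = y := fun y => LinearMap.congr_fun h y
  have hinj : Function.Injective u := Function.LeftInverse.injective h'
  let e : Y ≃ₗ[A] LinearMap.range u := LinearEquiv.ofInjective u hinj
  refine ⟨LinearMap.range u, LinearMap.ker r, isCompl_of_retract u r h, ?_,
    e.toLinearMap ∘ₗ f, e.surjective.comp hf⟩
  intro hP
  exact hY (Module.Projective.of_equiv e.symm)

theorem proj_of_retract {Y P : Type} [AddCommGroup Y] [Module A Y] [AddCommGroup P]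
    [Module A P] (hP : Module.Projective A P) (u : Y →ₗ[A] P) (r : P →ₗ[A] Y)
    (h : r ∘ₗ u = LinearMap.id) : Module.Projective A Y :=
  (InAdd.of_retract u r h).projective hP

/-- from two decompositions of the identity of a non-projective module -/
theorem small_of_two {L' L P V₁ V : Type} [AddCommGroup L'] [Module A L'] [AddCommGroup L]
    [Module A L] [AddCommGroup P] [Module A P] [AddCommGroup V₁] [Module A V₁] [AddCommGroup V]
    [Module A V] [IsNoetherian A L'] [IsArtinian A L'] (hP : Module.Projective A P)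
    (hL' : ¬ Module.Projective A L')
    (e : L' →ₗ[A] L) (j : L →ₗ[A] L') (q q' : L' →ₗ[A] P) (z z' : P →ₗ[A] L')
    (w : L' →ₗ[A] V₁) (u : V₁ →ₗ[A] L')
    (h1 : j ∘ₗ e + z' ∘ₗ q' = LinearMap.id) (h2 : u ∘ₗ w + z ∘ₗ q = LinearMap.id)
    (hV : InAdd A V₁ V) {d : ℕ} (f : (Fin d → A) →ₗ[A] V) (hf : Function.Surjective f) :
    SmallNP A d L := by
  obtain ⟨n, hn⟩ : ∃ n : ℕ, Module.length A L' ≤ n := by
    obtain ⟨n, hn⟩ := ENat.ne_top_iff_exists.1 (Module.length_ne_top (R := A) (M := L'))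
    exact ⟨n, hn.ge⟩
  obtain ⟨Y, _, _, v, r, hrv, hYi, hYP⟩ := exists_ind (A := A)
    (fun N _ _ => Module.Projective A N)
    (fun N _ _ h => Module.Projective.of_equiv (subEquiv (A := A) PUnit N))
    (fun N N' _ _ _ _ e h => Module.Projective.of_equiv e)
    (fun N N' _ _ _ _ h h' => inferInstance) n L' hn hL'
  have hrv' : ∀ y, r (v y) = y := fun y => LinearMap.congr_fun hrv y
  have : IsNoetherian A Y := isNoetherian_of_surjective r
    (LinearMap.range_eq_top.2 fun y => ⟨v y, hrv' y⟩)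
  have : IsArtinian A Y := isArtinian_of_surjective L' r fun y => ⟨v y, hrv' y⟩
  have k1 : ∀ y, r (j (e (v y))) + r (z' (q' (v y))) = y := by
    intro y
    have h3 := LinearMap.congr_fun h1 (v y)
    have h4 : r (j (e (v y)) + z' (q' (v y))) = r (v y) := congrArg r h3
    rw [map_add, hrv'] at h4
    exact h4
  have k2 : ∀ y, r (u (w (v y))) + r (z (q (v y))) = y := by
    intro y
    have h3 := LinearMap.congr_fun h2 (v y)
    have h4 : r (u (w (v y)) + z (q (v y))) = r (v y) := congrArg r h3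
    rw [map_add, hrv'] at h4
    exact h4
  -- first decomposition
  obtain ⟨b, hb⟩ := fit hYi (Finset.univ : Finset Bool)
    (fun b => if b then r ∘ₗ j ∘ₗ e ∘ₗ v else r ∘ₗ z' ∘ₗ q' ∘ₗ v) (by
      have h5 : (∑ b : Bool, (if b then r ∘ₗ j ∘ₗ e ∘ₗ v else r ∘ₗ z' ∘ₗ q' ∘ₗ v) :
          Module.End A Y) = 1 := by
        rw [Fintype.sum_bool]
        refine LinearMap.ext fun y => ?_
        exact k1 y
      rw [h5]
      exact isUnit_one)
  have hA : Function.Bijective ((r ∘ₗ j) ∘ₗ (e ∘ₗ v)) := by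
    cases b with
    | true => exact hb.2
    | false =>
      exfalso
      obtain ⟨r', hr'⟩ := retract_of_bij (q' ∘ₗ v) (r ∘ₗ z') hb.2
      exact hYP (proj_of_retract hP _ r' hr')
  obtain ⟨r₁, hr₁⟩ := retract_of_bij (e ∘ₗ v) (r ∘ₗ j) hA
  -- second decomposition
  obtain ⟨b, hb⟩ := fit hYi (Finset.univ : Finset Bool)
    (fun b => if b then r ∘ₗ u ∘ₗ w ∘ₗ v else r ∘ₗ z ∘ₗ q ∘ₗ v) (by
      have h5 : (∑ b : Bool, (if b then r ∘ₗ u ∘ₗ w ∘ₗ v else r ∘ₗ z ∘ₗ q ∘ₗ v) :
          Module.End A Y) = 1 := by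
        rw [Fintype.sum_bool]
        refine LinearMap.ext fun y => ?_
        exact k2 y
      rw [h5]
      exact isUnit_one)
  have hB : Function.Bijective ((r ∘ₗ u) ∘ₗ (w ∘ₗ v)) := by
    cases b with
    | true => exact hb.2
    | false =>
      exfalso
      obtain ⟨r', hr'⟩ := retract_of_bij (q ∘ₗ v) (r ∘ₗ z) hb.2
      exact hYP (proj_of_retract hP _ r' hr')
  obtain ⟨r₂, hr₂⟩ := retract_of_bij (w ∘ₗ v) (r ∘ₗ u) hB
  obtain ⟨m, ii, ss, hss⟩ := (InAdd.of_retract (w ∘ₗ v) r₂ hr₂).trans hV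
  obtain ⟨k, hk⟩ := ind_retract hYi (fun _ : Fin m => V) ii ss hss
  refine smallNP_of_retract (e ∘ₗ v) r₁ hr₁ hYP (ss k ∘ₗ f) ?_
  have h6 : Function.Surjective (ss k) := by
    intro y
    obtain ⟨y', hy'⟩ := hk.2 y
    exact ⟨ii k y', hy'⟩
  exact h6.comp hf

/-- [G4] -/
theorem small_of_factor [HasExt.{1} (ModuleCat.{0} A)] {L P X W V₁ V₀ V : Type}
    [AddCommGroup L] [Module A L]
    [AddCommGroup P] [Module A P] [AddCommGroup X] [Module A X] [AddCommGroup W] [Module A W]
    [AddCommGroup V₁] [Module A V₁] [AddCommGroup V₀] [Module A V₀] [AddCommGroup V] [Module A V]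
    (hPn : IsNoetherian A P) (hPa : IsArtinian A P) (hP : Module.Projective A P)
    (i : L →ₗ[A] P) (p : P →ₗ[A] X) (hi : Function.Injective i) (hp : Function.Surjective p)
    (hip : LinearMap.range i = LinearMap.ker p)
    (ι : W →ₗ[A] X) (π : X →ₗ[A] W) (hπ : π ∘ₗ ι = LinearMap.id)
    (hW : ¬ Module.Projective A W) (hWA : Ev A W P 1) (hWL : ∀ (Q : Type) [AddCommGroup Q]
      [Module A Q], Module.Projective A Q → Module.Finite A Q → Ev A W Q 1)
    (a : V₁ →ₗ[A] V₀) (b : V₀ →ₗ[A] W) (ha : Function.Injective a)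
    (hb : Function.Surjective b) (hab : LinearMap.range a = LinearMap.ker b)
    (h : V₀ →ₗ[A] P) (hh : ι ∘ₗ b = p ∘ₗ h) (hV : InAdd A V₁ V) {d : ℕ}
    (f : (Fin d → A) →ₗ[A] V) (hf : Function.Surjective f) : SmallNP A d L := by
  have hπ' : ∀ x, π (ι x) = x := fun x => LinearMap.congr_fun hπ x
  have hh' : ∀ v, ι (b v) = p (h v) := fun v => LinearMap.congr_fun hh v
  let p' : P →ₗ[A] W := π ∘ₗ p
  have hp' : Function.Surjective p' := by
    intro x
    obtain ⟨y, hy⟩ := hp (ι x)
    exact ⟨y, by show π (p y) = x; rw [hy, hπ']⟩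
  have hph : ∀ v, p' (h v) = b v := by
    intro v
    show π (p (h v)) = b v
    rw [← hh', hπ']
  obtain ⟨k, hk⟩ := Module.projective_lifting_property b p' hb
  have hk' : ∀ y, b (k y) = p' y := fun y => LinearMap.congr_fun hk y
  obtain ⟨et, het⟩ := Module.projective_lifting_property p ((ι ∘ₗ π) ∘ₗ p) hp
  have het' : ∀ y, p (et y) = ι (π (p y)) := fun y => LinearMap.congr_fun het y
  -- the maps
  let e₁ := LinearEquiv.ofInjective i hi
  have hmem1 : ∀ y : LinearMap.ker p', et y ∈ LinearMap.range i := by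
    intro y
    rw [hip, LinearMap.mem_ker, het']
    have : π (p (y : P)) = 0 := LinearMap.mem_ker.1 y.2
    rw [this, map_zero]
  let e : LinearMap.ker p' →ₗ[A] L := e₁.symm.toLinearMap ∘ₗ
    (et ∘ₗ (LinearMap.ker p').subtype).codRestrict (LinearMap.range i) hmem1
  have he : ∀ y : LinearMap.ker p', i (e y) = et y := fun y =>
    congrArg Subtype.val (e₁.apply_symm_apply ⟨et y, hmem1 y⟩)
  let j : L →ₗ[A] LinearMap.ker p' := i.codRestrict (LinearMap.ker p') fun y => by
    have h1 : i y ∈ LinearMap.ker p := hip ▸ LinearMap.mem_range_self _ _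
    show π (p (i y)) = 0
    rw [LinearMap.mem_ker.1 h1, map_zero]
  let z' : P →ₗ[A] LinearMap.ker p' := (LinearMap.id - et).codRestrict (LinearMap.ker p')
    fun y => by
      show π (p (y - et y)) = 0
      rw [map_sub, map_sub, het', hπ', sub_self]
  have hmem2 : ∀ y : LinearMap.ker p', k y ∈ LinearMap.range a := by
    intro y
    rw [hab, LinearMap.mem_ker, hk']
    exact LinearMap.mem_ker.1 y.2
  let e₂ := LinearEquiv.ofInjective a ha
  let w : LinearMap.ker p' →ₗ[A] V₁ := e₂.symm.toLinearMap ∘ₗ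
    (k ∘ₗ (LinearMap.ker p').subtype).codRestrict (LinearMap.range a) hmem2
  have hw : ∀ y : LinearMap.ker p', a (w y) = k y := fun y =>
    congrArg Subtype.val (e₂.apply_symm_apply ⟨k y, hmem2 y⟩)
  let u : V₁ →ₗ[A] LinearMap.ker p' := (h ∘ₗ a).codRestrict (LinearMap.ker p') fun v => by
    show p' (h (a v)) = 0
    rw [hph]
    have h1 : a v ∈ LinearMap.ker b := hab ▸ LinearMap.mem_range_self _ _
    exact LinearMap.mem_ker.1 h1
  let z : P →ₗ[A] LinearMap.ker p' := (LinearMap.id - h ∘ₗ k).codRestrict (LinearMap.ker p')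
    fun y => by
      show p' (y - h (k y)) = 0
      rw [map_sub, hph, hk', sub_self]
  have hL' : ¬ Module.Projective A (LinearMap.ker p') := by
    intro hproj
    have hfin : Module.Finite A (LinearMap.ker p') := inferInstance
    have hE := hWL (LinearMap.ker p') hproj hfin
    obtain ⟨g, hg⟩ := ses_lift (LinearMap.ker p').subtype p' (Submodule.injective_subtype _) hp'
      (Submodule.range_subtype _) hE LinearMap.id
    exact hW (proj_of_retract hP g p' hg.symm)
  refine small_of_two hP hL' e j (LinearMap.ker p').subtype (LinearMap.ker p').subtype z z' w u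
    ?_ ?_ hV f hf
  · refine LinearMap.ext fun y => Subtype.ext ?_
    show i (e y) + ((y : P) - et y) = y
    rw [he]
    abel
  · refine LinearMap.ext fun y => Subtype.ext ?_
    show h (a (w y)) + ((y : P) - h (k y)) = y
    rw [hw]
    abel

end RGS
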