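import Pool.Agent.RGS.G2
import Pool.Agent.RGS.G3
import Pool.Agent.RGS.G4
import Pool.Agent.RGS.Fin

/-!
# [RGS-G5] syzygies with presentations of finite type
-/

set_option autoImplicit false

open CategoryTheory NTC

namespace RGS

/-- `W` has a presentation `0 → V₁ → V₀ → W → 0` with `V₁` and `V₀` in `add V` -/
def Pres (A : Type) [Ring A] (V W : Type) [AddCommGroup V] [Module A V] [AddCommGroup W]
    [Module A W] : Prop :=
  ∃ (V₁ V₀ : ModuleCat.{0} A) (a : V₁ →ₗ[A] V₀) (b : V₀ →ₗ[A] W), InAdd A V₁ V ∧ InAdd A V₀ V ∧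
    Function.Injective a ∧ Function.Surjective b ∧ LinearMap.range a = LinearMap.ker b

/-- `M` has a non-projective direct summand `W` which has a presentation `0 → V₁ → V₀ → W → 0`
with `V₁` and `V₀` in `add V` -/
def GoodSummand (A : Type) [Ring A] (V M : Type) [AddCommGroup V] [Module A V] [AddCommGroup M]
    [Module A M] : Prop :=
  ∃ W W' : Submodule A M, IsCompl W W' ∧ ¬ Module.Projective A W ∧ Pres A V W

section
variable {A : Type} [Ring A]

theorem sum_fiber {J : Type} [Fintype J] [DecidableEq J] {t : ℕ} (c : Fin t → J) (g : J → ℕ) :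
    ((∑ k, g (c k) : ℕ) : ℚ) = ∑ j, (g j : ℚ) * ((Finset.univ.filter fun k => c k = j).card : ℚ) := by
  have h1 : ∑ k, g (c k) = ∑ j, g j * (Finset.univ.filter fun k => c k = j).card := by
    rw [← Finset.sum_fiberwise (s := Finset.univ) (g := c)]
    refine Finset.sum_congr rfl fun j _ => ?_
    rw [Finset.sum_congr rfl (g := fun _ => g j)
      (fun k hk => by rw [(Finset.mem_filter.1 hk).2]), Finset.sum_const, smul_eq_mul, mul_comm]
  rw [h1]
  push_cast
  rfl

end

/-- the main theorem: the syzygies of `Z 0` have non-projective summands with a presentation in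
`add V` only finitely often -/
theorem finite_good (K : Type) {A : Type} [Field K] [Ring A] [Algebra K A]
    [FiniteDimensional K A] [HasExt.{1} (ModuleCat.{0} A)] {Z : ℕ → Type}
    [∀ n, AddCommGroup (Z n)] [∀ n, Module A (Z n)] (hZ : ∀ n, Syz A (Z n) (Z (n + 1)))
    (h1 : EV A (Z 0) (Z 0)) (h2 : EV A (Z 0) A) (V : Type) [AddCommGroup V] [Module A V]
    (hVf : Module.Finite A V) : {n | GoodSummand A V (Z n)}.Finite := by
  classical
  have hArt : IsArtinianRing A := IsArtinianRing.of_finite K A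
  by_contra hinf
  have hinf' : {n | GoodSummand A V (Z n)}.Infinite := hinf
  obtain ⟨d, f, hf⟩ := Module.Finite.exists_fin' A V
  -- the decomposition of `V`
  obtain ⟨N, hN⟩ : ∃ n : ℕ, Module.length A V ≤ n := by
    obtain ⟨n, hn⟩ := ENat.ne_top_iff_exists.1 (Module.length_ne_top (R := A) (M := V))
    exact ⟨n, hn.ge⟩
  obtain ⟨J, _, M, ρ, v, hsum, hM⟩ := exists_decomp (A := A) N V hN
  have hMf : ∀ j, Module.Finite A (M j) := fun j =>
    Module.Finite.of_surjective (ρ j) fun y => ⟨v j y, LinearMap.congr_fun (hM j).2 y⟩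
  -- projective modules
  choose P i p hPp hPf hi hp hip using hZ
  have hZf : ∀ n, Module.Finite A (Z n) := fun n => Module.Finite.of_surjective (p n) (hp n)
  have hZ' : ∀ n, Syz A (Z n) (Z (n + 1)) := fun n =>
    ⟨P n, i n, p n, hPp n, hPf n, hi n, hp n, hip n⟩
  -- structures over `K`
  let _k1 : ∀ n, Module K (Z n) := fun n => Module.compHom (Z n) (algebraMap K A)
  have _k2 : ∀ n, IsScalarTower K A (Z n) := fun n => by
    refine ⟨fun c a m => ?_⟩
    change (c • a) • m = (algebraMap K A c) • (a • m)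
    rw [Algebra.smul_def, mul_smul]
  let _k3 : ∀ n, Module K (P n) := fun n => Module.compHom (P n) (algebraMap K A)
  have _k4 : ∀ n, IsScalarTower K A (P n) := fun n => by
    refine ⟨fun c a m => ?_⟩
    change (c • a) • m = (algebraMap K A c) • (a • m)
    rw [Algebra.smul_def, mul_smul]
  have hKA : Module.Finite K A := inferInstance
  have hZk : ∀ n, FiniteDimensional K (Z n) := fun n => Module.Finite.trans A (Z n)
  have hPk : ∀ n, FiniteDimensional K (P n) := fun n => Module.Finite.trans A (P n)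
  -- the summands
  choose! W W' hc hnp V₁ V₀ a b hV₁ hV₀ ha hb hab using
    fun (n : ℕ) (hn : n ∈ {n | GoodSummand A V (Z n)}) => hn
  have hπ : ∀ n ∈ {n | GoodSummand A V (Z n)}, ∃ r : Z n →ₗ[A] W n,
      r ∘ₗ (W n).subtype = LinearMap.id := by
    intro n hn
    refine ⟨Submodule.projectionOnto (W n) (W' n) (hc n hn), ?_⟩
    exact Submodule.projectionOnto_comp_subtype (hc n hn)
  choose! π hπ using hπ
  have hfin : ∀ X : ModuleCat.{0} A, InAdd A X V → Module.Finite A X := fun X hX => hX.finite hVf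
  have hdec : ∀ X : ModuleCat.{0} A, InAdd A X V → ∃ (t : ℕ) (c : Fin t → J),
      Nonempty (X ≃ₗ[A] (∀ k, M (c k))) := by
    intro X hX
    have := hfin X hX
    obtain ⟨n, hn⟩ := ENat.ne_top_iff_exists.1 (Module.length_ne_top (R := A) (M := X))
    exact exists_iso M ρ v hsum (fun j => (hM j).1) n X hn.ge hX
  have hdec' : ∀ (X : ℕ → ModuleCat.{0} A),
      (∀ n ∈ {n | GoodSummand A V (Z n)}, InAdd A (X n) V) → ∀ n, ∃ (t : ℕ) (c : Fin t → J),
      n ∈ {n | GoodSummand A V (Z n)} → Nonempty (X n ≃ₗ[A] (∀ k, M (c k))) := by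
    intro X hX n
    by_cases hn : n ∈ {n | GoodSummand A V (Z n)}
    · obtain ⟨t, c, e⟩ := hdec (X n) (hX n hn)
      exact ⟨t, c, fun _ => e⟩
    · exact ⟨0, Fin.elim0, fun h => absurd h hn⟩
  choose t₁ c₁ e₁ using hdec' V₁ hV₁
  choose t₀ c₀ e₀ using hdec' V₀ hV₀
  let x : ℕ → J → ℚ := fun n j => ((Finset.univ.filter fun k => c₀ n k = j).card : ℚ) -
    ((Finset.univ.filter fun k => c₁ n k = j).card : ℚ)
  let ψ : ℕ → J → ℚ := fun n j => (gam K (M j) (p n) : ℚ)
  have hgam : ∀ (X : ModuleCat.{0} A) (n t : ℕ) (c : Fin t → J), Module.Finite A X →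
      Nonempty (X ≃ₗ[A] (∀ k, M (c k))) → (gam K X (p n) : ℚ) =
      ∑ j, (gam K (M j) (p n) : ℚ) * ((Finset.univ.filter fun k => c k = j).card : ℚ) := by
    intro X n t c hX ⟨e⟩
    have g1 := gam_congr (K := K) e hX (hPk n) (hZk n) (i n) (p n) (hi n) (hip n)
    have g2 := gam_pi (K := K) (fun k => M (c k)) (fun k => hMf _) (hPk n) (hZk n) (i n) (p n)
      (hi n) (hip n)
    rw [g1, g2]
    exact sum_fiber c fun j => gam K (M j) (p n)
  have hval : ∀ n, ∀ m ∈ {n | GoodSummand A V (Z n)}, ∑ j, ψ n j * x m j =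
      (gam K (V₀ m) (p n) : ℚ) - (gam K (V₁ m) (p n) : ℚ) := by
    intro n m hm
    rw [hgam (V₀ m) n (t₀ m) (c₀ m) (hfin _ (hV₀ m hm)) (e₀ m hm),
      hgam (V₁ m) n (t₁ m) (c₁ m) (hfin _ (hV₁ m hm)) (e₁ m hm), ← Finset.sum_sub_distrib]
    refine Finset.sum_congr rfl fun j _ => ?_
    show _ * (_ - _) = _
    ring
  -- vanishing
  have hEV : ∀ n m, n ≤ m → EV A (Z m) (Z n) := by
    intro n m hnm
    obtain ⟨k, rfl⟩ : ∃ k, m = n + k := ⟨m - n, by omega⟩
    exact h1_down hZ' n k (syz_ev_all hZ' h1 h2 n).1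
  have hEA : ∀ n, EV A (Z n) A := fun n => (syz_ev_all hZ' h1 h2 n).2
  have hEP : ∀ n (Q : Type) [AddCommGroup Q] [Module A Q], Module.Projective A Q →
      Module.Finite A Q → EV A (Z n) Q := fun n Q _ _ hQ hQf =>
    (hEA n).add_right (inAdd_of_projective hQ hQf)
  have hWadd : ∀ n ∈ {n | GoodSummand A V (Z n)}, InAdd A (W n) (Z n) := fun n hn =>
    InAdd.of_retract _ (π n) (hπ n hn)
  have hlt : ∀ n ∈ {n | GoodSummand A V (Z n)}, ∀ m ∈ {n | GoodSummand A V (Z n)}, n < m →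
      ∑ j, ψ n j * x m j = 0 := by
    intro n hn m hm hnm
    rw [hval n m hm]
    have h3 : gam K (V₀ m) (p n) = gam K (V₁ m) (p n) := by
      refine gam_eq_of (a m) (b m) (ha m hm) (hb m hm) (hab m hm) (p n)
        (((hEV n m hnm.le).add_left (hWadd m hm)) 1 le_rfl)
        (((hEP m (P n) (hPp n) (hPf n)).add_left (hWadd m hm)) 1 le_rfl) ?_
      intro g
      obtain ⟨g', hg'⟩ := ses_lift (i n) (p n) (hi n) (hp n) (hip n)
        (hEV (n + 1) m hnm 1 le_rfl) (g ∘ₗ π m)
      refine ⟨g' ∘ₗ (W m).subtype ∘ₗ b m, ?_⟩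
      have h4 : g = (g ∘ₗ π m) ∘ₗ (W m).subtype := by
        rw [LinearMap.comp_assoc, hπ m hm, LinearMap.comp_id]
      rw [h4, hg']
      rfl
    rw [h3, sub_self]
  -- the indices where the functional vanishes
  let S₀ : Set ℕ := {n | n ∈ {n | GoodSummand A V (Z n)} ∧ ∑ j, ψ n j * x n j = 0}
  have hS₀ : ∀ n ∈ S₀, SmallNP A d (Z (n + 1)) := by
    rintro n ⟨hn, h0⟩
    rw [hval n n hn, sub_eq_zero] at h0
    have h0' : gam K (V₀ n) (p n) = gam K (V₁ n) (p n) := by exact_mod_cast h0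
    obtain ⟨h, hh⟩ := lift_of_gam (K := K) (a n) (b n) (ha n hn) (hb n hn) (hab n hn) (p n)
      (hfin _ (hV₀ n hn)) (hZk n) (((hEV n n le_rfl).add_left (hWadd n hn)) 1 le_rfl) h0'
      (W n).subtype
    have hWQ : ∀ (Q : Type) [AddCommGroup Q] [Module A Q], Module.Projective A Q →
        Module.Finite A Q → Ev A (W n) Q 1 := fun Q _ _ hQ hQf =>
      ((hEP n Q hQ hQf).add_left (hWadd n hn)) 1 le_rfl
    exact small_of_factor inferInstance inferInstance (hPp n) (i n) (p n) (hi n) (hp n) (hip n)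
      (W n).subtype (π n) (hπ n hn) (hnp n hn) (hWQ (P n) (hPp n) (hPf n)) hWQ (a n) (b n)
      (ha n hn) (hb n hn) (hab n hn) h hh (hV₁ n hn) f hf
  have hfinS₀ : S₀.Finite := by
    have h5 := finite_np K hZ' h1 h2 d
    have h6 : (fun n => n + 1) '' S₀ ⊆ {n | SmallNP A d (Z n)} := by
      rintro _ ⟨n, hn, rfl⟩
      exact hS₀ n hn
    exact Set.Finite.of_finite_image (h5.subset h6) (fun a _ b _ h => Nat.succ_injective h)
  have hrest : ({n | GoodSummand A V (Z n)} \ S₀).Infinite := hinf'.sdiff hfinS₀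
  refine no_triangular hrest x ψ (fun n hn m hm => hlt n hn.1 m hm.1) fun n hn h => ?_
  exact hn.2 ⟨hn.1, h⟩

end RGS
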