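import Pool.Agent.RGS.G5

/-!
# [RGS-G6] presentations up to modules without stable homomorphisms
-/

set_option autoImplicit false

open CategoryTheory NTC

namespace RGS

/-- every homomorphism `D → X` factors through a projective module -/
def StZ (A : Type) [Ring A] (D X : Type) [AddCommGroup D] [Module A D] [AddCommGroup X]
    [Module A X] : Prop :=
  ∀ f : D →ₗ[A] X, ∃ (Q : ModuleCat.{0} A) (g : D →ₗ[A] Q) (h : Q →ₗ[A] X),
    Module.Projective A Q ∧ h ∘ₗ g = f

/-- `W` has a presentation `0 → V₁ × D₁ → V₀ × D₀ → W → 0` with `V₁` and `V₀` in `add V`, and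
`D₁`, `D₀` finitely generated with the properties `R₁`, `R₀` -/
def PresR (A : Type) [Ring A] (V W : Type) [AddCommGroup V] [Module A V] [AddCommGroup W]
    [Module A W] (R₁ R₀ : ModuleCat.{0} A → Prop) : Prop :=
  ∃ (V₁ V₀ D₁ D₀ : ModuleCat.{0} A) (a : (V₁ × D₁) →ₗ[A] (V₀ × D₀)) (b : (V₀ × D₀) →ₗ[A] W),
    InAdd A V₁ V ∧ InAdd A V₀ V ∧ Module.Finite A D₁ ∧ Module.Finite A D₀ ∧ R₁ D₁ ∧ R₀ D₀ ∧
    Function.Injective a ∧ Function.Surjective b ∧ LinearMap.range a = LinearMap.ker b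

section
variable {A : Type} [Ring A]

theorem StZ.factor {D X P : Type} [AddCommGroup D] [Module A D] [AddCommGroup X] [Module A X]
    [AddCommGroup P] [Module A P] (h : StZ A D X) (p : P →ₗ[A] X) (hp : Function.Surjective p)
    (f : D →ₗ[A] X) : ∃ g : D →ₗ[A] P, p ∘ₗ g = f := by
  obtain ⟨Q, g, h, hQ, rfl⟩ := h f
  obtain ⟨k, hk⟩ := Module.projective_lifting_property p h hp
  exact ⟨k ∘ₗ g, by rw [← LinearMap.comp_assoc, hk]⟩

theorem gam_prod_zero {K V D P Y : Type} [Field K] [Algebra K A] [AddCommGroup V] [Module A V]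
    [AddCommGroup D] [Module A D]
    [AddCommGroup P] [Module K P] [Module A P] [IsScalarTower K A P]
    [AddCommGroup Y] [Module K Y] [Module A Y] [IsScalarTower K A Y]
    (p : P →ₗ[A] Y) (hp : Function.Surjective p) (h : StZ A D Y) :
    gam K (V × D) p = gam K V p := by
  refine LinearEquiv.finrank_eq (LinearEquiv.ofBijective
    (res K (LinearMap.inl A V D) p) ⟨?_, ?_⟩)
  · rw [injective_iff_map_eq_zero]
    intro x hx
    obtain ⟨f, rfl⟩ := Submodule.Quotient.mk_surjective _ x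
    have h1 : res K (LinearMap.inl A V D) p (Submodule.Quotient.mk f) =
      Submodule.Quotient.mk (pre K Y (LinearMap.inl A V D) f) := rfl
    rw [h1, Submodule.Quotient.mk_eq_zero] at hx
    obtain ⟨g, hg⟩ := hx
    obtain ⟨g', hg'⟩ := h.factor p hp (f ∘ₗ LinearMap.inr A V D)
    rw [Submodule.Quotient.mk_eq_zero]
    refine ⟨g.coprod g', ?_⟩
    show p ∘ₗ g.coprod g' = f
    refine LinearMap.ext fun x => ?_
    show p (g x.1 + g' x.2) = f x
    have h2 : p (g x.1) = f (x.1, 0) := LinearMap.congr_fun hg x.1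
    have h3 : p (g' x.2) = f (0, x.2) := LinearMap.congr_fun hg' x.2
    rw [map_add, h2, h3, ← map_add, Prod.mk_add_mk, add_zero, zero_add]
  · intro x
    obtain ⟨f, rfl⟩ := Submodule.Quotient.mk_surjective _ x
    refine ⟨Submodule.Quotient.mk (f ∘ₗ LinearMap.fst A V D), ?_⟩
    rfl

/-- a small summand from a factorization -/
theorem small_of_factorD [HasExt.{1} (ModuleCat.{0} A)] {L P X W V₁ D₁ B₀ V : Type}
    [AddCommGroup L] [Module A L]
    [AddCommGroup P] [Module A P] [AddCommGroup X] [Module A X] [AddCommGroup W] [Module A W]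
    [AddCommGroup V₁] [Module A V₁] [AddCommGroup D₁] [Module A D₁]
    [AddCommGroup B₀] [Module A B₀] [AddCommGroup V] [Module A V]
    (hPn : IsNoetherian A P) (hPa : IsArtinian A P) (hP : Module.Projective A P)
    (i : L →ₗ[A] P) (p : P →ₗ[A] X) (hi : Function.Injective i) (hp : Function.Surjective p)
    (hip : LinearMap.range i = LinearMap.ker p)
    (ι : W →ₗ[A] X) (π : X →ₗ[A] W) (hπ : π ∘ₗ ι = LinearMap.id)
    (hW : ¬ Module.Projective A W) (hWL : ∀ (Q : Type) [AddCommGroup Q]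
      [Module A Q], Module.Projective A Q → Module.Finite A Q → Ev A W Q 1)
    (a : (V₁ × D₁) →ₗ[A] B₀) (b : B₀ →ₗ[A] W) (ha : Function.Injective a)
    (hb : Function.Surjective b) (hab : LinearMap.range a = LinearMap.ker b)
    (h : B₀ →ₗ[A] P) (hh : ι ∘ₗ b = p ∘ₗ h) (hV : InAdd A V₁ V) (hD : StZ A D₁ L) {d : ℕ}
    (f : (Fin d → A) →ₗ[A] V) (hf : Function.Surjective f) : SmallNP A d L := by
  have hπ' : ∀ x, π (ι x) = x := fun x => LinearMap.congr_fun hπ x
  have hh' : ∀ v, ι (b v) = p (h v) := fun v => LinearMap.congr_fun hh v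
  let p' : P →ₗ[A] W := π ∘ₗ p
  have hp' : Function.Surjective p' := by
    intro x
    obtain ⟨y, hy⟩ := hp (ι x)
    exact ⟨y, by show π (p y) = x; rw [hy, hπ']⟩
  have hph : ∀ v, p' (h v) = b v := by
    intro v
    show π (p (h v)) = b v
    rw [← hh', hπ']
  obtain ⟨k, hk⟩ := Module.projective_lifting_property b p' hb
  have hk' : ∀ y, b (k y) = p' y := fun y => LinearMap.congr_fun hk y
  obtain ⟨et, het⟩ := Module.projective_lifting_property p ((ι ∘ₗ π) ∘ₗ p) hp
  have het' : ∀ y, p (et y) = ι (π (p y)) := fun y => LinearMap.congr_fun het y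
  -- the maps
  let e₁ := LinearEquiv.ofInjective i hi
  have hmem1 : ∀ y : LinearMap.ker p', et y ∈ LinearMap.range i := by
    intro y
    rw [hip, LinearMap.mem_ker, het']
    have : π (p (y : P)) = 0 := LinearMap.mem_ker.1 y.2
    rw [this, map_zero]
  let e : LinearMap.ker p' →ₗ[A] L := e₁.symm.toLinearMap ∘ₗ
    (et ∘ₗ (LinearMap.ker p').subtype).codRestrict (LinearMap.range i) hmem1
  have he : ∀ y : LinearMap.ker p', i (e y) = et y := fun y =>
    congrArg Subtype.val (e₁.apply_symm_apply ⟨et y, hmem1 y⟩)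
  let j : L →ₗ[A] LinearMap.ker p' := i.codRestrict (LinearMap.ker p') fun y => by
    have h1 : i y ∈ LinearMap.ker p := hip ▸ LinearMap.mem_range_self _ _
    show π (p (i y)) = 0
    rw [LinearMap.mem_ker.1 h1, map_zero]
  let z' : P →ₗ[A] LinearMap.ker p' := (LinearMap.id - et).codRestrict (LinearMap.ker p')
    fun y => by
      show π (p (y - et y)) = 0
      rw [map_sub, map_sub, het', hπ', sub_self]
  have hmem2 : ∀ y : LinearMap.ker p', k y ∈ LinearMap.range a := by
    intro y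
    rw [hab, LinearMap.mem_ker, hk']
    exact LinearMap.mem_ker.1 y.2
  let e₂ := LinearEquiv.ofInjective a ha
  let w : LinearMap.ker p' →ₗ[A] (V₁ × D₁) := e₂.symm.toLinearMap ∘ₗ
    (k ∘ₗ (LinearMap.ker p').subtype).codRestrict (LinearMap.range a) hmem2
  have hw : ∀ y : LinearMap.ker p', a (w y) = k y := fun y =>
    congrArg Subtype.val (e₂.apply_symm_apply ⟨k y, hmem2 y⟩)
  let u : (V₁ × D₁) →ₗ[A] LinearMap.ker p' := (h ∘ₗ a).codRestrict (LinearMap.ker p') fun v => by
    show p' (h (a v)) = 0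
    rw [hph]
    have h1 : a v ∈ LinearMap.ker b := hab ▸ LinearMap.mem_range_self _ _
    exact LinearMap.mem_ker.1 h1
  let z : P →ₗ[A] LinearMap.ker p' := (LinearMap.id - h ∘ₗ k).codRestrict (LinearMap.ker p')
    fun y => by
      show p' (y - h (k y)) = 0
      rw [map_sub, hph, hk', sub_self]
  have hL' : ¬ Module.Projective A (LinearMap.ker p') := by
    intro hproj
    have hfin : Module.Finite A (LinearMap.ker p') := inferInstance
    have hE := hWL (LinearMap.ker p') hproj hfin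
    obtain ⟨g, hg⟩ := ses_lift (LinearMap.ker p').subtype p' (Submodule.injective_subtype _) hp'
      (Submodule.range_subtype _) hE LinearMap.id
    exact hW (proj_of_retract hP g p' hg.symm)
  have k1 : ∀ y : LinearMap.ker p', j (e y) + z' (y : P) = y := by
    intro y
    refine Subtype.ext ?_
    show i (e y) + ((y : P) - et y) = y
    rw [he]
    abel
  have k2 : ∀ y : LinearMap.ker p', u (w y) + z (y : P) = y := by
    intro y
    refine Subtype.ext ?_
    show h (a (w y)) + ((y : P) - h (k y)) = y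
    rw [hw]
    abel
  -- the component at `D₁`
  obtain ⟨Q, g', h', hQ, hgh⟩ := hD (e ∘ₗ u ∘ₗ LinearMap.inr A V₁ D₁)
  have hgh' : ∀ x, h' (g' x) = e (u (0, x)) := fun x => LinearMap.congr_fun hgh x
  have hPP : Module.Projective A (P × (Q × P)) := inferInstance
  let s := (LinearMap.ker p').subtype
  let uD : D₁ →ₗ[A] LinearMap.ker p' := u ∘ₗ LinearMap.inr A V₁ D₁
  refine small_of_two (P := P × (Q × P)) (L' := LinearMap.ker p') (L := L) (V₁ := V₁) (V := V)
    hPP hL' e j
    (s.prod ((g' ∘ₗ LinearMap.snd A V₁ D₁ ∘ₗ w).prod (s ∘ₗ uD ∘ₗ LinearMap.snd A V₁ D₁ ∘ₗ w)))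
    (LinearMap.inl A P (Q × P) ∘ₗ s)
    (z.coprod ((j ∘ₗ h').coprod z')) (z' ∘ₗ LinearMap.fst A P (Q × P))
    (LinearMap.fst A V₁ D₁ ∘ₗ w) (u ∘ₗ LinearMap.inl A V₁ D₁)
    ?_ ?_ hV f hf
  · refine LinearMap.ext fun y => ?_
    exact k1 y
  · refine LinearMap.ext fun y => ?_
    show u ((w y).1, 0) + (z (y : P) + (j (h' (g' (w y).2)) + z' ((u (0, (w y).2) :
      LinearMap.ker p') : P))) = y
    rw [hgh', k1 (u (0, (w y).2)), add_comm (z (y : P)), ← add_assoc, ← map_add, Prod.mk_add_mk,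
      add_zero, zero_add]
    exact k2 y

end

/-- the main theorem: the syzygies of `Z 0` have non-projective summands with a presentation in
`add V`, up to modules without stable homomorphisms to the syzygies, only finitely often -/
theorem finite_goodD (K : Type) {A : Type} [Field K] [Ring A] [Algebra K A]
    [FiniteDimensional K A] [HasExt.{1} (ModuleCat.{0} A)] {Z : ℕ → Type}
    [∀ n, AddCommGroup (Z n)] [∀ n, Module A (Z n)] (hZ : ∀ n, Syz A (Z n) (Z (n + 1)))
    (h1 : EV A (Z 0) (Z 0)) (h2 : EV A (Z 0) A) (V : Type) [AddCommGroup V] [Module A V]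
    (hVf : Module.Finite A V) : {n | ∃ W W' : Submodule A (Z n), IsCompl W W' ∧
      ¬ Module.Projective A W ∧ PresR A V W (fun D => ∀ k, k ≤ n + 1 → StZ A D (Z k))
      (fun D => ∀ k, k ≤ n → StZ A D (Z k))}.Finite := by
  classical
  have hArt : IsArtinianRing A := IsArtinianRing.of_finite K A
  by_contra hinf
  let G : Set ℕ := {n | ∃ W W' : Submodule A (Z n), IsCompl W W' ∧
      ¬ Module.Projective A W ∧ PresR A V W (fun D => ∀ k, k ≤ n + 1 → StZ A D (Z k))
      (fun D => ∀ k, k ≤ n → StZ A D (Z k))}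
  have hinf' : G.Infinite := hinf
  obtain ⟨d, f, hf⟩ := Module.Finite.exists_fin' A V
  -- the decomposition of `V`
  obtain ⟨N, hN⟩ : ∃ n : ℕ, Module.length A V ≤ n := by
    obtain ⟨n, hn⟩ := ENat.ne_top_iff_exists.1 (Module.length_ne_top (R := A) (M := V))
    exact ⟨n, hn.ge⟩
  obtain ⟨J, _, M, ρ, v, hsum, hM⟩ := exists_decomp (A := A) N V hN
  have hMf : ∀ j, Module.Finite A (M j) := fun j =>
    Module.Finite.of_surjective (ρ j) fun y => ⟨v j y, LinearMap.congr_fun (hM j).2 y⟩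
  -- projective modules
  choose P i p hPp hPf hi hp hip using hZ
  have hZf : ∀ n, Module.Finite A (Z n) := fun n => Module.Finite.of_surjective (p n) (hp n)
  have hZ' : ∀ n, Syz A (Z n) (Z (n + 1)) := fun n =>
    ⟨P n, i n, p n, hPp n, hPf n, hi n, hp n, hip n⟩
  -- structures over `K`
  let _k1 : ∀ n, Module K (Z n) := fun n => Module.compHom (Z n) (algebraMap K A)
  have _k2 : ∀ n, IsScalarTower K A (Z n) := fun n => by
    refine ⟨fun c a m => ?_⟩
    change (c • a) • m = (algebraMap K A c) • (a • m)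
    rw [Algebra.smul_def, mul_smul]
  let _k3 : ∀ n, Module K (P n) := fun n => Module.compHom (P n) (algebraMap K A)
  have _k4 : ∀ n, IsScalarTower K A (P n) := fun n => by
    refine ⟨fun c a m => ?_⟩
    change (c • a) • m = (algebraMap K A c) • (a • m)
    rw [Algebra.smul_def, mul_smul]
  have hKA : Module.Finite K A := inferInstance
  have hZk : ∀ n, FiniteDimensional K (Z n) := fun n => Module.Finite.trans A (Z n)
  have hPk : ∀ n, FiniteDimensional K (P n) := fun n => Module.Finite.trans A (P n)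
  -- the summands
  choose! W W' hc hnp V₁ V₀ D₁ D₀ a b hV₁ hV₀ hDf₁ hDf₀ hD₁ hD₀ ha hb hab using
    fun (n : ℕ) (hn : n ∈ G) => hn
  have hπ : ∀ n ∈ G, ∃ r : Z n →ₗ[A] W n, r ∘ₗ (W n).subtype = LinearMap.id := by
    intro n hn
    refine ⟨Submodule.projectionOnto (W n) (W' n) (hc n hn), ?_⟩
    exact Submodule.projectionOnto_comp_subtype (hc n hn)
  choose! π hπ using hπ
  have hfin : ∀ X : ModuleCat.{0} A, InAdd A X V → Module.Finite A X := fun X hX => hX.finite hVf
  have hdec : ∀ X : ModuleCat.{0} A, InAdd A X V → ∃ (t : ℕ) (c : Fin t → J),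
      Nonempty (X ≃ₗ[A] (∀ k, M (c k))) := by
    intro X hX
    have := hfin X hX
    obtain ⟨n, hn⟩ := ENat.ne_top_iff_exists.1 (Module.length_ne_top (R := A) (M := X))
    exact exists_iso M ρ v hsum (fun j => (hM j).1) n X hn.ge hX
  have hdec' : ∀ (X : ℕ → ModuleCat.{0} A),
      (∀ n ∈ G, InAdd A (X n) V) → ∀ n, ∃ (t : ℕ) (c : Fin t → J),
      n ∈ G → Nonempty (X n ≃ₗ[A] (∀ k, M (c k))) := by
    intro X hX n
    by_cases hn : n ∈ G
    · obtain ⟨t, c, e⟩ := hdec (X n) (hX n hn)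
      exact ⟨t, c, fun _ => e⟩
    · exact ⟨0, Fin.elim0, fun h => absurd h hn⟩
  choose t₁ c₁ e₁ using hdec' V₁ hV₁
  choose t₀ c₀ e₀ using hdec' V₀ hV₀
  let x : ℕ → J → ℚ := fun n j => ((Finset.univ.filter fun k => c₀ n k = j).card : ℚ) -
    ((Finset.univ.filter fun k => c₁ n k = j).card : ℚ)
  let ψ : ℕ → J → ℚ := fun n j => (gam K (M j) (p n) : ℚ)
  have hgam : ∀ (X : ModuleCat.{0} A) (n t : ℕ) (c : Fin t → J), Module.Finite A X →
      Nonempty (X ≃ₗ[A] (∀ k, M (c k))) → (gam K X (p n) : ℚ) =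
      ∑ j, (gam K (M j) (p n) : ℚ) * ((Finset.univ.filter fun k => c k = j).card : ℚ) := by
    intro X n t c hX ⟨e⟩
    have g1 := gam_congr (K := K) e hX (hPk n) (hZk n) (i n) (p n) (hi n) (hip n)
    have g2 := gam_pi (K := K) (fun k => M (c k)) (fun k => hMf _) (hPk n) (hZk n) (i n) (p n)
      (hi n) (hip n)
    rw [g1, g2]
    exact sum_fiber c fun j => gam K (M j) (p n)
  have hval : ∀ n, ∀ m ∈ G, n ≤ m → ∑ j, ψ n j * x m j =
      (gam K (V₀ m × D₀ m) (p n) : ℚ) - (gam K (V₁ m × D₁ m) (p n) : ℚ) := by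
    intro n m hm hnm
    rw [gam_prod_zero (p n) (hp n) (hD₀ m hm n hnm),
      gam_prod_zero (p n) (hp n) (hD₁ m hm n (by omega)),
      hgam (V₀ m) n (t₀ m) (c₀ m) (hfin _ (hV₀ m hm)) (e₀ m hm),
      hgam (V₁ m) n (t₁ m) (c₁ m) (hfin _ (hV₁ m hm)) (e₁ m hm), ← Finset.sum_sub_distrib]
    refine Finset.sum_congr rfl fun j _ => ?_
    show _ * (_ - _) = _
    ring
  -- vanishing
  have hEV : ∀ n m, n ≤ m → EV A (Z m) (Z n) := by
    intro n m hnm
    obtain ⟨k, rfl⟩ : ∃ k, m = n + k := ⟨m - n, by omega⟩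
    exact h1_down hZ' n k (syz_ev_all hZ' h1 h2 n).1
  have hEA : ∀ n, EV A (Z n) A := fun n => (syz_ev_all hZ' h1 h2 n).2
  have hEP : ∀ n (Q : Type) [AddCommGroup Q] [Module A Q], Module.Projective A Q →
      Module.Finite A Q → EV A (Z n) Q := fun n Q _ _ hQ hQf =>
    (hEA n).add_right (inAdd_of_projective hQ hQf)
  have hWadd : ∀ n ∈ G, InAdd A (W n) (Z n) := fun n hn =>
    InAdd.of_retract _ (π n) (hπ n hn)
  have hlt : ∀ n ∈ G, ∀ m ∈ G, n < m → ∑ j, ψ n j * x m j = 0 := by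
    intro n hn m hm hnm
    rw [hval n m hm hnm.le]
    have h3 : gam K (V₀ m × D₀ m) (p n) = gam K (V₁ m × D₁ m) (p n) := by
      refine gam_eq_of (a m) (b m) (ha m hm) (hb m hm) (hab m hm) (p n)
        (((hEV n m hnm.le).add_left (hWadd m hm)) 1 le_rfl)
        (((hEP m (P n) (hPp n) (hPf n)).add_left (hWadd m hm)) 1 le_rfl) ?_
      intro g
      obtain ⟨g', hg'⟩ := ses_lift (i n) (p n) (hi n) (hp n) (hip n)
        (hEV (n + 1) m hnm 1 le_rfl) (g ∘ₗ π m)
      refine ⟨g' ∘ₗ (W m).subtype ∘ₗ b m, ?_⟩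
      have h4 : g = (g ∘ₗ π m) ∘ₗ (W m).subtype := by
        rw [LinearMap.comp_assoc, hπ m hm, LinearMap.comp_id]
      rw [h4, hg']
      rfl
    rw [h3, sub_self]
  -- the indices where the functional vanishes
  let S₀ : Set ℕ := {n | n ∈ G ∧ ∑ j, ψ n j * x n j = 0}
  have hS₀ : ∀ n ∈ S₀, SmallNP A d (Z (n + 1)) := by
    rintro n ⟨hn, h0⟩
    rw [hval n n hn le_rfl, sub_eq_zero] at h0
    have h0' : gam K (V₀ n × D₀ n) (p n) = gam K (V₁ n × D₁ n) (p n) := by exact_mod_cast h0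
    have f1 : Module.Finite A (V₀ n) := hfin _ (hV₀ n hn)
    have f2 : Module.Finite A (D₀ n) := hDf₀ n hn
    obtain ⟨h, hh⟩ := lift_of_gam (K := K) (a n) (b n) (ha n hn) (hb n hn) (hab n hn) (p n)
      inferInstance (hZk n) (((hEV n n le_rfl).add_left (hWadd n hn)) 1 le_rfl) h0'
      (W n).subtype
    have hWQ : ∀ (Q : Type) [AddCommGroup Q] [Module A Q], Module.Projective A Q →
        Module.Finite A Q → Ev A (W n) Q 1 := fun Q _ _ hQ hQf =>
      ((hEP n Q hQ hQf).add_left (hWadd n hn)) 1 le_rfl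
    exact small_of_factorD inferInstance inferInstance (hPp n) (i n) (p n) (hi n) (hp n) (hip n)
      (W n).subtype (π n) (hπ n hn) (hnp n hn) hWQ (a n) (b n)
      (ha n hn) (hb n hn) (hab n hn) h hh (hV₁ n hn) (hD₁ n hn (n + 1) le_rfl) f hf
  have hfinS₀ : S₀.Finite := by
    have h5 := finite_np K hZ' h1 h2 d
    have h6 : (fun n => n + 1) '' S₀ ⊆ {n | SmallNP A d (Z n)} := by
      rintro _ ⟨n, hn, rfl⟩
      exact hS₀ n hn
    exact Set.Finite.of_finite_image (h5.subset h6) (fun a _ b _ h => Nat.succ_injective h)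
  have hrest : (G \ S₀).Infinite := hinf'.sdiff hfinS₀
  refine no_triangular hrest x ψ (fun n hn m hm => hlt n hn.1 m hm.1) fun n hn h => ?_
  exact hn.2 ⟨hn.1, h⟩

end RGS
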