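import Pool.Agent.RGS.D0

/-!
# [RGS-K1] indecomposable modules
-/

set_option autoImplicit false

open CategoryTheory NTC

namespace RGS

variable {A : Type} [Ring A]

/-- indecomposable modules -/
def Ind (A : Type) [Ring A] (M : Type) [AddCommGroup M] [Module A M] : Prop :=
  Nontrivial M ∧ ∀ M₁ M₂ : Submodule A M, IsCompl M₁ M₂ → M₁ = ⊥ ∨ M₂ = ⊥

/-- Fitting -/
theorem bij_or_nil {M : Type} [AddCommGroup M] [Module A M] [IsNoetherian A M] [IsArtinian A M]
    (hind : ∀ M₁ M₂ : Submodule A M, IsCompl M₁ M₂ → M₁ = ⊥ ∨ M₂ = ⊥)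
    (f : M →ₗ[A] M) : Function.Bijective f ∨ ∃ m, f ^ m = 0 := by
  obtain ⟨m, hm⟩ := (LinearMap.eventually_isCompl_ker_pow_range_pow f).exists_forall_of_atTop
  have h1 := hm (m + 1) (by omega)
  rcases hind _ _ h1 with h | h
  · left
    have hinj : Function.Injective (f ^ (m + 1)) := LinearMap.ker_eq_bot.1 h
    have hfi : Function.Injective f := by
      have : f ^ (m + 1) = f ^ m * f := pow_succ f m
      rw [this] at hinj
      exact Function.Injective.of_comp (f := (f ^ m : M →ₗ[A] M)) hinj
    exact IsArtinian.bijective_of_injective_endomorphism f hfi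
  · right
    exact ⟨m + 1, LinearMap.range_eq_bot.1 h⟩

/-- if a finite sum of endomorphisms of an indecomposable module is bijective then so is one of
them -/
theorem fit {M : Type} [AddCommGroup M] [Module A M] [IsNoetherian A M] [IsArtinian A M]
    (hi : Ind A M) {J : Type} (s : Finset J) (f : J → (M →ₗ[A] M))
    (hf : IsUnit (∑ k ∈ s, f k : Module.End A M)) : ∃ k ∈ s, Function.Bijective (f k) := by
  classical
  induction s using Finset.induction_on generalizing f with
  | empty =>
    exfalso
    rw [Finset.sum_empty] at hf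
    obtain ⟨x, y, hxy⟩ := hi.1
    have h := ((Module.End.isUnit_iff _).1 hf).1
    exact hxy (h (by simp))
  | insert a s ha ih =>
    by_cases h0 : Function.Bijective (f a)
    · exact ⟨a, Finset.mem_insert_self a s, h0⟩
    · rw [Finset.sum_insert ha] at hf
      obtain ⟨u, hu⟩ := hf
      have h1 : ¬ Function.Bijective ((↑u⁻¹ : Module.End A M) * f a : Module.End A M) := by
        intro hb
        apply h0
        have h2 : IsUnit ((↑u⁻¹ : Module.End A M) * f a : Module.End A M) :=
          (Module.End.isUnit_iff _).2 hb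
        have h3 : IsUnit ((f a : Module.End A M)) := by
          have : (f a : Module.End A M) = (u : Module.End A M) * ((↑u⁻¹ : Module.End A M) * f a) := by
            rw [← mul_assoc, Units.mul_inv, one_mul]
          rw [this]
          exact u.isUnit.mul h2
        exact (Module.End.isUnit_iff _).1 h3
      rcases bij_or_nil hi.2 ((↑u⁻¹ : Module.End A M) * f a : Module.End A M) with h2 | h2
      · exact absurd h2 h1
      · have h3 : IsUnit (1 - (↑u⁻¹ : Module.End A M) * f a) := IsNilpotent.isUnit_one_sub h2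
        have h4 : (∑ k ∈ s, f k : Module.End A M) =
            (u : Module.End A M) * (1 - (↑u⁻¹ : Module.End A M) * f a) := by
          rw [mul_sub, mul_one, ← mul_assoc, Units.mul_inv, one_mul, hu]
          abel
        have h5 : IsUnit (∑ k ∈ s, f k : Module.End A M) := by
          rw [h4]
          exact u.isUnit.mul h3
        obtain ⟨k, hk, hkb⟩ := ih f h5
        exact ⟨k, Finset.mem_insert_of_mem hk, hkb⟩

/-- an indecomposable module which is a summand of a direct sum is a summand of a summand -/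
theorem ind_retract {Y : Type} [AddCommGroup Y] [Module A Y] [IsNoetherian A Y] [IsArtinian A Y]
    (hY : Ind A Y) {J : Type} [Fintype J] (N : J → Type) [∀ j, AddCommGroup (N j)]
    [∀ j, Module A (N j)] (ι : ∀ j, Y →ₗ[A] N j) (r : ∀ j, N j →ₗ[A] Y)
    (h : ∑ j, r j ∘ₗ ι j = LinearMap.id) : ∃ j, Function.Bijective (r j ∘ₗ ι j) := by
  obtain ⟨k, -, hk⟩ := fit hY Finset.univ (fun j => r j ∘ₗ ι j) (by
    have h1 : (∑ k, r k ∘ₗ ι k : Module.End A Y) = 1 := h
    rw [h1]
    exact isUnit_one)
  exact ⟨k, hk⟩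

/-- a retraction from a bijective composite -/
theorem retract_of_bij {Y N : Type} [AddCommGroup Y] [Module A Y] [AddCommGroup N] [Module A N]
    (ι : Y →ₗ[A] N) (r : N →ₗ[A] Y) (h : Function.Bijective (r ∘ₗ ι)) :
    ∃ r' : N →ₗ[A] Y, r' ∘ₗ ι = LinearMap.id := by
  let e := LinearEquiv.ofBijective (r ∘ₗ ι) h
  refine ⟨e.symm.toLinearMap ∘ₗ r, LinearMap.ext fun y => ?_⟩
  exact e.symm_apply_apply y

/-- complements from retractions -/
theorem isCompl_of_retract {Y N : Type} [AddCommGroup Y] [Module A Y] [AddCommGroup N] [Module A N]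
    (u : Y →ₗ[A] N) (r : N →ₗ[A] Y) (h : r ∘ₗ u = LinearMap.id) :
    IsCompl (LinearMap.range u) (LinearMap.ker r) := by
  have h' : ∀ y, r (u y) = y := fun y => LinearMap.congr_fun h y
  constructor
  · rw [Submodule.disjoint_def]
    rintro _ ⟨y, rfl⟩ hy
    have : y = 0 := by rw [← h' y]; exact hy
    rw [this, map_zero]
  · rw [codisjoint_iff, Submodule.eq_top_iff']
    intro x
    refine Submodule.mem_sup.2 ⟨u (r x), ⟨_, rfl⟩, x - u (r x), ?_, by abel⟩
    rw [LinearMap.mem_ker, map_sub, h', sub_self]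

/-- a nonzero retract of an indecomposable module is everything -/
theorem ind_iso {Y N : Type} [AddCommGroup Y] [Module A Y] [AddCommGroup N] [Module A N]
    (hY : Nontrivial Y) (hN : Ind A N) (u : Y →ₗ[A] N) (r : N →ₗ[A] Y)
    (h : r ∘ₗ u = LinearMap.id) : Function.Bijective u := by
  have h' : ∀ y, r (u y) = y := fun y => LinearMap.congr_fun h y
  have hc := isCompl_of_retract u r h
  have hinj : Function.Injective u := Function.LeftInverse.injective h'
  refine ⟨hinj, ?_⟩
  rcases hN.2 _ _ hc with h1 | h1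
  · exfalso
    obtain ⟨x, y, hxy⟩ := hY
    apply hxy
    rw [LinearMap.range_eq_bot] at h1
    rw [← h' x, ← h' y, h1]
    rfl
  · have h2 : LinearMap.range u = ⊤ := by
      have := hc.sup_eq_top
      rwa [h1, sup_bot_eq] at this
    exact LinearMap.range_eq_top.1 h2

/-- every module of finite length without a property has an indecomposable summand without it -/
theorem exists_ind (P : ∀ (N : Type) [AddCommGroup N] [Module A N], Prop)
    (h0 : ∀ (N : Type) [AddCommGroup N] [Module A N], Subsingleton N → P N)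
    (hiso : ∀ (N N' : Type) [AddCommGroup N] [Module A N] [AddCommGroup N'] [Module A N'],
      (N ≃ₗ[A] N') → P N → P N')
    (hprod : ∀ (N N' : Type) [AddCommGroup N] [Module A N] [AddCommGroup N'] [Module A N'],
      P N → P N' → P (N × N')) (n : ℕ) :
    ∀ (M : Type) [AddCommGroup M] [Module A M] [IsNoetherian A M] [IsArtinian A M],
      Module.length A M ≤ n → ¬ P M → ∃ (Y : Type) (_ : AddCommGroup Y) (_ : Module A Y)
        (u : Y →ₗ[A] M) (r : M →ₗ[A] Y), r ∘ₗ u = LinearMap.id ∧ Ind A Y ∧ ¬ P Y := by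
  induction n with
  | zero =>
    intro M _ _ _ _ hl hP
    exfalso
    apply hP
    apply h0
    rw [← Module.length_eq_zero_iff (R := A)]
    simpa using hl
  | succ n ih =>
    intro M _ _ _ _ hl hP
    by_cases hI : Ind A M
    · exact ⟨M, _, _, LinearMap.id, LinearMap.id, rfl, hI, hP⟩
    · have hnt : Nontrivial M := by
        by_contra hM
        rw [not_nontrivial_iff_subsingleton] at hM
        exact hP (h0 M hM)
      have h2 : ∃ M₁ M₂ : Submodule A M, IsCompl M₁ M₂ ∧ M₁ ≠ ⊥ ∧ M₂ ≠ ⊥ := by
        by_contra hcon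
        push Not at hcon
        apply hI
        refine ⟨hnt, fun M₁ M₂ h => ?_⟩
        by_cases h3 : M₁ = ⊥
        · exact Or.inl h3
        · exact Or.inr (hcon M₁ M₂ h h3)
      obtain ⟨M₁, M₂, hc, h3, h4⟩ := h2
      have key : ∀ M₁ M₂ : Submodule A M, IsCompl M₁ M₂ → M₂ ≠ ⊥ → ¬ P M₁ →
          ∃ (Y : Type) (_ : AddCommGroup Y) (_ : Module A Y)
            (u : Y →ₗ[A] M) (r : M →ₗ[A] Y), r ∘ₗ u = LinearMap.id ∧ Ind A Y ∧ ¬ P Y := by
        intro M₁ M₂ hc h4 hP1
        have h5 : M₁ ≠ ⊤ := by
          rintro rfl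
          apply h4
          have := hc.inf_eq_bot
          rwa [top_inf_eq] at this
        have h6 : Module.length A M₁ < Module.length A M := Submodule.length_lt h5
        have h7 : Module.length A M₁ ≤ n := by
          have h8 : Module.length A M₁ < (n : ℕ∞) + 1 := lt_of_lt_of_le h6 (by simpa using hl)
          exact Order.le_of_lt_add_one h8
        obtain ⟨Y, _, _, u, r, hru, hYi, hYP⟩ := ih M₁ h7 hP1
        refine ⟨Y, _, _, M₁.subtype ∘ₗ u, r ∘ₗ Submodule.projectionOnto M₁ M₂ hc, ?_,
          hYi, hYP⟩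
        refine LinearMap.ext fun y => ?_
        show r (Submodule.projectionOnto M₁ M₂ hc (u y)) = y
        rw [Submodule.projectionOnto_apply_left]
        exact LinearMap.congr_fun hru y
      by_cases hP1 : P M₁
      · have hP2 : ¬ P M₂ := by
          intro hP2
          exact hP (hiso _ _ (Submodule.prodEquivOfIsCompl M₁ M₂ hc) (hprod _ _ hP1 hP2))
        exact key M₂ M₁ hc.symm h3 hP2
      · exact key M₁ M₂ hc h4 hP1

end RGS
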