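import Pool.Agent.RGS.K1

/-!
# [RGS-K2] Krull-Schmidt: the modules in `add V`
-/

set_option autoImplicit false

open CategoryTheory NTC

namespace RGS

variable {A : Type} [Ring A]

/-- a nonzero module of finite length has an indecomposable direct summand -/
theorem exists_ind_nontrivial (M : Type) [AddCommGroup M] [Module A M] [IsNoetherian A M]
    [IsArtinian A M] (h : Nontrivial M) :
    ∃ (Y : Type) (_ : AddCommGroup Y) (_ : Module A Y) (u : Y →ₗ[A] M) (r : M →ₗ[A] Y),
      r ∘ₗ u = LinearMap.id ∧ Ind A Y := by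
  obtain ⟨n, hn⟩ : ∃ n : ℕ, Module.length A M ≤ n := by
    obtain ⟨n, hn⟩ := ENat.ne_top_iff_exists.1 (Module.length_ne_top (R := A) (M := M))
    exact ⟨n, hn.ge⟩
  obtain ⟨Y, i1, i2, u, r, h1, h2, -⟩ := exists_ind (A := A) (fun N _ _ => Subsingleton N)
    (fun N _ _ h => h) (fun N N' _ _ _ _ e h => e.symm.toEquiv.subsingleton)
    (fun N N' _ _ _ _ h h' => inferInstance) n M hn (not_subsingleton_iff_nontrivial.2 h)
  exact ⟨Y, i1, i2, u, r, h1, h2⟩

/-- trivial modules are isomorphic -/
def subEquiv (N N' : Type) [AddCommGroup N] [Module A N] [AddCommGroup N'] [Module A N']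
    [Subsingleton N] [Subsingleton N'] : N ≃ₗ[A] N' where
  toFun _ := 0
  map_add' _ _ := Subsingleton.elim _ _
  map_smul' _ _ := Subsingleton.elim _ _
  invFun _ := 0
  left_inv _ := Subsingleton.elim _ _
  right_inv _ := Subsingleton.elim _ _

/-- splitting off a retract -/
theorem split_retract {Y M : Type} [AddCommGroup Y] [Module A Y] [AddCommGroup M] [Module A M]
    (u : Y →ₗ[A] M) (r : M →ₗ[A] Y) (h : r ∘ₗ u = LinearMap.id) :
    Nonempty ((Y × LinearMap.ker r) ≃ₗ[A] M) := by
  have h' : ∀ y, r (u y) = y := fun y => LinearMap.congr_fun h y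
  refine ⟨{ toFun := fun p => u p.1 + p.2
            map_add' := fun p q => by
              show u (p.1 + q.1) + ((p.2 + q.2 : LinearMap.ker r) : M) = _
              rw [map_add, Submodule.coe_add]
              abel
            map_smul' := fun a p => by
              show u (a • p.1) + ((a • p.2 : LinearMap.ker r) : M) = a • (u p.1 + p.2)
              rw [map_smul, Submodule.coe_smul, smul_add]
            invFun := fun x => (r x, ⟨x - u (r x), by
              rw [LinearMap.mem_ker, map_sub, h', sub_self]⟩)
            left_inv := fun p => ?_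
            right_inv := fun x => ?_ }⟩
  · have hp : r (p.2 : M) = 0 := LinearMap.mem_ker.1 p.2.2
    have h1 : r (u p.1 + p.2) = p.1 := by rw [map_add, h', hp, add_zero]
    refine Prod.ext h1 (Subtype.ext ?_)
    show u p.1 + p.2 - u (r (u p.1 + p.2)) = p.2
    rw [h1]
    abel
  · show u (r x) + (x - u (r x)) = x
    abel

/-- the length drops -/
theorem length_ker_lt {Y M : Type} [AddCommGroup Y] [Module A Y] [AddCommGroup M] [Module A M]
    [IsNoetherian A M] [IsArtinian A M]
    (u : Y →ₗ[A] M) (r : M →ₗ[A] Y) (h : r ∘ₗ u = LinearMap.id) (hY : Nontrivial Y) (n : ℕ)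
    (hn : Module.length A M ≤ (n + 1 : ℕ)) : Module.length A (LinearMap.ker r) ≤ n := by
  have h5 : LinearMap.ker r ≠ ⊤ := by
    intro h1
    obtain ⟨x, y, hxy⟩ := hY
    apply hxy
    rw [LinearMap.ker_eq_top] at h1
    have h2 : ∀ y, r (u y) = y := fun y => LinearMap.congr_fun h y
    rw [← h2 x, ← h2 y, h1]
    rfl
  have h6 : Module.length A (LinearMap.ker r) < Module.length A M := Submodule.length_lt h5
  have h8 : Module.length A (LinearMap.ker r) < (n : ℕ∞) + 1 :=
    lt_of_lt_of_le h6 (by simpa using hn)
  exact Order.le_of_lt_add_one h8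

/-- decomposition into indecomposables -/
theorem exists_decomp (n : ℕ) : ∀ (V : Type) [AddCommGroup V] [Module A V] [IsNoetherian A V]
    [IsArtinian A V], Module.length A V ≤ n → ∃ (J : Type) (_ : Fintype J)
      (M : J → ModuleCat.{0} A) (ρ : ∀ j, V →ₗ[A] M j) (u : ∀ j, M j →ₗ[A] V),
      (∑ j, u j ∘ₗ ρ j = LinearMap.id) ∧ ∀ j, Ind A (M j) ∧ ρ j ∘ₗ u j = LinearMap.id := by
  induction n with
  | zero =>
    intro V _ _ _ _ hl
    have hs : Subsingleton V := by
      rw [← Module.length_eq_zero_iff (R := A)]
      simpa using hl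
    refine ⟨Empty, inferInstance, fun e => e.elim, fun e => e.elim, fun e => e.elim, ?_,
      fun e => e.elim⟩
    refine LinearMap.ext fun x => Subsingleton.elim _ _
  | succ n ih =>
    intro V _ _ _ _ hl
    by_cases hV : Nontrivial V
    · obtain ⟨Y, _, _, u, r, hru, hYi⟩ := exists_ind_nontrivial (A := A) V hV
      obtain ⟨J, _, M, ρ, v, hsum, hM⟩ := ih (LinearMap.ker r) (length_ker_lt u r hru hYi.1 n hl)
      have hru' : ∀ y, r (u y) = y := fun y => LinearMap.congr_fun hru y
      let q : V →ₗ[A] LinearMap.ker r :=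
        (LinearMap.id - u ∘ₗ r).codRestrict (LinearMap.ker r) fun x => by
          show r (x - u (r x)) = 0
          rw [map_sub, hru', sub_self]
      have hq : ∀ x, ((q x : LinearMap.ker r) : V) = x - u (r x) := fun x => rfl
      refine ⟨Option J, inferInstance, fun o => Option.elim o (ModuleCat.of A Y) M,
        fun o => match o with
          | none => r
          | some j => ρ j ∘ₗ q,
        fun o => match o with
          | none => u
          | some j => (LinearMap.ker r).subtype ∘ₗ v j, ?_, ?_⟩
      · rw [Fintype.sum_option]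
        refine LinearMap.ext fun x => ?_
        have h1 := LinearMap.congr_fun hsum (q x)
        rw [LinearMap.sum_apply] at h1
        have h2 : (∑ j, ((LinearMap.ker r).subtype ∘ₗ v j) ∘ₗ (ρ j ∘ₗ q)) x = x - u (r x) := by
          rw [LinearMap.sum_apply, ← hq]
          have h3 := congrArg (LinearMap.ker r).subtype h1
          rw [map_sum] at h3
          exact h3
        show (u ∘ₗ r) x + (∑ j, ((LinearMap.ker r).subtype ∘ₗ v j) ∘ₗ (ρ j ∘ₗ q)) x = x
        rw [h2]
        show u (r x) + (x - u (r x)) = x
        abel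
      · rintro (_ | j)
        · exact ⟨hYi, hru⟩
        · refine ⟨(hM j).1, ?_⟩
          refine LinearMap.ext fun y => ?_
          show ρ j (q (v j y : V)) = y
          have h4 : q (v j y : V) = v j y := by
            apply Subtype.ext
            rw [hq]
            have h5 : r (v j y : V) = 0 := LinearMap.mem_ker.1 (v j y).2
            rw [h5, map_zero, sub_zero]
          rw [h4]
          exact LinearMap.congr_fun (hM j).2 y
    · have hs : Subsingleton V := not_nontrivial_iff_subsingleton.1 hV
      refine ⟨Empty, inferInstance, fun e => e.elim, fun e => e.elim, fun e => e.elim, ?_,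
        fun e => e.elim⟩
      refine LinearMap.ext fun x => Subsingleton.elim _ _

/-- every module in `add V` is a direct sum of the indecomposable summands of `V` -/
theorem exists_iso {V : Type} [AddCommGroup V] [Module A V] {J : Type} [Fintype J]
    (M : J → ModuleCat.{0} A) (ρ : ∀ j, V →ₗ[A] M j) (u : ∀ j, M j →ₗ[A] V)
    (hsum : ∑ j, u j ∘ₗ ρ j = LinearMap.id) (hM : ∀ j, Ind A (M j)) (n : ℕ) :
    ∀ (N : Type) [AddCommGroup N] [Module A N] [IsNoetherian A N] [IsArtinian A N],
      Module.length A N ≤ n → InAdd A N V →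
      ∃ (t : ℕ) (c : Fin t → J), Nonempty (N ≃ₗ[A] (∀ k, M (c k))) := by
  induction n with
  | zero =>
    intro N _ _ _ _ hl _
    have hs : Subsingleton N := by
      rw [← Module.length_eq_zero_iff (R := A)]
      simpa using hl
    exact ⟨0, Fin.elim0, ⟨subEquiv _ _⟩⟩
  | succ n ih =>
    intro N _ _ _ _ hl hNV
    by_cases hN : Nontrivial N
    · obtain ⟨Y, _, _, v, r, hru, hYi⟩ := exists_ind_nontrivial (A := A) N hN
      have hru' : ∀ y, r (v y) = y := fun y => LinearMap.congr_fun hru y
      have : IsNoetherian A Y := isNoetherian_of_surjective r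
        (LinearMap.range_eq_top.2 fun y => ⟨v y, hru' y⟩)
      have : IsArtinian A Y := isArtinian_of_surjective N r fun y => ⟨v y, hru' y⟩
      obtain ⟨a, i, s, his⟩ := (InAdd.of_retract v r hru).trans hNV
      obtain ⟨⟨k, j⟩, hkj⟩ := ind_retract hYi (J := Fin a × J) (fun p => M p.2)
        (fun p => ρ p.2 ∘ₗ i p.1) (fun p => s p.1 ∘ₗ u p.2) (by
          rw [Fintype.sum_prod_type, ← his]
          refine Finset.sum_congr rfl fun k _ => ?_
          refine LinearMap.ext fun y => ?_
          rw [LinearMap.sum_apply]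
          have h1 := LinearMap.congr_fun hsum (i k y)
          rw [LinearMap.sum_apply] at h1
          show ∑ j, s k (u j (ρ j (i k y))) = s k (i k y)
          rw [← map_sum]
          exact congrArg (s k) h1)
      obtain ⟨r', hr'⟩ := retract_of_bij (ρ j ∘ₗ i k) (s k ∘ₗ u j) hkj
      have hbij := ind_iso hYi.1 (hM j) (ρ j ∘ₗ i k) r' hr'
      let eY : Y ≃ₗ[A] M j := LinearEquiv.ofBijective (ρ j ∘ₗ i k) hbij
      have hker : InAdd A (LinearMap.ker r) N := by
        let q : N →ₗ[A] LinearMap.ker r :=
          (LinearMap.id - v ∘ₗ r).codRestrict (LinearMap.ker r) fun x => by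
            show r (x - v (r x)) = 0
            rw [map_sub, hru', sub_self]
        refine InAdd.of_retract (LinearMap.ker r).subtype q (LinearMap.ext fun y => ?_)
        apply Subtype.ext
        show (y : N) - v (r y) = y
        rw [LinearMap.mem_ker.1 y.2, map_zero, sub_zero]
      obtain ⟨t, c, ⟨e⟩⟩ := ih (LinearMap.ker r) (length_ker_lt v r hru hYi.1 n hl)
        (hker.trans hNV)
      obtain ⟨e2⟩ := split_retract v r hru
      let c' : Fin (t + 1) → J := Fin.cons j c
      let e3 : (M j × (∀ k, M (c k))) ≃ₗ[A] (∀ k, M (c' k)) :=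
        Fin.consLinearEquiv A (fun k => M (c' k))
      exact ⟨t + 1, c', ⟨e2.symm.trans ((eY.prodCongr e).trans e3)⟩⟩
    · have hs : Subsingleton N := not_nontrivial_iff_subsingleton.1 hN
      exact ⟨0, Fin.elim0, ⟨subEquiv _ _⟩⟩

end RGS
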