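import Pool.Agent.RGS.F3
import Pool.Agent.NTC.E0b

/-!
# [RGS-M1] modules and points
-/

set_option autoImplicit false

namespace RGS

variable {K A : Type} [Field K] [Ring A] [Algebra K A]

section
variable {W : Type} [AddCommGroup W] [Module K W] [Module A W] [IsScalarTower K A W] {d : ℕ}
  (e : W ≃ₗ[K] (Fin d → K))

/-- the matrix of the action of `a` -/
noncomputable def rho (a : A) : Matrix (Fin d) (Fin d) K :=
  LinearMap.toMatrix' (e.toLinearMap ∘ₗ Algebra.lsmul K K W a ∘ₗ e.symm.toLinearMap)

theorem rho_mulVec (a : A) (v : Fin d → K) : (rho e a).mulVec v = e (a • e.symm v) := by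
  rw [rho, LinearMap.toMatrix'_mulVec]
  rfl

theorem rho_mulVec' (a : A) (w : W) : (rho e a).mulVec (e w) = e (a • w) := by
  rw [rho_mulVec, LinearEquiv.symm_apply_apply]

theorem mat_ext {M N : Matrix (Fin d) (Fin d) K} (h : ∀ v, M.mulVec v = N.mulVec v) : M = N := by
  apply Matrix.toLin'.injective
  refine LinearMap.ext fun v => ?_
  rw [Matrix.toLin'_apply, Matrix.toLin'_apply, h v]

theorem rho_mul (a b : A) : rho e (a * b) = rho e a * rho e b := by
  refine mat_ext fun v => ?_
  rw [← Matrix.mulVec_mulVec, rho_mulVec, rho_mulVec, rho_mulVec, LinearEquiv.symm_apply_apply,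
    mul_smul]

/-- as a linear map -/
noncomputable def rhoL : A →ₗ[K] Matrix (Fin d) (Fin d) K where
  toFun := rho e
  map_add' a b := by
    refine mat_ext fun v => ?_
    rw [Matrix.add_mulVec, rho_mulVec, rho_mulVec, rho_mulVec, add_smul, map_add]
  map_smul' c a := by
    refine mat_ext fun v => ?_
    rw [RingHom.id_apply, Matrix.smul_mulVec, rho_mulVec, rho_mulVec, smul_assoc, map_smul]

end

section
variable [FiniteDimensional K A]

variable (K A) in
/-- the structure constants -/
noncomputable def sc (k l n : Fin (Module.finrank K A)) : K :=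
  (Module.finBasis K A).repr (Module.finBasis K A k * Module.finBasis K A l) n

variable {W : Type} [AddCommGroup W] [Module K W] [Module A W] [IsScalarTower K A W] {d : ℕ}

variable (A) in
/-- the point of a module with a basis -/
noncomputable def pt (e : W ≃ₗ[K] (Fin d → K)) : Pt K (Fin (Module.finrank K A)) d :=
  fun k => rho e (Module.finBasis K A k)

theorem sc_mul (k l : Fin (Module.finrank K A)) :
    Module.finBasis K A k * Module.finBasis K A l =
      ∑ n, sc K A k l n • Module.finBasis K A n :=
  ((Module.finBasis K A).sum_repr _).symm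

theorem isMod_pt (e : W ≃ₗ[K] (Fin d → K)) : IsMod (sc K A) (pt A e) := by
  intro k l
  show rho e _ * rho e _ = ∑ n, sc K A k l n • rho e _
  rw [← rho_mul, sc_mul]
  show rhoL e _ = _
  rw [map_sum]
  refine Finset.sum_congr rfl fun n _ => ?_
  rw [map_smul]
  rfl

theorem iso_of_isoPt {W' : Type} [AddCommGroup W'] [Module K W'] [Module A W']
    [IsScalarTower K A W'] (e : W ≃ₗ[K] (Fin d → K)) (e' : W' ≃ₗ[K] (Fin d → K))
    (h : IsoPt (pt A e) (pt A e')) : Nonempty (W ≃ₗ[A] W') := by
  obtain ⟨T, hT, hk⟩ := h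
  let T' : (Fin d → K) ≃ₗ[K] (Fin d → K) := Matrix.toLinearEquiv' T (T.invertibleOfIsUnitDet hT)
  have hT' : ∀ v, T' v = T.mulVec v := fun v => rfl
  let φ : W ≃ₗ[K] W' := e.trans (T'.trans e'.symm)
  have hφ : ∀ w, φ w = e'.symm (T.mulVec (e w)) := fun w => rfl
  let Δ : A →ₗ[K] (W →ₗ[K] W') :=
    { toFun := fun a => φ.toLinearMap ∘ₗ Algebra.lsmul K K W a -
        Algebra.lsmul K K W' a ∘ₗ φ.toLinearMap
      map_add' := fun a b => by
        refine LinearMap.ext fun w => ?_
        show φ ((a + b) • w) - (a + b) • φ w = (φ (a • w) - a • φ w) + (φ (b • w) - b • φ w)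
        rw [add_smul, add_smul, map_add]
        abel
      map_smul' := fun c a => by
        refine LinearMap.ext fun w => ?_
        show φ ((c • a) • w) - (c • a) • φ w = c • (φ (a • w) - a • φ w)
        rw [smul_assoc, smul_assoc, map_smul, smul_sub] }
  have hΔ : Δ = 0 := by
    refine (Module.finBasis K A).ext fun k => ?_
    refine LinearMap.ext fun w => ?_
    show φ (Module.finBasis K A k • w) - Module.finBasis K A k • φ w = 0
    rw [sub_eq_zero]
    apply e'.injective
    have h1 : e' (φ (Module.finBasis K A k • w)) =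
        T.mulVec ((rho e (Module.finBasis K A k)).mulVec (e w)) := by
      rw [hφ, LinearEquiv.apply_symm_apply, rho_mulVec']
    have h2 : e' (Module.finBasis K A k • φ w) =
        (rho e' (Module.finBasis K A k)).mulVec (T.mulVec (e w)) := by
      rw [← rho_mulVec', hφ, LinearEquiv.apply_symm_apply]
    rw [h1, h2, Matrix.mulVec_mulVec, Matrix.mulVec_mulVec]
    have h3 := hk k
    show (T * pt A e k).mulVec (e w) = (pt A e' k * T).mulVec (e w)
    rw [h3]
  refine ⟨{ toFun := φ, map_add' := fun x y => map_add φ x y, map_smul' := fun a w => ?_,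
            invFun := φ.symm, left_inv := φ.left_inv, right_inv := φ.right_inv }⟩
  have h4 : φ (a • w) - a • φ w = 0 := LinearMap.congr_fun (LinearMap.congr_fun hΔ a) w
  exact sub_eq_zero.1 h4

end

end RGS
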