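import Pool.Agent.RGS.M1

/-!
# [RGS-M2] modules without self-extensions give rigid points
-/

set_option autoImplicit false

open CategoryTheory NTC

namespace RGS

variable {K A : Type} [Field K] [Ring A] [Algebra K A]
variable {W : Type} [AddCommGroup W] [Module K W] [Module A W] [IsScalarTower K A W]

/-- the middle term of the extension given by a derivation `C : A → End(W)` -/
structure EM (C : A →ₗ[K] (W →ₗ[K] W)) where
  /-- first component -/
  fst : W
  /-- second component -/
  snd : W

namespace EM

variable (C : A →ₗ[K] (W →ₗ[K] W))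

@[ext] theorem ext' {x y : EM C} (h1 : x.fst = y.fst) (h2 : x.snd = y.snd) : x = y := by
  cases x; cases y; simp_all

/-- underlying set -/
def eq : EM C ≃ W × W where
  toFun x := (x.fst, x.snd)
  invFun p := ⟨p.1, p.2⟩
  left_inv _ := rfl
  right_inv _ := rfl

instance : AddCommGroup (EM C) := (eq C).addCommGroup

@[simp] theorem add_fst (x y : EM C) : (x + y).fst = x.fst + y.fst := rfl
@[simp] theorem add_snd (x y : EM C) : (x + y).snd = x.snd + y.snd := rfl
@[simp] theorem zero_fst : (0 : EM C).fst = 0 := rfl
@[simp] theorem zero_snd : (0 : EM C).snd = 0 := rfl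

/-- the module structure -/
@[reducible] def mod (hC : ∀ a b w, C (a * b) w = a • C b w + C a (b • w)) : Module A (EM C) where
  smul a x := ⟨a • x.fst + C a x.snd, a • x.snd⟩
  one_smul x := by
    have h1 : C 1 x.snd = 0 := by
      have h2 := hC 1 1 x.snd
      rw [one_mul, one_smul, one_smul] at h2
      exact left_eq_add.1 h2
    refine ext' C ?_ ?_
    · show (1 : A) • x.fst + C 1 x.snd = x.fst
      rw [h1, one_smul, add_zero]
    · show (1 : A) • x.snd = x.snd
      rw [one_smul]
  mul_smul a b x := by
    refine ext' C ?_ ?_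
    · show (a * b) • x.fst + C (a * b) x.snd = a • (b • x.fst + C b x.snd) + C a (b • x.snd)
      rw [hC, smul_add, mul_smul, add_assoc]
    · show (a * b) • x.snd = a • b • x.snd
      rw [mul_smul]
  smul_zero a := by
    refine ext' C ?_ ?_
    · show a • (0 : W) + C a 0 = 0
      rw [smul_zero, map_zero, add_zero]
    · show a • (0 : W) = 0
      rw [smul_zero]
  smul_add a x y := by
    refine ext' C ?_ ?_
    · show a • (x.fst + y.fst) + C a (x.snd + y.snd) =
        (a • x.fst + C a x.snd) + (a • y.fst + C a y.snd)
      rw [smul_add, map_add]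
      abel
    · show a • (x.snd + y.snd) = a • x.snd + a • y.snd
      rw [smul_add]
  add_smul a b x := by
    refine ext' C ?_ ?_
    · show (a + b) • x.fst + C (a + b) x.snd =
        (a • x.fst + C a x.snd) + (b • x.fst + C b x.snd)
      rw [add_smul, map_add, LinearMap.add_apply]
      abel
    · show (a + b) • x.snd = a • x.snd + b • x.snd
      rw [add_smul]
  zero_smul x := by
    refine ext' C ?_ ?_
    · show (0 : A) • x.fst + C 0 x.snd = 0
      rw [zero_smul, map_zero, LinearMap.zero_apply, add_zero]
    · show (0 : A) • x.snd = 0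
      rw [zero_smul]

end EM

/-- derivations into `End(W)` are inner if `Ext^1(W, W) = 0` -/
theorem inner_of_ev [HasExt.{1} (ModuleCat.{0} A)] (hW : Ev A W W 1) (C : A →ₗ[K] (W →ₗ[K] W))
    (hC : ∀ a b w, C (a * b) w = a • C b w + C a (b • w)) :
    ∃ τ : W →ₗ[K] W, ∀ a w, C a w = τ (a • w) - a • τ w := by
  let _inst : Module A (EM C) := EM.mod C hC
  let i : W →ₗ[A] EM C :=
    { toFun := fun u => ⟨u, 0⟩
      map_add' := fun u v => by
        refine EM.ext' C rfl ?_
        show (0 : W) = 0 + 0
        rw [add_zero]
      map_smul' := fun a u => by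
        refine EM.ext' C ?_ ?_
        · show a • u = a • u + C a 0
          rw [map_zero, add_zero]
        · show (0 : W) = a • 0
          rw [smul_zero] }
  let p : EM C →ₗ[A] W :=
    { toFun := fun x => x.snd
      map_add' := fun x y => rfl
      map_smul' := fun a x => rfl }
  have hi : Function.Injective i := by
    intro u v huv
    exact congrArg EM.fst huv
  have hp : Function.Surjective p := fun w => ⟨⟨0, w⟩, rfl⟩
  have hex : LinearMap.range i = LinearMap.ker p := by
    apply Submodule.ext
    intro x
    constructor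
    · rintro ⟨u, rfl⟩
      rfl
    · intro hx
      have hx' : x.snd = 0 := hx
      exact ⟨x.fst, EM.ext' C rfl hx'.symm⟩
  obtain ⟨g, hg⟩ := ses_lift i p hi hp hex hW LinearMap.id
  have hg2 : ∀ w, (g w).snd = w := fun w => (LinearMap.congr_fun hg w).symm
  have h1 : ∀ a w, (g (a • w)).fst = a • (g w).fst + C a w := by
    intro a w
    rw [map_smul]
    show a • (g w).fst + C a (g w).snd = a • (g w).fst + C a w
    rw [hg2]
  have hC1 : ∀ w, C 1 w = 0 := by
    intro w
    have h2 := hC 1 1 w
    rw [one_mul, one_smul, one_smul] at h2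
    exact left_eq_add.1 h2
  refine ⟨{ toFun := fun w => (g w).fst, map_add' := fun u v => ?_, map_smul' := fun c w => ?_ },
    fun a w => ?_⟩
  · rw [map_add]
    rfl
  · have h3 : c • w = (c • (1 : A)) • w := by rw [smul_assoc, one_smul]
    have h4 : C (c • (1 : A)) w = 0 := by
      rw [map_smul, LinearMap.smul_apply, hC1, smul_zero]
    rw [RingHom.id_apply, h3, h1, h4, add_zero, smul_assoc, one_smul]
  · show C a w = (g (a • w)).fst - a • (g w).fst
    rw [h1, add_sub_cancel_left]

/-- modules without self-extensions give rigid points -/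
theorem rig_pt [FiniteDimensional K A] [HasExt.{1} (ModuleCat.{0} A)] (hW : Ev A W W 1) {d : ℕ}
    (e : W ≃ₗ[K] (Fin d → K)) : Rig (sc K A) (pt A e) := by
  intro c hc
  let b := Module.finBasis K A
  let C : A →ₗ[K] (W →ₗ[K] W) :=
    b.constr K fun k => e.symm.toLinearMap ∘ₗ Matrix.toLin' (c k) ∘ₗ e.toLinearMap
  have hCb : ∀ k w, e (C (b k) w) = (c k).mulVec (e w) := by
    intro k w
    have h1 : C (b k) = e.symm.toLinearMap ∘ₗ Matrix.toLin' (c k) ∘ₗ e.toLinearMap :=
      b.constr_basis K _ k
    rw [h1]
    show e (e.symm (Matrix.toLin' (c k) (e w))) = _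
    rw [LinearEquiv.apply_symm_apply, Matrix.toLin'_apply]
  have hC : ∀ a a' w, C (a * a') w = a • C a' w + C a (a' • w) := by
    let Φ : A →ₗ[K] A →ₗ[K] (W →ₗ[K] W) :=
      LinearMap.mk₂ K (fun a a' => C (a * a') - Algebra.lsmul K K W a ∘ₗ C a' -
          C a ∘ₗ Algebra.lsmul K K W a')
        (fun a₁ a₂ a' => by
          refine LinearMap.ext fun w => ?_
          show C ((a₁ + a₂) * a') w - (a₁ + a₂) • C a' w - C (a₁ + a₂) (a' • w) =
            (C (a₁ * a') w - a₁ • C a' w - C a₁ (a' • w)) +
            (C (a₂ * a') w - a₂ • C a' w - C a₂ (a' • w))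
          rw [add_mul, map_add, map_add, add_smul, LinearMap.add_apply, LinearMap.add_apply]
          abel)
        (fun r a a' => by
          refine LinearMap.ext fun w => ?_
          show C ((r • a) * a') w - (r • a) • C a' w - C (r • a) (a' • w) =
            r • (C (a * a') w - a • C a' w - C a (a' • w))
          have e1 : C ((r • a) * a') w = r • C (a * a') w := by
            rw [smul_mul_assoc, LinearMap.map_smul, LinearMap.smul_apply]
          have e2 : (r • a) • C a' w = r • (a • C a' w) := smul_assoc r a _
          have e3 : C (r • a) (a' • w) = r • C a (a' • w) := by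
            rw [LinearMap.map_smul, LinearMap.smul_apply]
          rw [e1, e2, e3, smul_sub, smul_sub])
        (fun a a₁ a₂ => by
          refine LinearMap.ext fun w => ?_
          show C (a * (a₁ + a₂)) w - a • C (a₁ + a₂) w - C a ((a₁ + a₂) • w) =
            (C (a * a₁) w - a • C a₁ w - C a (a₁ • w)) +
            (C (a * a₂) w - a • C a₂ w - C a (a₂ • w))
          rw [mul_add, map_add, map_add, add_smul, LinearMap.add_apply, LinearMap.add_apply,
            smul_add, map_add]
          abel)
        (fun r a a' => by
          refine LinearMap.ext fun w => ?_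
          show C (a * (r • a')) w - a • C (r • a') w - C a ((r • a') • w) =
            r • (C (a * a') w - a • C a' w - C a (a' • w))
          have e1 : C (a * (r • a')) w = r • C (a * a') w := by
            rw [mul_smul_comm, map_smul, LinearMap.smul_apply]
          have e2 : a • C (r • a') w = r • (a • C a' w) := by
            rw [map_smul, LinearMap.smul_apply, smul_comm a r]
          have e3 : C a ((r • a') • w) = r • C a (a' • w) := by
            rw [smul_assoc, LinearMap.map_smul]
          rw [e1, e2, e3, smul_sub, smul_sub])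
    have hΦ : Φ = 0 := by
      refine b.ext fun k => b.ext fun l => ?_
      refine LinearMap.ext fun w => ?_
      show C (b k * b l) w - b k • C (b l) w - C (b k) (b l • w) = 0
      apply e.injective
      rw [map_sub, map_sub, map_zero, hCb, ← rho_mulVec' e (b k), hCb, ← rho_mulVec' e (b l)]
      have h2 : e (C (b k * b l) w) = (∑ n, sc K A k l n • c n).mulVec (e w) := by
        have h3 : b k * b l = ∑ n, sc K A k l n • b n := sc_mul k l
        rw [h3, map_sum, LinearMap.sum_apply, map_sum, Matrix.sum_mulVec]
        refine Finset.sum_congr rfl fun n _ => ?_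
        rw [map_smul, LinearMap.smul_apply, map_smul, hCb, Matrix.smul_mulVec]
      rw [h2, Matrix.mulVec_mulVec, Matrix.mulVec_mulVec, ← Matrix.sub_mulVec, ← Matrix.sub_mulVec]
      have h4 := hc k l
      have h5 : ∑ n, sc K A k l n • c n - rho e (b k) * c l - c k * rho e (b l) = 0 := by
        have h6 : ∑ n, sc K A k l n • c n - rho e (b k) * c l - c k * rho e (b l) =
            -(pt A e k * c l - ∑ n, sc K A k l n • c n + c k * pt A e l) := by
          show ∑ n, sc K A k l n • c n - rho e (b k) * c l - c k * rho e (b l) =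
            -(rho e (b k) * c l - ∑ n, sc K A k l n • c n + c k * rho e (b l))
          abel
        rw [h6, h4, neg_zero]
      rw [h5, Matrix.zero_mulVec]
    intro a a' w
    have h7 : C (a * a') w - a • C a' w - C a (a' • w) = 0 :=
      LinearMap.congr_fun (LinearMap.congr_fun (LinearMap.congr_fun hΦ a) a') w
    rw [sub_sub, sub_eq_zero] at h7
    exact h7
  obtain ⟨τ, hτ⟩ := inner_of_ev hW C hC
  refine ⟨- LinearMap.toMatrix' (e.toLinearMap ∘ₗ τ ∘ₗ e.symm.toLinearMap), fun k => ?_⟩
  refine mat_ext fun v => ?_
  have h8 : ∀ u : Fin d → K, (LinearMap.toMatrix' (e.toLinearMap ∘ₗ τ ∘ₗ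
      e.symm.toLinearMap)).mulVec u = e (τ (e.symm u)) := by
    intro u
    rw [LinearMap.toMatrix'_mulVec]
    rfl
  have h9 : (c k).mulVec v = e (C (b k) (e.symm v)) := by
    rw [hCb, LinearEquiv.apply_symm_apply]
  rw [h9, hτ, Matrix.sub_mulVec, ← Matrix.mulVec_mulVec, ← Matrix.mulVec_mulVec,
    Matrix.neg_mulVec, Matrix.neg_mulVec, h8, h8, Matrix.mulVec_neg]
  show -(rho e (b k)).mulVec (e (τ (e.symm v))) - -e (τ (e.symm ((rho e (b k)).mulVec v))) = _
  rw [rho_mulVec, rho_mulVec, LinearEquiv.symm_apply_apply, LinearEquiv.symm_apply_apply, map_sub]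
  abel

end RGS
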